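import Pool.Agent.Lib.MP_96637b_nt.Embed

/-!
Cocompactness of the lattice, by Minkowski's convex body theorem.
-/

open scoped Quaternion MatrixGroups Topology
open Set MeasureTheory

noncomputable section

namespace Pool.Agent.Lib.MP_96637b_nt

open R4

theorem SL2_hom_trivial {F M : Type} [Field F] [CharZero F] [CommMonoid M] (f : SL(2, F) →* M)
    (g : SL(2, F)) : f g = 1 := by
  have h : commutator SL(2, F) = ⊤ :=
    Matrix.SL2.commutator_eq_top (a := 2) two_ne_zero (by norm_num)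
  have h2 := Abelianization.commutator_subset_ker f.toHomUnits
  rw [h] at h2
  have h3 : f.toHomUnits g = 1 := h2 (Subgroup.mem_top g)
  exact congrArg Units.val h3

theorem GG_hom_trivial {M : Type} [CommMonoid M] (f : GG →* M) (g : GG) : f g = 1 := by
  obtain ⟨a, b, c⟩ := g
  have h : ((a, b, c) : GG) = (a, 1, 1) * ((1, b, 1) * (1, 1, c)) := by simp
  have h1 := SL2_hom_trivial (f.comp (MonoidHom.inl _ _)) a
  have h2 := SL2_hom_trivial (f.comp ((MonoidHom.inr _ _).comp (MonoidHom.inl _ _))) b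
  have h3 := SL2_hom_trivial (f.comp ((MonoidHom.inr _ _).comp (MonoidHom.inr _ _))) c
  rw [h, map_mul, map_mul]
  change f (a, 1, 1) = 1 at h1
  change f (1, b, 1) = 1 at h2
  change f (1, 1, c) = 1 at h3
  rw [h1, h2, h3, one_mul, one_mul]

/-- The ambient algebra. -/
abbrev VV : Type :=
  Matrix (Fin 2) (Fin 2) ℝ × Matrix (Fin 2) (Fin 2) ℝ × Matrix (Fin 2) (Fin 2) ℂ

/-- The inclusion of the group in the algebra. -/
def valG : GG →* VV where
  toFun g := (g.1.1, g.2.1.1, g.2.2.1)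
  map_one' := rfl
  map_mul' _ _ := rfl

theorem isClosedEmbedding_valG : Topology.IsClosedEmbedding valG :=
  Matrix.SpecialLinearGroup.isClosedEmbedding_val.prodMap
    (Matrix.SpecialLinearGroup.isClosedEmbedding_val.prodMap
      Matrix.SpecialLinearGroup.isClosedEmbedding_val)

/-- The embedding of the order in the algebra. -/
def embV : QO →+* VV := (emb e1 s1 s1_sq).prod ((emb e2 s2 s2_sq).prod (emb e3 s3 s3_sq))

theorem valG_Phi (q : unitary QO) : valG (Phi q) = embV q := rfl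

/-- Real polynomial evaluation. -/
def pv {K : Type} [CommRing K] [Algebra ℝ K] (t : K) (c : Fin 4 × Fin 4 → ℝ) (j : Fin 4) : K :=
  c (j, 0) • (1 : K) + c (j, 1) • t + c (j, 2) • t ^ 2 + c (j, 3) • t ^ 3

/-- The real linear extension of one embedding. -/
def psiK {K : Type} [CommRing K] [Algebra ℝ K] (t s : K) :
    (Fin 4 × Fin 4 → ℝ) →ₗ[ℝ] Matrix (Fin 2) (Fin 2) K where
  toFun c := !![pv t c 0 + s * pv t c 2, -pv t c 1 + s * pv t c 3;
    pv t c 1 + s * pv t c 3, pv t c 0 - s * pv t c 2]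
  map_add' c d := by
    ext i j
    fin_cases i <;> fin_cases j <;> simp [pv, add_smul] <;> ring
  map_smul' r c := by
    ext i j
    fin_cases i <;> fin_cases j <;> simp [pv, Algebra.smul_def] <;> ring

theorem pv_eq_zero_of_psiK {K : Type} [Field K] [CharZero K] [Algebra ℝ K] {t s : K} (hs : s ≠ 0)
    {c : Fin 4 × Fin 4 → ℝ} (h : psiK t s c = 0) (j : Fin 4) : pv t c j = 0 := by
  have h00 : pv t c 0 + s * pv t c 2 = 0 := congrFun (congrFun h 0) 0
  have h01 : -pv t c 1 + s * pv t c 3 = 0 := congrFun (congrFun h 0) 1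
  have h10 : pv t c 1 + s * pv t c 3 = 0 := congrFun (congrFun h 1) 0
  have h11 : pv t c 0 - s * pv t c 2 = 0 := congrFun (congrFun h 1) 1
  have a0 : pv t c 0 = 0 := by linear_combination (h00 + h11) / 2
  have a1 : pv t c 1 = 0 := by linear_combination (h10 - h01) / 2
  have a2 : pv t c 2 = 0 := by
    apply mul_left_cancel₀ hs
    linear_combination (h00 - h11) / 2
  have a3 : pv t c 3 = 0 := by
    apply mul_left_cancel₀ hs
    linear_combination (h10 + h01) / 2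
  fin_cases j
  exacts [a0, a1, a2, a3]

/-- The real linear extension of the embedding. -/
def psi : (Fin 4 × Fin 4 → ℝ) →ₗ[ℝ] VV :=
  (psiK tr s1).prod ((psiK (-tr) s2).prod (psiK ((tr : ℂ) * Complex.I) s3))

theorem s1_ne : s1 ≠ 0 := fun h => by
  have := s1_sq
  rw [h] at this
  linarith [e1_pi7_pos]

theorem s2_ne : s2 ≠ 0 := fun h => by
  have := s2_sq
  rw [h] at this
  linarith [e2_pi7_pos]

theorem s3_ne : s3 ≠ 0 := fun h => by
  have := s3_sq
  rw [h, zero_pow two_ne_zero] at this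
  exact pi7_ne_zero (ev_eq_zero this.symm)

theorem psi_injective : Function.Injective psi := by
  rw [injective_iff_map_eq_zero]
  intro c hc
  have h1 := pv_eq_zero_of_psiK s1_ne (congrArg Prod.fst hc)
  have h2 := pv_eq_zero_of_psiK s2_ne (congrArg (fun v : VV => v.2.1) hc)
  have h3 := pv_eq_zero_of_psiK s3_ne (congrArg (fun v : VV => v.2.2) hc)
  ext ⟨j, k⟩
  have a1 := h1 j
  have a2 := h2 j
  have a3 := congrArg Complex.re (h3 j)
  have a4 := congrArg Complex.im (h3 j)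
  simp [pv, pow_succ] at a1 a2 a3 a4
  have ht := tr_pos
  have b0 : c (j, 0) = 0 := by linarith
  have b1 : c (j, 1) = 0 := by
    apply mul_right_cancel₀ ht.ne'
    linarith
  have b2 : c (j, 2) = 0 := by
    apply mul_right_cancel₀ (mul_pos ht ht).ne'
    linarith
  have b3 : c (j, 3) = 0 := by
    apply mul_right_cancel₀ (mul_pos (mul_pos ht ht) ht).ne'
    linarith
  fin_cases k
  exacts [b0, b1, b2, b3]

theorem finrank_VV : Module.finrank ℝ (Fin 4 × Fin 4 → ℝ) = Module.finrank ℝ VV := by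
  simp [Module.finrank_prod, Module.finrank_matrix]

/-- The linear isomorphism. -/
def psiE : (Fin 4 × Fin 4 → ℝ) ≃ₗ[ℝ] VV := psi.linearEquivOfInjective psi_injective finrank_VV

/-- A quaternion from its sixteen integer coordinates. -/
def ofCoords (n : Fin 4 × Fin 4 → ℤ) : QO :=
  ⟨⟨n (0, 0), n (0, 1), n (0, 2), n (0, 3)⟩, ⟨n (1, 0), n (1, 1), n (1, 2), n (1, 3)⟩,
    ⟨n (2, 0), n (2, 1), n (2, 2), n (2, 3)⟩, ⟨n (3, 0), n (3, 1), n (3, 2), n (3, 3)⟩⟩

theorem psiK_int {K : Type} [CommRing K] [Algebra ℝ K] (t : K) (ht : t ^ 4 = 2) (s : K)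
    (hs : s ^ 2 = ev t ht pi7) (n : Fin 4 × Fin 4 → ℤ) :
    psiK t s (fun i => (n i : ℝ)) = emb (ev t ht) s hs (ofCoords n) := by
  ext i j
  fin_cases i <;> fin_cases j <;>
    simp [psiK, pv, emb_apply, ofCoords, ev_apply, Algebra.smul_def]

theorem psi_int (n : Fin 4 × Fin 4 → ℤ) : psi (fun i => (n i : ℝ)) = embV (ofCoords n) :=
  Prod.ext (psiK_int tr tr_pow s1 s1_sq n)
    (Prod.ext (psiK_int (-tr) neg_tr_pow s2 s2_sq n) (psiK_int _ itr_pow s3 s3_sq n))

theorem exists_compact_minkowski : ∃ C : Set VV, IsCompact C ∧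
    ∀ g : GG, ∃ x : QO, x ≠ 0 ∧ valG g * embV x ∈ C := by
  refine ⟨psi '' Metric.closedBall 0 2,
    (isCompact_closedBall 0 2).image psi.continuous_of_finiteDimensional, fun g => ?_⟩
  let T : (Fin 4 × Fin 4 → ℝ) →ₗ[ℝ] (Fin 4 × Fin 4 → ℝ) :=
    (psiE.symm : VV →ₗ[ℝ] (Fin 4 × Fin 4 → ℝ)) ∘ₗ LinearMap.mul ℝ VV (valG g) ∘ₗ
      (psiE.symm.symm : (Fin 4 × Fin 4 → ℝ) →ₗ[ℝ] VV)
  have hdet : LinearMap.det T = 1 := by
    rw [LinearMap.det_conj]
    exact GG_hom_trivial ((Algebra.norm ℝ).comp valG) g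
  have hvol : volume (T ⁻¹' Metric.closedBall 0 2) = ENNReal.ofReal (4 ^ 16) := by
    rw [Measure.addHaar_preimage_linearMap _ (by rw [hdet]; exact one_ne_zero), hdet,
      Real.volume_pi_closedBall _ zero_le_two]
    norm_num
  have hfund := ZSpan.isAddFundamentalDomain' (Pi.basisFun ℝ (Fin 4 × Fin 4)) volume
  have : Countable (Submodule.span ℤ (range (Pi.basisFun ℝ (Fin 4 × Fin 4)))).toAddSubgroup :=
    inferInstanceAs (Countable (Submodule.span ℤ (range (Pi.basisFun ℝ (Fin 4 × Fin 4)))))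
  obtain ⟨x, hx0, hx⟩ := exists_ne_zero_mem_lattice_of_measure_mul_two_pow_lt_measure hfund
    (s := T ⁻¹' Metric.closedBall 0 2) (by
      intro y hy
      simpa using hy) ((convex_closedBall 0 2).linear_preimage T) (by
      rw [hvol, ZSpan.fundamentalDomain_pi_basisFun, volume_pi, Measure.pi_pi]
      simp only [Real.volume_Ico, sub_zero, ENNReal.ofReal_one, Finset.prod_const_one, one_mul,
        Module.finrank_fintype_fun_eq_card, Fintype.card_prod, Fintype.card_fin]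
      rw [← ENNReal.ofReal_ofNat 2, ← ENNReal.ofReal_pow zero_le_two,
        ENNReal.ofReal_lt_ofReal_iff (by norm_num)]
      norm_num)
  have hint := ((Pi.basisFun ℝ (Fin 4 × Fin 4)).mem_span_iff_repr_mem ℤ x.1).1 x.2
  choose n hn using hint
  have hxn : x.1 = fun i => (n i : ℝ) := by
    ext i
    simpa using (hn i).symm
  refine ⟨ofCoords n, fun h0 => hx0 ?_, T x.1, hx, ?_⟩
  · apply Subtype.ext
    apply psi_injective
    rw [hxn, psi_int, h0]
    simp
  · rw [← psi_int, ← hxn]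
    exact psiE.apply_symm_apply _

theorem finite_bounded (M : ℝ) :
    {a : R4 | |e1 a| ≤ M ∧ |e2 a| ≤ M ∧ ‖e3 a‖ ≤ M}.Finite := by
  have hfin : (pi univ fun _ : Fin 4 => Icc (-⌈M⌉) ⌈M⌉).Finite := Finite.pi fun _ => finite_Icc _ _
  refine (hfin.preimage equivFun.injective.injOn).subset ?_
  rintro a ⟨h1, h2, h3⟩
  have h4 := (Complex.abs_re_le_norm _).trans h3
  have h5 := (Complex.abs_im_le_norm _).trans h3
  rw [e3_re] at h4
  rw [e3_im] at h5
  simp only [e1, e2, ev_apply] at h1 h2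
  rw [abs_le] at h1 h2 h4 h5
  have ht := tr_gt
  have ht2 : 1 ≤ tr ^ 2 := by nlinarith
  have ht3 : 1 ≤ tr ^ 3 := by nlinarith
  have key : ∀ (z : ℤ) (u : ℝ), 1 ≤ u → -M ≤ z * u → z * u ≤ M → z ∈ Icc (-⌈M⌉) ⌈M⌉ := by
    intro z u hu a1 a2
    have hM := Int.le_ceil M
    have b1 : -M ≤ z := by
      by_contra h
      nlinarith
    have b2 : z ≤ M := by
      by_contra h
      nlinarith
    constructor
    · have : ((-⌈M⌉ : ℤ) : ℝ) ≤ z := by push_cast; linarith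
      exact_mod_cast this
    · have : (z : ℝ) ≤ ⌈M⌉ := by linarith
      exact_mod_cast this
  intro i _
  fin_cases i
  · exact key a.a 1 le_rfl (by nlinarith) (by nlinarith)
  · exact key a.b tr (by linarith) (by nlinarith) (by nlinarith)
  · exact key a.c (tr ^ 2) ht2 (by nlinarith) (by nlinarith)
  · exact key a.d (tr ^ 3) ht3 (by nlinarith) (by nlinarith)

/-- Reduction of an element of the ring modulo an integer. -/
def redR (D : ℕ) (x : R4) : ZMod D × ZMod D × ZMod D × ZMod D := (x.a, x.b, x.c, x.d)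

theorem exists_of_redR {D : ℕ} {x y : R4} (h : redR D x = redR D y) :
    ∃ u, x = y + (D : R4) * u := by
  simp only [redR, Prod.mk.injEq, ZMod.intCast_eq_intCast_iff_dvd_sub] at h
  obtain ⟨⟨a, ha⟩, ⟨b, hb⟩, ⟨c, hc⟩, ⟨d, hd⟩⟩ := h
  refine ⟨⟨-a, -b, -c, -d⟩, ?_⟩
  ext <;> simp <;> linarith

theorem finite_classes (M : ℝ) : ∃ t : Set QO, t.Finite ∧ (∀ y ∈ t, y ≠ 0) ∧
    ∀ x : QO, x ≠ 0 → |e1 (qn x)| ≤ M → |e2 (qn x)| ≤ M → ‖e3 (qn x)‖ ≤ M →
      ∃ y ∈ t, ∃ γ ∈ Gam0, x = γ * y := by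
  have hS := finite_bounded M
  set S := {a : R4 | |e1 a| ≤ M ∧ |e2 a| ≤ M ∧ ‖e3 a‖ ≤ M}
  obtain ⟨D, hD0, hD⟩ : ∃ D : ℕ, D ≠ 0 ∧ ∀ a ∈ S, a ≠ 0 → a * lev ∣ (D : R4) := by
    obtain ⟨B, hB⟩ := (hS.image fun a => (nrm a).natAbs).bddAbove
    refine ⟨B.factorial * 224, mul_ne_zero B.factorial_ne_zero (by norm_num), fun a ha h0 => ?_⟩
    rw [Nat.cast_mul]
    refine mul_dvd_mul ?_ ⟨⟨22, 18, 16, 15⟩, by decide +kernel⟩
    have h1 : (nrm a).natAbs ∣ B.factorial :=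
      Nat.dvd_factorial (Int.natAbs_pos.2 fun h => h0 (eq_zero_of_nrm h)) (hB ⟨a, ha, rfl⟩)
    have h2 : nrm a ∣ (B.factorial : ℤ) := Int.natAbs_dvd.1 (Int.natCast_dvd_natCast.2 h1)
    have h3 : ((nrm a : ℤ) : R4) ∣ ((B.factorial : ℤ) : R4) := map_dvd (Int.castRingHom R4) h2
    rw [Int.cast_natCast] at h3
    exact dvd_trans ⟨adj a, (mul_adj a).symm⟩ h3
  have : NeZero D := ⟨hD0⟩
  let cls : QO → R4 × (Fin 4 → ZMod D × ZMod D × ZMod D × ZMod D) := fun x =>
    (qn x, ![redR D x.re, redR D x.imI, redR D x.imJ, redR D x.imK])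
  let X : Set QO := {x | x ≠ 0 ∧ qn x ∈ S}
  have hfin : (cls '' X).Finite := by
    refine (hS.prod finite_univ).subset ?_
    rintro _ ⟨x, hx, rfl⟩
    exact ⟨hx.2, mem_univ _⟩
  obtain ⟨t, htX, ht, himg⟩ := hfin.exists_subset_finite_image_eq subset_rfl
  refine ⟨t, ht, fun y hy => (htX hy).1, fun x hx h1 h2 h3 => ?_⟩
  have hxX : x ∈ X := ⟨hx, h1, h2, h3⟩
  obtain ⟨y, hy, hxy⟩ : cls x ∈ cls '' t := himg ▸ mem_image_of_mem cls hxX
  have hn : qn y = qn x := congrArg Prod.fst hxy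
  have hc := congrArg Prod.snd hxy
  obtain ⟨u0, hu0⟩ := exists_of_redR (congrFun hc 0).symm
  obtain ⟨u1, hu1⟩ := exists_of_redR (congrFun hc 1).symm
  obtain ⟨u2, hu2⟩ := exists_of_redR (congrFun hc 2).symm
  obtain ⟨u3, hu3⟩ := exists_of_redR (congrFun hc 3).symm
  have hn0 : qn x ≠ 0 := fun h => hx (eq_zero_of_qn h)
  obtain ⟨m, hm⟩ := hD _ hxX.2 hn0
  have hxu : x = y + (D : R4) • (⟨u0, u1, u2, u3⟩ : QO) := by
    ext1
    exacts [hu0, hu1, hu2, hu3]
  let γ : QO := 1 + lev • (m • (⟨u0, u1, u2, u3⟩ * star y))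
  have hγ : x = γ * y := by
    simp only [γ, add_mul, one_mul, smul_mul_assoc, mul_assoc, star_mul_qn,
      QuaternionAlgebra.mul_coe_eq_smul, smul_smul]
    rw [hn, hxu]
    congr 2
    rw [← hxu, hm]
    ring
  have hγ1 : qn γ = 1 := by
    have := qn_mul γ y
    rw [← hγ, hn] at this
    apply mul_right_cancel₀ hn0
    rw [← this, one_mul]
  exact ⟨y, hy, ⟨γ, mem_unitary_iff.2 hγ1⟩, ⟨0, _, by rw [pow_zero]⟩, hγ⟩

theorem exists_right_inv {y : QO} (hy : y ≠ 0) : ∃ v : VV, embV y * v = 1 := by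
  have hn : qn y ≠ 0 := fun h => hy (eq_zero_of_qn h)
  refine ⟨((emb e1 s1 s1_sq y)⁻¹, (emb e2 s2 s2_sq y)⁻¹, (emb e3 s3 s3_sq y)⁻¹), ?_⟩
  refine Prod.ext ?_ (Prod.ext ?_ ?_)
  · refine Matrix.mul_nonsing_inv (emb e1 s1 s1_sq y) ?_
    rw [det_emb, isUnit_iff_ne_zero]
    exact fun h => hn (ev_eq_zero h)
  · refine Matrix.mul_nonsing_inv (emb e2 s2 s2_sq y) ?_
    rw [det_emb, isUnit_iff_ne_zero]
    exact fun h => hn (ev_eq_zero h)
  · refine Matrix.mul_nonsing_inv (emb e3 s3 s3_sq y) ?_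
    rw [det_emb, isUnit_iff_ne_zero]
    exact fun h => hn (ev_eq_zero h)

theorem Gam_cocompact : CompactSpace (GG ⧸ Gam) := by
  obtain ⟨C, hC, hmin⟩ := exists_compact_minkowski
  have hdc : Continuous fun v : VV => (v.1.det, v.2.1.det, v.2.2.det) := by fun_prop
  obtain ⟨M, hM⟩ := (hC.image hdc).isBounded.exists_norm_le
  obtain ⟨t, ht, ht0, hcls⟩ := finite_classes M
  choose! inv hinv using fun y (hy : y ≠ 0) => exists_right_inv hy
  have hK : IsCompact (⋃ y ∈ t, valG ⁻¹' ((fun v => v * inv y) '' C)) :=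
    ht.isCompact_biUnion fun y _ =>
      isClosedEmbedding_valG.isCompact_preimage (hC.image (by fun_prop))
  refine ⟨?_⟩
  have := hK.image (QuotientGroup.continuous_mk (N := Gam))
  refine this.of_isClosed_subset isClosed_univ ?_
  intro z _
  obtain ⟨g, rfl⟩ := QuotientGroup.mk_surjective z
  obtain ⟨x, hx0, hx⟩ := hmin g
  have hb := hM _ (mem_image_of_mem _ hx)
  have hb1 : ‖(valG g * embV x).1.det‖ ≤ M := (norm_fst_le _).trans hb
  have hb2 : ‖(valG g * embV x).2.1.det‖ ≤ M := ((norm_fst_le _).trans (norm_snd_le _)).trans hb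
  have hb3 : ‖(valG g * embV x).2.2.det‖ ≤ M := ((norm_snd_le _).trans (norm_snd_le _)).trans hb
  change ‖(g.1.1 * emb e1 s1 s1_sq x).det‖ ≤ M at hb1
  change ‖(g.2.1.1 * emb e2 s2 s2_sq x).det‖ ≤ M at hb2
  change ‖(g.2.2.1 * emb e3 s3 s3_sq x).det‖ ≤ M at hb3
  rw [Matrix.det_mul, Matrix.SpecialLinearGroup.det_coe, one_mul, det_emb] at hb1 hb2 hb3
  obtain ⟨y, hy, γ, hγ, hxy⟩ := hcls x hx0 hb1 hb2 hb3
  refine ⟨g * Phi γ, mem_biUnion hy ⟨_, hx, ?_⟩, QuotientGroup.mk_mul_of_mem g ⟨γ, hγ, rfl⟩⟩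
  simp only
  rw [hxy, map_mul, map_mul, valG_Phi, mul_assoc, mul_assoc, hinv y (ht0 y hy), mul_one]

end Pool.Agent.Lib.MP_96637b_nt
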