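import Mathlib

/-!
Definitions for MP_96637b_nt: unitary representations, the unitary dual, multiplicities,
regular representations on `L²(Γ\G)`, and L-packets of `SL₂(ℝ) × SL₂(ℝ) × SL₂(ℂ)`.
-/

open MeasureTheory
open scoped MatrixGroups

noncomputable section

namespace Pool.Agent.Lib.MP_96637b_nt

section Operators

variable (H K : Type) [NormedAddCommGroup H] [InnerProductSpace ℂ H]
  [NormedAddCommGroup K] [InnerProductSpace ℂ K]

/-- Unitary operators from `H` onto `K`. -/
def UOp : Type := H ≃ₗᵢ[ℂ] K

/-- The unitary group of `H`. -/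
instance UOp.group : Group (UOp H H) := LinearIsometryEquiv.instGroup

/-- Bounded linear operators from `H` to `K`. -/
def BOp : Type := H →L[ℂ] K

instance BOp.addCommGroup : AddCommGroup (BOp H K) := ContinuousLinearMap.addCommGroup

instance BOp.module : Module ℂ (BOp H K) := ContinuousLinearMap.module

variable {H K}

/-- The value of a unitary operator at a vector. -/
def UOp.app (U : UOp H K) (v : H) : K := (id U : H ≃ₗᵢ[ℂ] K) v

/-- The value of a bounded operator at a vector. -/
def BOp.app (T : BOp H K) (v : H) : K := (id T : H →L[ℂ] K) v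

/-- A closed subspace invariant under a family of maps. -/
def IsClosedInvariant {G : Type} (a : G → H → H) (W : Submodule ℂ H) : Prop :=
  IsClosed (W : Set H) ∧ ∀ (g : G) (v : H), v ∈ W → a g v ∈ W

end Operators

/-- A unitary representation of `G` on a complex Hilbert space. -/
structure URep (G : Type) [Group G] where
  H : Type
  [normed : NormedAddCommGroup H]
  [inner : InnerProductSpace ℂ H]
  [complete : CompleteSpace H]
  ρ : G →* UOp H H

attribute [instance] URep.normed URep.inner URep.complete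

section General

variable {G : Type} [Group G]

/-- The action of `g` on the vector `v`. -/
def URep.act (π : URep G) (g : G) (v : π.H) : π.H := (π.ρ g).app v

/-- The map `T` intertwines `π` and `σ`. -/
def Intertwines (π σ : URep G) (T : π.H → σ.H) : Prop :=
  ∀ (g : G) (v : π.H), T (π.act g v) = σ.act g (T v)

/-- Unitary equivalence of unitary representations. -/
def URep.Equivalent (π σ : URep G) : Prop :=
  ∃ U : UOp π.H σ.H, Intertwines π σ U.app

/-- Strong continuity. -/
def URep.StronglyContinuous [TopologicalSpace G] (π : URep G) : Prop :=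
  ∀ v : π.H, Continuous fun g : G => π.act g v

/-- Irreducibility: nonzero space, no closed invariant subspace except `0` and the whole space. -/
def URep.Irreducible (π : URep G) : Prop :=
  Nontrivial π.H ∧ ∀ W : Submodule ℂ π.H, IsClosedInvariant π.act W → W = ⊥ ∨ W = ⊤

theorem URep.equivalent_iff (π σ : URep G) : π.Equivalent σ ↔
    ∃ U : π.H ≃ₗᵢ[ℂ] σ.H, ∀ (g : G) (v : π.H), U (π.act g v) = σ.act g (U v) := Iff.rfl

theorem URep.Equivalent.refl (π : URep G) : π.Equivalent π :=
  ⟨LinearIsometryEquiv.refl ℂ _, fun _ _ => rfl⟩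

theorem URep.Equivalent.symm {π σ : URep G} (h : π.Equivalent σ) : σ.Equivalent π := by
  obtain ⟨U, hU⟩ := (URep.equivalent_iff _ _).1 h
  refine (URep.equivalent_iff _ _).2 ⟨U.symm, fun g v => ?_⟩
  apply U.injective
  rw [hU]
  simp

theorem URep.Equivalent.trans {π σ τ : URep G} (h : π.Equivalent σ) (h' : σ.Equivalent τ) :
    π.Equivalent τ := by
  obtain ⟨U, hU⟩ := (URep.equivalent_iff _ _).1 h
  obtain ⟨V, hV⟩ := (URep.equivalent_iff _ _).1 h'
  exact (URep.equivalent_iff _ _).2 ⟨U.trans V, fun g v => by simp [hU, hV]⟩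

/-- Strongly continuous irreducible unitary representations. -/
def IrrRep (G : Type) [Group G] [TopologicalSpace G] : Type 1 :=
  {π : URep G // π.StronglyContinuous ∧ π.Irreducible}

/-- Unitary equivalence as a setoid on irreducible representations. -/
def irrSetoid (G : Type) [Group G] [TopologicalSpace G] : Setoid (IrrRep G) where
  r π σ := π.1.Equivalent σ.1
  iseqv := ⟨fun π => URep.Equivalent.refl π.1, URep.Equivalent.symm, URep.Equivalent.trans⟩

/-- The unitary dual: equivalence classes of irreducible unitary representations. -/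
def UnitaryDual (G : Type) [Group G] [TopologicalSpace G] : Type 1 :=
  Quotient (irrSetoid G)

/-- A representative of a class in the unitary dual. -/
def UnitaryDual.rep [TopologicalSpace G] (η : UnitaryDual G) : URep G :=
  (Quotient.out η).1

theorem intertwines_add {π σ : URep G} {S T : BOp π.H σ.H} (hS : Intertwines π σ S.app)
    (hT : Intertwines π σ T.app) : Intertwines π σ (S + T).app := fun g v => by
  change S.app _ + T.app _ = σ.act g (S.app v + T.app v)
  rw [hS g v, hT g v]
  exact (map_add (id (σ.ρ g) : σ.H ≃ₗᵢ[ℂ] σ.H) _ _).symm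

theorem intertwines_zero (π σ : URep G) : Intertwines π σ (0 : BOp π.H σ.H).app := fun g _ =>
  (map_zero (id (σ.ρ g) : σ.H ≃ₗᵢ[ℂ] σ.H)).symm

theorem intertwines_smul {π σ : URep G} (c : ℂ) {T : BOp π.H σ.H}
    (hT : Intertwines π σ T.app) : Intertwines π σ (c • T).app := fun g v => by
  change c • T.app _ = σ.act g (c • T.app v)
  rw [hT g v]
  exact (map_smul (id (σ.ρ g) : σ.H ≃ₗᵢ[ℂ] σ.H) _ _).symm

/-- The space `Hom_G(π, σ)` of bounded intertwining operators. -/
def intertwiners (π σ : URep G) : Submodule ℂ (BOp π.H σ.H) where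
  carrier := {T | Intertwines π σ T.app}
  add_mem' := intertwines_add
  zero_mem' := intertwines_zero π σ
  smul_mem' := intertwines_smul

/-- The multiplicity of `π` in `σ`: the dimension of `Hom_G(π, σ)`. -/
def mult (π σ : URep G) : Cardinal := Module.rank ℂ (intertwiners π σ)

/-- The representation `g ↦ π(φ g)`. -/
def URep.twist (π : URep G) (φ : G →* G) : URep G where
  H := π.H
  ρ := π.ρ.comp φ

/-- The space `Γ\G` of right cosets `Γ g`, with the quotient topology. -/
abbrev RightQuot (Γ : Subgroup G) : Type := Quotient (QuotientGroup.rightRel Γ)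

theorem rightRel_mul (Γ : Subgroup G) (g a b : G) (h : QuotientGroup.rightRel Γ a b) :
    QuotientGroup.rightRel Γ (a * g) (b * g) := by
  rw [QuotientGroup.rightRel_apply] at h ⊢
  simpa [mul_assoc] using h

/-- Right translation `Γ x ↦ Γ x g` on `Γ\G`. -/
def rightMul (Γ : Subgroup G) (g : G) : RightQuot Γ → RightQuot Γ :=
  Quotient.map (fun x => x * g) (rightRel_mul Γ g)

/-- A `G`-invariant Borel probability measure on `Γ\G`. -/
structure InvariantProb [TopologicalSpace G] (Γ : Subgroup G) where
  μ : @Measure (RightQuot Γ) (borel (RightQuot Γ))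
  prob : μ Set.univ = 1
  inv : ∀ g : G,
    @MeasurePreserving _ _ (borel (RightQuot Γ)) (borel (RightQuot Γ)) (rightMul Γ g) μ μ

section Regular

variable [TopologicalSpace G] {Γ : Subgroup G} (m : InvariantProb Γ)

/-- The space `L²(Γ\G)`. -/
def InvariantProb.L2 : Type := @Lp (RightQuot Γ) ℂ (borel (RightQuot Γ)) _ 2 m.μ

instance InvariantProb.normed : NormedAddCommGroup m.L2 :=
  @Lp.instNormedAddCommGroup _ _ (borel (RightQuot Γ)) 2 m.μ _ _

instance InvariantProb.inner : InnerProductSpace ℂ m.L2 :=
  @L2.innerProductSpace _ _ ℂ _ (borel (RightQuot Γ)) m.μ _ _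

instance InvariantProb.complete : CompleteSpace m.L2 :=
  @Lp.instCompleteSpace _ (borel (RightQuot Γ)) 2 m.μ _ _ _ _

/-- The operator `f ↦ (x ↦ f (x g))` on `L²(Γ\G)`. -/
def InvariantProb.pull (g : G) : m.L2 →ₗᵢ[ℂ] m.L2 :=
  @Lp.compMeasurePreservingₗᵢ (RightQuot Γ) ℂ (borel (RightQuot Γ)) 2 m.μ _ (RightQuot Γ)
    (borel (RightQuot Γ)) m.μ ℂ _ _ _ _ (rightMul Γ g) (m.inv g)

theorem InvariantProb.pull_one (v : m.L2) : m.pull 1 v = v := by
  let : MeasurableSpace (RightQuot Γ) := borel _
  change Lp.compMeasurePreserving (rightMul Γ 1) (m.inv 1) v = v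
  have h : rightMul Γ 1 = id := by
    funext x
    induction x using Quotient.inductionOn
    simp [rightMul]
  have h2 : ∀ (f : RightQuot Γ → RightQuot Γ) (hf : MeasurePreserving f m.μ m.μ), f = id →
      Lp.compMeasurePreserving f hf v = v := by
    intro f hf hfi
    subst hfi
    exact Lp.compMeasurePreserving_id_apply v
  exact h2 _ _ h

theorem InvariantProb.pull_mul (g h : G) (v : m.L2) :
    m.pull (g * h) v = m.pull g (m.pull h v) := by
  let : MeasurableSpace (RightQuot Γ) := borel _
  change Lp.compMeasurePreserving (rightMul Γ (g * h)) (m.inv _) v =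
    Lp.compMeasurePreserving (rightMul Γ g) (m.inv _)
      (Lp.compMeasurePreserving (rightMul Γ h) (m.inv _) v)
  rw [← Lp.compMeasurePreserving_comp_apply]
  have h1 : rightMul Γ (g * h) = rightMul Γ h ∘ rightMul Γ g := by
    funext x
    induction x using Quotient.inductionOn
    simp [rightMul, mul_assoc]
  have h2 : ∀ (f f' : RightQuot Γ → RightQuot Γ) (hf : MeasurePreserving f m.μ m.μ)
      (hf' : MeasurePreserving f' m.μ m.μ), f = f' →
      Lp.compMeasurePreserving f hf v = Lp.compMeasurePreserving f' hf' v := by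
    intro f f' hf hf' hff
    subst hff
    rfl
  exact h2 _ _ _ _ h1

theorem InvariantProb.pull_surjective (g : G) : Function.Surjective (m.pull g) := fun v =>
  ⟨m.pull g⁻¹ v, by rw [← m.pull_mul, mul_inv_cancel, m.pull_one]⟩

/-- The unitary operator `f ↦ (x ↦ f (x g))` on `L²(Γ\G)`. -/
def InvariantProb.op (g : G) : UOp m.L2 m.L2 :=
  LinearIsometryEquiv.ofSurjective (m.pull g) (m.pull_surjective g)

theorem InvariantProb.op_one : m.op 1 = 1 :=
  LinearIsometryEquiv.ext m.pull_one

theorem InvariantProb.op_mul (g h : G) : m.op (g * h) = m.op g * m.op h :=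
  LinearIsometryEquiv.ext (m.pull_mul g h)

/-- The right regular representation of `G` on `L²(Γ\G)`. -/
def InvariantProb.regular : URep G where
  H := m.L2
  ρ := { toFun := m.op, map_one' := m.op_one, map_mul' := m.op_mul }

end Regular

/-- A uniform lattice: a discrete subgroup with compact quotient. -/
def IsUniformLattice [TopologicalSpace G] (Γ : Subgroup G) : Prop :=
  DiscreteTopology Γ ∧ CompactSpace (RightQuot Γ)

/-- A torsion-free subgroup. -/
def IsTorsionFreeSubgroup (Γ : Subgroup G) : Prop :=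
  ∀ γ ∈ Γ, IsOfFinOrder γ → γ = 1

end General

theorem det_conj {K : Type} [CommRing K] (h : GL (Fin 2) K) (g : SL(2, K)) :
    Matrix.det (h.val * g.val * (h⁻¹).val) = 1 := by
  rw [Matrix.det_units_conj, g.det_coe]

theorem conj_mul {K : Type} [CommRing K] (h : GL (Fin 2) K) (g g' : SL(2, K)) :
    h.val * (g * g').val * (h⁻¹).val =
      (h.val * g.val * (h⁻¹).val) * (h.val * g'.val * (h⁻¹).val) := by
  have : (h⁻¹).val * h.val = 1 := Units.inv_mul h
  calc h.val * (g * g').val * (h⁻¹).val
      = h.val * g.val * ((h⁻¹).val * h.val) * g'.val * (h⁻¹).val := by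
        rw [this]; simp [Matrix.mul_assoc]
    _ = _ := by simp only [Matrix.mul_assoc]

/-- Conjugation `g ↦ h g h⁻¹` of `SL₂(K)` by an element of `GL₂(K)`. -/
def conjSL {K : Type} [CommRing K] (h : GL (Fin 2) K) : SL(2, K) →* SL(2, K) where
  toFun g := ⟨h.val * g.val * (h⁻¹).val, det_conj h g⟩
  map_one' := Subtype.ext (by simp)
  map_mul' g g' := Subtype.ext (conj_mul h g g')

/-- The group `SL₂(ℝ) × SL₂(ℝ) × SL₂(ℂ)`, the real points of `SL₂ × SL₂ × Res_{ℂ/ℝ} SL₂`. -/
abbrev GG : Type := SL(2, ℝ) × SL(2, ℝ) × SL(2, ℂ)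

/-- Conjugation of `GG` by an element of `GL₂(ℝ) × GL₂(ℝ) × GL₂(ℂ)`. -/
def adG (h : GL (Fin 2) ℝ × GL (Fin 2) ℝ × GL (Fin 2) ℂ) : GG →* GG :=
  (conjSL h.1).prodMap ((conjSL h.2.1).prodMap (conjSL h.2.2))

/-- The L-packet of `π`: its orbit under conjugation by `GL₂(ℝ) × GL₂(ℝ) × GL₂(ℂ)`. -/
def LPacket (π : UnitaryDual GG) : Set (UnitaryDual GG) :=
  {η | ∃ h, η.rep.Equivalent (π.rep.twist (adG h))}

/-- The multiplicity of the L-packet of `π` in `σ`. -/
def packetMult (π : UnitaryDual GG) (σ : URep GG) : Cardinal :=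
  Cardinal.sum fun η : LPacket π => mult η.1.rep σ

/-- The projection of `Γ` to each of the three simple factors is injective. -/
def InjectsInFactors (Γ : Subgroup GG) : Prop :=
  ∀ γ ∈ Γ, γ.1 = 1 ∨ γ.2.1 = 1 ∨ γ.2.2 = 1 → γ = 1

end Pool.Agent.Lib.MP_96637b_nt
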