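import Pool.Agent.Lib.MP_96637b_nt.Quat
import Pool.Agent.Lib.MP_96637b_nt.Defs

/-!
The embedding of the norm one group in `SL₂(ℝ) × SL₂(ℝ) × SL₂(ℂ)`.
-/

open scoped Quaternion MatrixGroups Topology
open Set

noncomputable section

namespace Pool.Agent.Lib.MP_96637b_nt

open R4

/-- The real fourth root of two. -/
def tr : ℝ := √(√2)

theorem tr_pos : 0 < tr := Real.sqrt_pos.2 (Real.sqrt_pos.2 two_pos)

theorem tr_pow : tr ^ 4 = 2 := by
  rw [show tr ^ 4 = (tr ^ 2) ^ 2 by ring, tr, Real.sq_sqrt (Real.sqrt_nonneg 2),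
    Real.sq_sqrt zero_le_two]

theorem tr_lt : tr < 1.19 := by
  by_contra h
  have : (1.19 : ℝ) ^ 4 ≤ tr ^ 4 := pow_le_pow_left₀ (by norm_num) (not_lt.1 h) 4
  rw [tr_pow] at this
  norm_num at this

theorem tr_gt : 1.18 < tr := by
  by_contra h
  have : tr ^ 4 ≤ (1.18 : ℝ) ^ 4 := pow_le_pow_left₀ tr_pos.le (not_lt.1 h) 4
  rw [tr_pow] at this
  norm_num at this

theorem neg_tr_pow : (-tr) ^ 4 = 2 := by rw [← tr_pow]; ring

theorem itr_pow : ((tr : ℂ) * Complex.I) ^ 4 = 2 := by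
  rw [mul_pow, Complex.I_pow_four, mul_one, ← Complex.ofReal_pow, tr_pow]
  norm_num

/-- First real embedding. -/
def e1 : R4 →+* ℝ := ev tr tr_pow
/-- Second real embedding. -/
def e2 : R4 →+* ℝ := ev (-tr) neg_tr_pow
/-- Complex embedding. -/
def e3 : R4 →+* ℂ := ev (tr * Complex.I) itr_pow

theorem e3_re (x : R4) : (e3 x).re = x.a - x.c * tr ^ 2 := by
  simp [e3, ev_apply, pow_succ]
  ring

theorem e3_im (x : R4) : (e3 x).im = x.b * tr - x.d * tr ^ 3 := by
  simp [e3, ev_apply, pow_succ]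
  ring

theorem nrm_eq (x : R4) : (nrm x : ℝ) = e1 x * e2 x * ‖e3 x‖ ^ 2 := by
  rw [← Complex.normSq_eq_norm_sq, Complex.normSq_apply, e3_re, e3_im]
  simp only [e1, e2, ev_apply, nrm]
  push_cast
  have h := tr_pow
  grind

theorem eq_zero_of_small {x : R4} (h1 : |e1 x| < 1) (h2 : |e2 x| < 1) (h3 : ‖e3 x‖ < 1) :
    x = 0 := by
  apply eq_zero_of_nrm
  have h : |(nrm x : ℝ)| < 1 := by
    rw [nrm_eq, abs_mul, abs_mul, abs_pow, abs_norm]
    have a1 := abs_nonneg (e1 x)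
    have a2 := abs_nonneg (e2 x)
    have a3 := norm_nonneg (e3 x)
    have b1 : |e1 x| * |e2 x| < 1 := by nlinarith
    have b2 : ‖e3 x‖ ^ 2 < 1 := by nlinarith
    have b3 : 0 ≤ |e1 x| * |e2 x| := mul_nonneg a1 a2
    nlinarith
  have h' : |nrm x| < 1 := by exact_mod_cast h
  exact Int.abs_lt_one_iff.1 h'

theorem e1_pi7_pos : 0 < e1 pi7 := by
  have h1 := tr_lt
  have h2 := tr_pos
  simp only [e1, ev_apply, pi7]
  push_cast
  have : tr ^ 3 < 1.19 ^ 3 := pow_lt_pow_left₀ h1 h2.le (by norm_num)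
  nlinarith

theorem e2_pi7_pos : 0 < e2 pi7 := by
  have h2 := tr_pos
  simp only [e2, ev_apply, pi7]
  push_cast
  have : 0 < tr ^ 3 := by positivity
  nlinarith

theorem e1_x0_neg : e1 x0 < 0 := by
  have h1 := tr_gt
  simp only [e1, ev_apply, x0]
  push_cast
  have : 1 < tr ^ 2 := by nlinarith
  nlinarith

theorem e2_x0_pos : 0 < e2 x0 := by
  have h1 := tr_gt
  simp only [e2, ev_apply, x0]
  push_cast
  have : 1 < tr ^ 2 := by nlinarith
  nlinarith

theorem e1_w0_sq : e1 w0 ^ 2 < 1 := by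
  have hwx : w0 ^ 2 + x0 ^ 2 = 1 := by decide +kernel
  have := congrArg e1 hwx
  rw [map_add, map_pow, map_pow, map_one] at this
  nlinarith [e1_x0_neg]

theorem e2_w0_sq : e2 w0 ^ 2 < 1 := by
  have hwx : w0 ^ 2 + x0 ^ 2 = 1 := by decide +kernel
  have := congrArg e2 hwx
  rw [map_add, map_pow, map_pow, map_one] at this
  nlinarith [e2_x0_pos]

theorem sign_real {q : unitary QO} (hq : q ∈ Gam0) (hw : (q : QO).re = w0) :
    e1 (q : QO).imI * e2 (q : QO).imI < 0 := by
  obtain ⟨a, Y, Z, hI, hn, hX⟩ := sign_data hq hw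
  have h1 : (0 : ℝ) < nrm a := by exact_mod_cast hn
  rw [nrm_eq] at h1
  have h2 : 0 < e1 a * e2 a := pos_of_mul_pos_left h1 (by positivity)
  have hX1 := congrArg e1 hX
  have hX2 := congrArg e2 hX
  simp only [map_pow, map_sub, map_mul, map_add, map_one, map_ofNat] at hX1 hX2
  have p1 : 1 ≤ (2 * e1 a - 1) ^ 2 := by
    rw [hX1]
    have := e1_pi7_pos
    have : 0 ≤ 64 * e1 pi7 ^ 3 * (e1 Y ^ 2 + e1 Z ^ 2) := by positivity
    linarith
  have p2 : 1 ≤ (2 * e2 a - 1) ^ 2 := by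
    rw [hX2]
    have := e2_pi7_pos
    have : 0 ≤ 64 * e2 pi7 ^ 3 * (e2 Y ^ 2 + e2 Z ^ 2) := by positivity
    linarith
  have h3 : 0 < (2 * e1 a - 1) * (2 * e2 a - 1) := by
    rcases pos_and_pos_or_neg_and_neg_of_mul_pos h2 with ⟨a1, a2⟩ | ⟨a1, a2⟩
    · exact mul_pos (by nlinarith) (by nlinarith)
    · exact mul_pos_of_neg_of_neg (by linarith) (by linarith)
  have h4 : e1 x0 * e2 x0 < 0 := mul_neg_of_neg_of_pos e1_x0_neg e2_x0_pos
  have h5 := mul_neg_of_neg_of_pos h4 h3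
  rcases hI with hI | hI <;> rw [hI] <;>
    simp only [map_neg, map_sub, map_mul, map_one, map_ofNat] <;> nlinarith

/-- The matrix of a quaternion. -/
def emb {K : Type} [CommRing K] (τ : R4 →+* K) (s : K) (hs : s ^ 2 = τ pi7) :
    QO →+* Matrix (Fin 2) (Fin 2) K where
  toFun q := !![τ q.re + s * τ q.imJ, -τ q.imI + s * τ q.imK;
    τ q.imI + s * τ q.imK, τ q.re - s * τ q.imJ]
  map_one' := by
    ext i j
    fin_cases i <;> fin_cases j <;> simp
  map_zero' := by
    ext i j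
    fin_cases i <;> fin_cases j <;> simp
  map_add' p q := by
    ext i j
    fin_cases i <;> fin_cases j <;> simp <;> ring
  map_mul' p q := by
    ext i j
    fin_cases i <;> fin_cases j <;> simp [Matrix.mul_apply, Fin.sum_univ_two, ← hs] <;> ring

theorem emb_apply {K : Type} [CommRing K] (τ : R4 →+* K) (s : K) (hs : s ^ 2 = τ pi7) (q : QO) :
    emb τ s hs q = !![τ q.re + s * τ q.imJ, -τ q.imI + s * τ q.imK;
      τ q.imI + s * τ q.imK, τ q.re - s * τ q.imJ] := rfl

theorem det_emb {K : Type} [CommRing K] (τ : R4 →+* K) (s : K) (hs : s ^ 2 = τ pi7) (q : QO) :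
    (emb τ s hs q).det = τ (qn q) := by
  rw [emb_apply, Matrix.det_fin_two_of]
  simp only [qn, map_sub, map_add, map_mul, map_pow, ← hs]
  ring

theorem trace_emb {K : Type} [CommRing K] (τ : R4 →+* K) (s : K) (hs : s ^ 2 = τ pi7) (q : QO) :
    (emb τ s hs q).trace = 2 * τ q.re := by
  rw [emb_apply, Matrix.trace_fin_two_of]
  ring

/-- The embedding of the norm one group in `SL₂`. -/
def embSL {K : Type} [CommRing K] (τ : R4 →+* K) (s : K) (hs : s ^ 2 = τ pi7) :
    unitary QO →* SL(2, K) where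
  toFun q := ⟨emb τ s hs q, by rw [det_emb, mem_unitary_iff.1 q.2, map_one]⟩
  map_one' := Subtype.ext (by simp)
  map_mul' p q := Subtype.ext (by simp)

theorem embSL_injective {K : Type} [Field K] [CharZero K] (t : K) (ht : t ^ 4 = 2) (s : K)
    (hs : s ^ 2 = ev t ht pi7) {q : unitary QO} (h : embSL (ev t ht) s hs q = 1) : q = 1 := by
  have h1 : emb (ev t ht) s hs q = 1 := congrArg Subtype.val h
  have h2 : emb (ev t ht) s hs (q - 1) = 0 := by rw [map_sub, h1, map_one, sub_self]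
  have h3 := det_emb (ev t ht) s hs (q - 1)
  rw [h2, Matrix.det_zero] at h3
  exact Subtype.ext (sub_eq_zero.1 (eq_zero_of_qn (ev_eq_zero h3.symm)))

/-- Square roots. -/
def s1 : ℝ := √(e1 pi7)
/-- Square roots. -/
def s2 : ℝ := √(e2 pi7)
/-- Square roots. -/
def s3 : ℂ := (e3 pi7) ^ ((2 : ℕ)⁻¹ : ℂ)

theorem s1_sq : s1 ^ 2 = e1 pi7 := Real.sq_sqrt e1_pi7_pos.le
theorem s2_sq : s2 ^ 2 = e2 pi7 := Real.sq_sqrt e2_pi7_pos.le
theorem s3_sq : s3 ^ 2 = e3 pi7 := Complex.cpow_nat_inv_pow _ two_ne_zero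

/-- The diagonal embedding. -/
def Phi : unitary QO →* GG :=
  (embSL e1 s1 s1_sq).prod ((embSL e2 s2 s2_sq).prod (embSL e3 s3 s3_sq))

/-- The lattice. -/
def Gam : Subgroup GG := Gam0.map Phi

theorem Gam_injects : InjectsInFactors Gam := by
  rintro _ ⟨q, -, rfl⟩ h
  have : q = 1 := by
    rcases h with h | h | h
    · exact embSL_injective tr tr_pow s1 s1_sq h
    · exact embSL_injective (-tr) neg_tr_pow s2 s2_sq h
    · exact embSL_injective _ itr_pow s3 s3_sq h
  rw [this, map_one]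

theorem Phi_injective : Function.Injective Phi :=
  (injective_iff_map_eq_one Phi).2 fun _ h =>
    embSL_injective tr tr_pow s1 s1_sq (congrArg Prod.fst h)

theorem Gam_torsionFree : IsTorsionFreeSubgroup Gam := by
  rintro _ ⟨q, hq, rfl⟩ h
  rw [Gam0_torsionFree hq ((Phi_injective.isOfFinOrder_iff).1 h), map_one]

/-- A neighbourhood defined by traces. -/
def trNhd (w : R4) : Set GG :=
  {g | |g.1.1.trace - 2 * e1 w| < 1 ∧ |g.2.1.1.trace - 2 * e2 w| < 1 ∧
    ‖g.2.2.1.trace - 2 * e3 w‖ < 1}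

theorem isOpen_trNhd (w : R4) : IsOpen (trNhd w) := by
  have h1 : Continuous fun g : GG => |g.1.1.trace - 2 * e1 w| := by fun_prop
  have h2 : Continuous fun g : GG => |g.2.1.1.trace - 2 * e2 w| := by fun_prop
  have h3 : Continuous fun g : GG => ‖g.2.2.1.trace - 2 * e3 w‖ := by fun_prop
  exact (isOpen_lt h1 continuous_const).inter ((isOpen_lt h2 continuous_const).inter
    (isOpen_lt h3 continuous_const))

theorem Phi_mem_trNhd (q : unitary QO) : Phi q ∈ trNhd (q : QO).re := by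
  refine ⟨?_, ?_, ?_⟩
  · change |(emb e1 s1 s1_sq q).trace - _| < 1
    simp [trace_emb]
  · change |(emb e2 s2 s2_sq q).trace - _| < 1
    simp [trace_emb]
  · change ‖(emb e3 s3 s3_sq q).trace - _‖ < 1
    simp [trace_emb]

theorem re_eq_of_traces {q : unitary QO} {w : R4} {g : GG} (hg : g ∈ trNhd w)
    (h1 : g.1.1.trace = (Phi q).1.1.trace) (h2 : g.2.1.1.trace = (Phi q).2.1.1.trace)
    (h3 : g.2.2.1.trace = (Phi q).2.2.1.trace) : (q : QO).re = w := by
  obtain ⟨a1, a2, a3⟩ := hg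
  rw [h1] at a1
  rw [h2] at a2
  rw [h3] at a3
  change |(emb e1 s1 s1_sq q).trace - _| < 1 at a1
  change |(emb e2 s2 s2_sq q).trace - _| < 1 at a2
  change ‖(emb e3 s3 s3_sq q).trace - _‖ < 1 at a3
  rw [trace_emb] at a1 a2 a3
  have : 2 * ((q : QO).re - w) = 0 := by
    apply eq_zero_of_small
    · simpa [map_ofNat, mul_sub] using a1
    · simpa [map_ofNat, mul_sub] using a2
    · simpa [map_ofNat, mul_sub] using a3
  exact sub_eq_zero.1 ((mul_eq_zero.1 this).resolve_left (by decide))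

theorem Gam_discrete : DiscreteTopology Gam := by
  apply discreteTopology_of_isOpen_singleton_one
  have : ({1} : Set Gam) = Subtype.val ⁻¹' trNhd 1 := by
    ext ⟨_, q, hq, rfl⟩
    simp only [mem_singleton_iff, mem_preimage]
    constructor
    · intro h
      have h1 : Phi q = 1 := congrArg Subtype.val h
      rw [h1, ← map_one Phi]
      exact Phi_mem_trNhd 1
    · intro h
      have h1 := re_eq_of_traces h rfl rfl rfl
      have h2 := mem_unitary_iff.1 q.2
      have h3 : qn ((q : QO) - 1) = 0 := by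
        unfold qn at h2 ⊢
        simp only [QuaternionAlgebra.re_sub, QuaternionAlgebra.imI_sub, QuaternionAlgebra.imJ_sub,
          QuaternionAlgebra.imK_sub, h1] at h2 ⊢
        simp only [QuaternionAlgebra.re_one, QuaternionAlgebra.imI_one, QuaternionAlgebra.imJ_one,
          QuaternionAlgebra.imK_one]
        linear_combination h2
      have h4 : q = 1 := Subtype.ext (sub_eq_zero.1 (eq_zero_of_qn h3))
      apply Subtype.ext
      change Phi q = 1
      rw [h4, map_one]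
  rw [this]
  exact (isOpen_trNhd 1).preimage continuous_subtype_val

theorem conj_sign (τ : R4 →+* ℝ) (s : ℝ) (hs : s ^ 2 = τ pi7) (q : unitary QO)
    (hw : τ (q : QO).re ^ 2 < 1) (b : SL(2, ℝ)) :
    0 < τ (q : QO).imI * (b * embSL τ s hs q * b⁻¹).1 1 0 := by
  have hn := congrArg τ (mem_unitary_iff.1 q.2)
  simp only [qn, map_sub, map_add, map_mul, map_pow, ← hs, map_one] at hn
  have hb := b.det_coe
  rw [Matrix.det_fin_two] at hb
  set w := τ (q : QO).re
  set x := τ (q : QO).imI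
  set y := τ (q : QO).imJ
  set z := τ (q : QO).imK
  have he : (b * embSL τ s hs q * b⁻¹).1 1 0 =
      x * (b.1 1 1 ^ 2 + b.1 1 0 ^ 2) +
        s * (z * (b.1 1 1 ^ 2 - b.1 1 0 ^ 2) + 2 * y * b.1 1 0 * b.1 1 1) := by
    simp [Matrix.SpecialLinearGroup.coe_inv, Matrix.adjugate_fin_two, Matrix.mul_apply,
      Fin.sum_univ_two, embSL, emb_apply, w, x, y, z]
    ring
  rw [he]
  set S := b.1 1 1
  set r := b.1 1 0
  have hpos : 0 < S ^ 2 + r ^ 2 := by
    by_contra h
    have h1 : S = 0 := by nlinarith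
    have h2 : r = 0 := by nlinarith
    rw [h1, h2] at hb
    simp at hb
  set P := S ^ 2 + r ^ 2
  set T := s * (z * (S ^ 2 - r ^ 2) + 2 * y * r * S)
  have hT : T ^ 2 + (s * (y * (S ^ 2 - r ^ 2) - 2 * z * r * S)) ^ 2 =
      s ^ 2 * (y ^ 2 + z ^ 2) * P ^ 2 := by
    simp only [T, P]
    ring
  have hx : s ^ 2 * (y ^ 2 + z ^ 2) < x ^ 2 := by linarith
  have hlt : T ^ 2 < (x * P) ^ 2 := by
    have : s ^ 2 * (y ^ 2 + z ^ 2) * P ^ 2 < x ^ 2 * P ^ 2 :=
      mul_lt_mul_of_pos_right hx (by positivity)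
    nlinarith [sq_nonneg (s * (y * (S ^ 2 - r ^ 2) - 2 * z * r * S))]
  have : 0 < P * (x * (x * P + T)) := by nlinarith [sq_nonneg (x * P + T)]
  exact pos_of_mul_pos_right this hpos.le

end Pool.Agent.Lib.MP_96637b_nt
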