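import Mathlib

/-!
Hilbert-Schmidt norms of operators with continuous kernels.
-/

open MeasureTheory Set Filter Topology
open scoped ENNReal NNReal InnerProductSpace ComplexConjugate

noncomputable section

namespace Pool.Agent.Lib.MP_96637b_nt

variable {E : Type} [NormedAddCommGroup E] [InnerProductSpace ℂ E]

theorem countable_of_orthonormal [TopologicalSpace.SeparableSpace E] {ι : Type} {v : ι → E}
    (hv : Orthonormal ℂ v) : Countable ι := by
  refine Pairwise.countable_of_isOpen_disjoint (s := fun i => Metric.ball (v i) (1 / 2)) ?_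
    (fun i => Metric.isOpen_ball) (fun i => ⟨v i, by simp⟩)
  intro i j hij
  refine Metric.ball_disjoint_ball ?_
  rw [dist_eq_norm]
  have h := norm_sub_sq (𝕜 := ℂ) (v i) (v j)
  rw [hv.1 i, hv.1 j, hv.2 hij] at h
  simp only [map_zero] at h
  nlinarith [norm_nonneg (v i - v j)]

variable {X : Type} [TopologicalSpace X]

/-- The function `a ↦ ⟪k a, v⟫`. -/
def evalOp (k : C(X, E)) (v : E) : C(X, ℂ) := ⟨fun a => ⟪k a, v⟫_ℂ, by fun_prop⟩

theorem continuous_evalOp (k : C(X, E)) : Continuous (evalOp k) := by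
  apply ContinuousMap.continuous_of_continuous_uncurry
  change Continuous fun p : E × X => ⟪k p.2, p.1⟫_ℂ
  fun_prop

variable [CompactSpace X] [MeasurableSpace X] [BorelSpace X] (μ : Measure X) [IsFiniteMeasure μ]

theorem norm_toLp_sq (u : C(X, ℂ)) :
    ‖ContinuousMap.toLp 2 μ ℂ u‖ ^ 2 = ∫ a, ‖u a‖ ^ 2 ∂μ := by
  have h := ContinuousMap.inner_toLp μ u u
  rw [inner_self_eq_norm_sq_to_K] at h
  simp only [Complex.mul_conj, Complex.normSq_eq_norm_sq] at h
  rw [integral_complex_ofReal] at h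
  apply Complex.ofReal_injective
  rw [← h]
  simp

theorem hs_hasSum [CompleteSpace E] (k : C(X, E)) {ι : Type} [Countable ι]
    (b : HilbertBasis ι ℂ E) :
    HasSum (fun i => ‖ContinuousMap.toLp 2 μ ℂ (evalOp k (b i))‖ ^ 2) (∫ a, ‖k a‖ ^ 2 ∂μ) := by
  simp only [norm_toLp_sq]
  have hpt : ∀ a, HasSum (fun i => ‖evalOp k (b i) a‖ ^ 2) (‖k a‖ ^ 2) := by
    intro a
    have h := b.hasSum_inner_mul_inner (k a) (k a)
    rw [inner_self_eq_norm_sq_to_K] at h
    have h2 : ∀ i, ⟪k a, b i⟫_ℂ * ⟪b i, k a⟫_ℂ = ((‖evalOp k (b i) a‖ ^ 2 : ℝ) : ℂ) := by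
      intro i
      rw [← inner_conj_symm (b i) (k a), Complex.mul_conj, Complex.normSq_eq_norm_sq]
      rfl
    simp only [h2] at h
    rw [← Complex.hasSum_ofReal]
    simpa using h
  have hint : ∀ i, Integrable (fun a => ‖evalOp k (b i) a‖ ^ 2) μ := fun i =>
    Continuous.integrable_of_hasCompactSupport (by fun_prop) (HasCompactSupport.of_compactSpace _)
  have hk : Integrable (fun a => ‖k a‖ ^ 2) μ :=
    Continuous.integrable_of_hasCompactSupport (by fun_prop) (HasCompactSupport.of_compactSpace _)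
  have hsum : Summable fun i => ∫ a, ‖‖evalOp k (b i) a‖ ^ 2‖ ∂μ := by
    refine summable_of_sum_le (c := ∫ a, ‖k a‖ ^ 2 ∂μ)
      (fun i => integral_nonneg fun a => norm_nonneg _) fun s => ?_
    rw [← integral_finsetSum _ fun i _ => (hint i).norm]
    refine integral_mono (integrable_finsetSum _ fun i _ => (hint i).norm) hk fun a => ?_
    simp only [norm_pow, norm_norm]
    exact sum_le_hasSum s (fun i _ => by positivity) (hpt a)
  have h := hasSum_integral_of_summable_integral_norm hint hsum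
  simp only [fun a => (hpt a).tsum_eq] at h
  exact h

theorem hs_eq [CompleteSpace E] [TopologicalSpace.SeparableSpace E] (k k' : C(X, E))
    (U : E ≃ₗᵢ[ℂ] E)
    (h : ∀ v, ‖ContinuousMap.toLp 2 μ ℂ (evalOp k v)‖ =
      ‖ContinuousMap.toLp 2 μ ℂ (evalOp k' (U v))‖) :
    ∫ a, ‖k a‖ ^ 2 ∂μ = ∫ a, ‖k' a‖ ^ 2 ∂μ := by
  obtain ⟨w, b, -⟩ := exists_hilbertBasis ℂ E
  have : Countable w := countable_of_orthonormal b.orthonormal
  let k'' : C(X, E) := ⟨fun a => U.symm (k' a), by fun_prop⟩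
  have h1 := hs_hasSum μ k b
  have h2 := hs_hasSum μ k'' b
  have h3 : ∀ v, evalOp k'' v = evalOp k' (U v) := by
    intro v
    ext a
    change ⟪U.symm (k' a), v⟫_ℂ = ⟪k' a, U v⟫_ℂ
    rw [← U.inner_map_map]
    simp
  simp only [h3, ← h] at h2
  rw [h1.unique h2]
  simp [k'']

end Pool.Agent.Lib.MP_96637b_nt
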