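import Pool.Agent.Lib.MP_96637b_nt.Kernel
import Pool.Agent.Lib.MP_96637b_nt.HS

/-!
Convolution operators on `L²(G ⧸ Γ)` and the Hilbert-Schmidt obstruction.
-/

open MeasureTheory Set Filter Topology
open scoped Pointwise ENNReal NNReal InnerProductSpace ComplexConjugate

noncomputable section

namespace Pool.Agent.Lib.MP_96637b_nt

variable {G : Type} [Group G] [TopologicalSpace G] [IsTopologicalGroup G] [LocallyCompactSpace G]
  [T2Space G] [SecondCountableTopology G] {Γ : Subgroup G} [DiscreteTopology Γ]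
  [CompactSpace (G ⧸ Γ)] [MeasurableSpace (G ⧸ Γ)] [BorelSpace (G ⧸ Γ)]
  {μ : Measure (G ⧸ Γ)} [IsFiniteMeasure μ]

/-- Translation as a continuous map. -/
def transl (Γ : Subgroup G) (g : G) : C(G ⧸ Γ, G ⧸ Γ) := ⟨fun x => g • x, continuous_const_smul g⟩

omit [LocallyCompactSpace G] [T2Space G] [SecondCountableTopology G] in
theorem continuous_transl (Γ : Subgroup G) : Continuous (transl Γ) := by
  apply ContinuousMap.continuous_of_continuous_uncurry
  exact continuous_smul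

/-- Pull-back on `L²`. -/
def pullL (hinv : ∀ g : G, MeasurePreserving (fun x : G ⧸ Γ => g • x) μ μ) (g : G) :
    Lp ℂ 2 μ →ₗᵢ[ℂ] Lp ℂ 2 μ :=
  Lp.compMeasurePreservingₗᵢ ℂ (fun x => g • x) (hinv g)

variable (hinv : ∀ g : G, MeasurePreserving (fun x : G ⧸ Γ => g • x) μ μ)

theorem continuous_pullL (v : Lp ℂ 2 μ) : Continuous fun g => pullL hinv g v :=
  Continuous.compMeasurePreservingLp (f := fun _ : G => v) (g := transl Γ) continuous_const
    (continuous_transl Γ) hinv (by simp)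

omit [LocallyCompactSpace G] [T2Space G] [SecondCountableTopology G] [DiscreteTopology Γ] in
theorem pullL_toLp (g : G) (u : C(G ⧸ Γ, ℂ)) :
    pullL hinv g (ContinuousMap.toLp 2 μ ℂ u) =
      ContinuousMap.toLp 2 μ ℂ (u.comp (transl Γ g)) := by
  apply Lp.ext
  have h1 := Lp.coeFn_compMeasurePreserving (ContinuousMap.toLp 2 μ ℂ u) (hinv g)
  have h2 := (hinv g).quasiMeasurePreserving.ae_eq_comp
    (ContinuousMap.coeFn_toLp (p := 2) (𝕜 := ℂ) μ u)
  have h3 := ContinuousMap.coeFn_toLp (p := 2) (𝕜 := ℂ) μ (u.comp (transl Γ g))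
  exact h1.trans (h2.trans h3.symm)

variable (μ) in
/-- The family of kernel sections as elements of `L²`. -/
def kerL (f : G → ℝ) (hc : Continuous f) (hf : HasCompactSupport f) : C(G ⧸ Γ, Lp ℂ 2 μ) :=
  (⟨ContinuousMap.toLp 2 μ ℂ, (ContinuousMap.toLp 2 μ ℂ).continuous⟩ :
    C(C(G ⧸ Γ, ℂ), Lp ℂ 2 μ)).comp
    (ContinuousMap.curry ⟨fun p => (kerQ Γ f p : ℂ), by
      have := continuous_kerQ Γ hc hf
      fun_prop⟩)

omit [SecondCountableTopology G] in
theorem inner_kerL (f : G → ℝ) (hc : Continuous f) (hf : HasCompactSupport f) (a : G ⧸ Γ)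
    (u : C(G ⧸ Γ, ℂ)) :
    ⟪kerL μ f hc hf a, ContinuousMap.toLp 2 μ ℂ u⟫_ℂ = ∫ b, u b * (kerQ Γ f (a, b) : ℂ) ∂μ := by
  unfold kerL
  simp only [ContinuousMap.comp_apply, ContinuousMap.coe_mk]
  rw [ContinuousMap.inner_toLp]
  simp

omit [SecondCountableTopology G] in
theorem re_inner_kerL (f f' : G → ℝ) (hc : Continuous f) (hf : HasCompactSupport f)
    (hc' : Continuous f') (hf' : HasCompactSupport f') (a : G ⧸ Γ) :
    (⟪kerL μ f hc hf a, kerL μ f' hc' hf' a⟫_ℂ).re =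
      ∫ b, kerQ Γ f' (a, b) * kerQ Γ f (a, b) ∂μ := by
  have : kerL μ f' hc' hf' a = ContinuousMap.toLp 2 μ ℂ
      ⟨fun b => (kerQ Γ f' (a, b) : ℂ), by
        have := continuous_kerQ Γ hc' hf'
        fun_prop⟩ := rfl
  rw [this, inner_kerL]
  simp only [ContinuousMap.coe_mk]
  simp only [← Complex.ofReal_mul]
  rw [integral_complex_ofReal, Complex.ofReal_re]

omit [SecondCountableTopology G] in
theorem kerL_add (f f' : G → ℝ) (hc : Continuous f) (hf : HasCompactSupport f)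
    (hc' : Continuous f') (hf' : HasCompactSupport f') (a : G ⧸ Γ) :
    kerL μ (f + f') (hc.add hc') (hf.add hf') a = kerL μ f hc hf a + kerL μ f' hc' hf' a := by
  unfold kerL
  simp only [ContinuousMap.comp_apply, ContinuousMap.coe_mk]
  rw [← map_add]
  congr 1
  ext b
  simp [kerQ_add Γ hf hf']

omit [SecondCountableTopology G] in
theorem kerL_sub (f f' : G → ℝ) (hc : Continuous f) (hf : HasCompactSupport f)
    (hc' : Continuous f') (hf' : HasCompactSupport f') (a : G ⧸ Γ) :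
    kerL μ (f - f') (hc.sub hc') (hf.sub hf') a = kerL μ f hc hf a - kerL μ f' hc' hf' a := by
  unfold kerL
  simp only [ContinuousMap.comp_apply, ContinuousMap.coe_mk]
  rw [← map_sub]
  congr 1
  ext b
  simp [kerQ_sub Γ hf hf']

variable [MeasurableSpace G] [BorelSpace G] (ν : Measure G) [ν.IsHaarMeasure]

/-- The convolution operator. -/
def convOp (f : G → ℝ) (v : Lp ℂ 2 μ) : Lp ℂ 2 μ := ∫ g, (f g : ℂ) • pullL hinv g v ∂ν

omit [IsTopologicalGroup G] [LocallyCompactSpace G] [T2Space G] [SecondCountableTopology G] in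
theorem integrable_smul_of_cont {E : Type} [NormedAddCommGroup E] [NormedSpace ℂ E] {f : G → ℝ}
    (hc : Continuous f) (hf : HasCompactSupport f) {w : G → E} (hw : Continuous w) :
    Integrable (fun g => (f g : ℂ) • w g) ν := by
  apply Continuous.integrable_of_hasCompactSupport (by fun_prop)
  have h1 : HasCompactSupport fun g => (f g : ℂ) :=
    hf.comp_left (g := fun x : ℝ => (x : ℂ)) (by simp)
  exact h1.smul_right

theorem continuous_convOp {f : G → ℝ} (hc : Continuous f) (hf : HasCompactSupport f) :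
    Continuous (convOp hinv ν f) := by
  have : LipschitzWith (Real.toNNReal (∫ g, ‖f g‖ ∂ν)) (convOp hinv ν f) := by
    refine LipschitzWith.of_dist_le_mul fun v w => ?_
    rw [dist_eq_norm, dist_eq_norm, convOp, convOp,
      ← integral_sub (integrable_smul_of_cont ν hc hf (continuous_pullL hinv v))
        (integrable_smul_of_cont ν hc hf (continuous_pullL hinv w)),
      Real.coe_toNNReal _ (integral_nonneg fun g => norm_nonneg _), ← integral_mul_const]
    refine norm_integral_le_of_norm_le ?_ (Eventually.of_forall fun g => ?_)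
    · exact ((hc.integrable_of_hasCompactSupport hf).norm).mul_const _
    · rw [← smul_sub, ← map_sub, norm_smul, LinearIsometry.norm_map]
      simp
  exact this.continuous

theorem convOp_eq
    (hunf : ∀ f : G → ℝ, Continuous f → HasCompactSupport f → ∀ (u : C(G ⧸ Γ, ℂ)) (a : G ⧸ Γ),
      ∫ g, (f g : ℂ) * u (g • a) ∂ν = ∫ b, u b * (kerQ Γ f (a, b) : ℂ) ∂μ)
    {f : G → ℝ} (hc : Continuous f) (hf : HasCompactSupport f) (v : Lp ℂ 2 μ) :
    convOp hinv ν f v = ContinuousMap.toLp 2 μ ℂ (evalOp (kerL μ f hc hf) v) := by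
  have hd := ContinuousMap.toLp_denseRange ℂ μ ℂ (p := 2) (by simp)
  have hcont : Continuous fun v => ContinuousMap.toLp 2 μ ℂ (evalOp (kerL μ f hc hf) v) :=
    (ContinuousMap.toLp 2 μ ℂ).continuous.comp (continuous_evalOp _)
  refine congrFun (hd.equalizer (continuous_convOp hinv ν hc hf) hcont ?_) v
  ext1 u
  simp only [Function.comp_apply, convOp, pullL_toLp]
  have hw : Continuous fun g => u.comp (transl Γ g) :=
    (ContinuousMap.continuous_postcomp u).comp (continuous_transl Γ)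
  have hint := integrable_smul_of_cont ν hc hf hw
  simp only [← map_smul]
  rw [ContinuousLinearMap.integral_comp_comm _ hint]
  congr 1
  ext a
  rw [ContinuousMap.integral_apply hint]
  change _ = ⟪kerL μ f hc hf a, ContinuousMap.toLp 2 μ ℂ u⟫_ℂ
  rw [inner_kerL, ← hunf f hc hf]
  rfl

theorem twist_convOp (α : G ≃ₜ* G) (U : Lp ℂ 2 μ ≃ₗᵢ[ℂ] Lp ℂ 2 μ)
    (hU : ∀ g v, U (pullL hinv g v) = pullL hinv (α g) (U v))
    {f : G → ℝ} (hc : Continuous f) (hf : HasCompactSupport f) (v : Lp ℂ 2 μ) :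
    U (convOp hinv ν f v) =
      ((Measure.haarScalarFactor (ν.map α) ν : ℝ) : ℂ) • convOp hinv ν (f ∘ α.symm) (U v) := by
  have h1 : U (convOp hinv ν f v) = ∫ g, (f g : ℂ) • pullL hinv (α g) (U v) ∂ν := by
    have := (U.toLinearIsometry.toContinuousLinearMap.integral_comp_comm
      (integrable_smul_of_cont ν hc hf (continuous_pullL hinv v))).symm
    simp only [LinearIsometry.coe_toContinuousLinearMap, LinearIsometryEquiv.coe_toLinearIsometry,
      map_smul, hU] at this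
    exact this
  have h2 := integral_map_equiv (μ := ν) α.toHomeomorph.toMeasurableEquiv
    (fun g => ((f ∘ α.symm) g : ℂ) • pullL hinv g (U v))
  have h3 : ν.map α.toHomeomorph.toMeasurableEquiv = Measure.haarScalarFactor (ν.map α) ν • ν :=
    Measure.isMulLeftInvariant_eq_smul (ν.map α) ν
  rw [h3, integral_smul_nnreal_measure] at h2
  rw [h1, convOp, Complex.coe_smul]
  refine Eq.trans ?_ h2.symm
  congr 1
  ext1 g
  change _ = (f (α.symm (α g)) : ℂ) • pullL hinv (α g) (U v)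
  rw [α.symm_apply_apply]

theorem not_exists_twist [μ.IsOpenPosMeasure]
    (hunf : ∀ f : G → ℝ, Continuous f → HasCompactSupport f → ∀ (u : C(G ⧸ Γ, ℂ)) (a : G ⧸ Γ),
      ∫ g, (f g : ℂ) * u (g • a) ∂ν = ∫ b, u b * (kerQ Γ f (a, b) : ℂ) ∂μ)
    (α : G ≃ₜ* G) {γ₀ : G} (hγ₀ : γ₀ ∈ Γ) {W : Set G} (hW : W ∈ 𝓝 γ₀)
    (hsep : ∀ b : G, ∀ δ ∈ Γ, α.symm (b * δ * b⁻¹) ∉ W) :
    ¬ ∃ U : Lp ℂ 2 μ ≃ₗᵢ[ℂ] Lp ℂ 2 μ, ∀ g v, U (pullL hinv g v) = pullL hinv (α g) (U v) := by
  rintro ⟨U, hU⟩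
  have : Fact ((2 : ℝ≥0∞) ≠ ∞) := ⟨by simp⟩
  set c : ℝ := (Measure.haarScalarFactor (ν.map α) ν : ℝ) with hcdef
  have key : ∀ (f : G → ℝ) (hc : Continuous f) (hf : HasCompactSupport f),
      ∫ a, ‖kerL μ f hc hf a‖ ^ 2 ∂μ =
        ∫ a, c ^ 2 * ‖kerL μ (f ∘ α.symm) (hc.comp α.symm.continuous)
          (hf.comp_homeomorph α.symm.toHomeomorph) a‖ ^ 2 ∂μ := by
    intro f hc hf
    have hc' : Continuous (f ∘ α.symm) := hc.comp α.symm.continuous
    have hf' : HasCompactSupport (f ∘ α.symm) := hf.comp_homeomorph α.symm.toHomeomorph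
    have := hs_eq μ (kerL μ f hc hf) ((c : ℂ) • kerL μ (f ∘ α.symm) hc' hf') U (by
      intro v
      rw [← convOp_eq hinv ν hunf hc hf, ← U.norm_map, twist_convOp hinv ν α U hU hc hf,
        convOp_eq hinv ν hunf hc' hf', ← map_smul]
      congr 2
      ext a
      change (c : ℂ) * ⟪kerL μ (f ∘ α.symm) hc' hf' a, U v⟫_ℂ =
        ⟪(c : ℂ) • kerL μ (f ∘ α.symm) hc' hf' a, U v⟫_ℂ
      rw [inner_smul_left, Complex.conj_ofReal])
    rw [this]
    congr 1
    ext a
    rw [ContinuousMap.smul_apply, norm_smul, mul_pow, Complex.norm_real, Real.norm_eq_abs, sq_abs]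
  -- neighbourhoods
  have hcont : Continuous fun p : G × G => p.2 * p.1⁻¹ := by fun_prop
  have h1 : (fun p : G × G => p.2 * p.1⁻¹) ⁻¹' W ∈ 𝓝 ((1 : G), γ₀) := by
    apply hcont.continuousAt.preimage_mem_nhds
    simpa using hW
  rw [mem_nhds_prod_iff] at h1
  obtain ⟨A, hA, B, hB, hAB⟩ := h1
  obtain ⟨f₁, hf₁1, hf₁0, hf₁, hf₁r⟩ := exists_continuous_one_zero_of_isCompact
    (isCompact_singleton (x := (1 : G))) (isOpen_interior (s := A)).isClosed_compl
    (by simpa [mem_interior_iff_mem_nhds] using hA)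
  obtain ⟨f₂, hf₂1, hf₂0, hf₂, hf₂r⟩ := exists_continuous_one_zero_of_isCompact
    (isCompact_singleton (x := γ₀)) (isOpen_interior (s := B)).isClosed_compl
    (by simpa [mem_interior_iff_mem_nhds] using hB)
  have hA' : ∀ g, f₁ g ≠ 0 → g ∈ A := fun g hg => by
    by_contra h
    exact hg (hf₁0 fun h' => h (interior_subset h'))
  have hB' : ∀ g, f₂ g ≠ 0 → g ∈ B := fun g hg => by
    by_contra h
    exact hg (hf₂0 fun h' => h (interior_subset h'))
  have hzero : ∀ p : (G ⧸ Γ) × (G ⧸ Γ),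
      kerQ Γ (f₂ ∘ α.symm) p * kerQ Γ (f₁ ∘ α.symm) p = 0 := by
    intro p
    by_contra hne
    obtain ⟨h2, h1⟩ := mul_ne_zero_iff.1 hne
    obtain ⟨γ, hγ, h1⟩ := exists_of_kerQ_ne_zero Γ h1
    obtain ⟨δ, hδ, h2⟩ := exists_of_kerQ_ne_zero Γ h2
    have := hAB (mk_mem_prod (hA' _ h1) (hB' _ h2))
    apply hsep p.2.out (δ * γ⁻¹) (Γ.mul_mem hδ (Γ.inv_mem hγ))
    simp only [mem_preimage, ← map_inv, ← map_mul] at this
    convert this using 2
    group
  have hp := key (f₁ + f₂) (f₁.continuous.add f₂.continuous) (hf₁.add hf₂)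
  have hm := key (f₁ - f₂) (f₁.continuous.sub f₂.continuous) (hf₁.sub hf₂)
  have hc₁ : Continuous (f₁ ∘ α.symm) := f₁.continuous.comp α.symm.continuous
  have hc₂ : Continuous (f₂ ∘ α.symm) := f₂.continuous.comp α.symm.continuous
  have hs₁ : HasCompactSupport (f₁ ∘ α.symm) := hf₁.comp_homeomorph α.symm.toHomeomorph
  have hs₂ : HasCompactSupport (f₂ ∘ α.symm) := hf₂.comp_homeomorph α.symm.toHomeomorph
  have heq : ∀ a, ‖kerL μ (f₁ ∘ α.symm + f₂ ∘ α.symm) (hc₁.add hc₂) (hs₁.add hs₂) a‖ ^ 2 =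
      ‖kerL μ (f₁ ∘ α.symm - f₂ ∘ α.symm) (hc₁.sub hc₂) (hs₁.sub hs₂) a‖ ^ 2 := by
    intro a
    rw [kerL_add _ _ hc₁ hs₁ hc₂ hs₂, kerL_sub _ _ hc₁ hs₁ hc₂ hs₂, norm_add_sq (𝕜 := ℂ),
      norm_sub_sq (𝕜 := ℂ)]
    have := re_inner_kerL (μ := μ) _ _ hc₁ hs₁ hc₂ hs₂ a
    simp only [hzero, integral_zero] at this
    simp [this]
  have hpm : ∫ a, ‖kerL μ (f₁ + f₂) (f₁.continuous.add f₂.continuous) (hf₁.add hf₂) a‖ ^ 2 ∂μ =
      ∫ a, ‖kerL μ (f₁ - f₂) (f₁.continuous.sub f₂.continuous) (hf₁.sub hf₂) a‖ ^ 2 ∂μ := by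
    rw [hp, hm]
    congr 1
    ext a
    exact congrArg (fun t => c ^ 2 * t) (heq a)
  set k₁ := kerL μ f₁ f₁.continuous hf₁ with hk₁
  set k₂ := kerL μ f₂ f₂.continuous hf₂ with hk₂
  have hint : ∀ h : G ⧸ Γ → ℝ, Continuous h → Integrable h μ := fun h hh =>
    hh.integrable_of_hasCompactSupport (HasCompactSupport.of_compactSpace _)
  have hre : Continuous fun a => (⟪k₁ a, k₂ a⟫_ℂ).re := by fun_prop
  have hz : ∫ a, (⟪k₁ a, k₂ a⟫_ℂ).re ∂μ = 0 := by
    rw [← sub_eq_zero, ← integral_sub (hint _ (by fun_prop)) (hint _ (by fun_prop))] at hpm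
    have : ∀ a, ‖kerL μ (f₁ + f₂) (f₁.continuous.add f₂.continuous) (hf₁.add hf₂) a‖ ^ 2 -
        ‖kerL μ (f₁ - f₂) (f₁.continuous.sub f₂.continuous) (hf₁.sub hf₂) a‖ ^ 2 =
        4 * (⟪k₁ a, k₂ a⟫_ℂ).re := by
      intro a
      rw [kerL_add _ _ f₁.continuous hf₁ f₂.continuous hf₂,
        kerL_sub _ _ f₁.continuous hf₁ f₂.continuous hf₂, norm_add_sq (𝕜 := ℂ),
        norm_sub_sq (𝕜 := ℂ)]
      simp only [RCLike.re_to_complex]
      ring
    simp only [this] at hpm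
    rw [integral_const_mul] at hpm
    linarith
  have hnn : ∀ p, 0 ≤ kerQ Γ f₂ p * kerQ Γ f₁ p := fun p =>
    mul_nonneg (kerQ_nonneg Γ (fun g => (hf₂r g).1) p) (kerQ_nonneg Γ (fun g => (hf₁r g).1) p)
  have hpos : 0 < ∫ a, (⟪k₁ a, k₂ a⟫_ℂ).re ∂μ := by
    refine hre.integral_pos_of_hasCompactSupport_nonneg_nonzero
      (HasCompactSupport.of_compactSpace _) (fun a => ?_) (x := ((1 : G) : G ⧸ Γ)) ?_
    · simp only [hk₁, hk₂, re_inner_kerL]
      exact integral_nonneg fun b => hnn _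
    · simp only [hk₁, hk₂, re_inner_kerL]
      have hK1 := continuous_kerQ Γ f₁.continuous hf₁
      have hK2 := continuous_kerQ Γ f₂.continuous hf₂
      refine (Continuous.integral_pos_of_hasCompactSupport_nonneg_nonzero (by fun_prop)
        (HasCompactSupport.of_compactSpace _) (fun b => hnn _) (x := ((1 : G) : G ⧸ Γ)) ?_).ne'
      refine (mul_pos ?_ ?_).ne'
      · exact kerQ_one_pos Γ hf₂ (fun g => (hf₂r g).1) hγ₀ (by simp [hf₂1 (mem_singleton _)])
      · exact kerQ_one_pos Γ hf₁ (fun g => (hf₁r g).1) Γ.one_mem (by simp [hf₁1 (mem_singleton _)])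
  exact hpos.ne' hz

end Pool.Agent.Lib.MP_96637b_nt
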