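import Pool.Agent.Lib.MP_96637b_nt.Kernel

/-!
Uniqueness of the invariant probability measure on `G ⧸ Γ`.
-/

open MeasureTheory Set Filter Topology
open scoped Pointwise ENNReal NNReal

noncomputable section

namespace Pool.Agent.Lib.MP_96637b_nt

variable {G : Type} [Group G] [TopologicalSpace G] [IsTopologicalGroup G] [LocallyCompactSpace G]
  [T2Space G] [SecondCountableTopology G] {Γ : Subgroup G} [DiscreteTopology Γ]
  [CompactSpace (G ⧸ Γ)] [MeasurableSpace (G ⧸ Γ)] [BorelSpace (G ⧸ Γ)]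
  [MeasurableSpace G] [BorelSpace G]

theorem invariant_unique (ν : Measure G) [ν.IsHaarMeasure] (μ μ' : Measure (G ⧸ Γ))
    [IsProbabilityMeasure μ] [IsProbabilityMeasure μ'] [μ.IsOpenPosMeasure]
    (hinv : ∀ g : G, MeasurePreserving (fun x : G ⧸ Γ => g • x) μ μ)
    (hinv' : ∀ g : G, MeasurePreserving (fun x : G ⧸ Γ => g • x) μ' μ')
    (hunf : ∀ f : G → ℝ, Continuous f → HasCompactSupport f → ∀ (u : C(G ⧸ Γ, ℂ)) (a : G ⧸ Γ),
      ∫ g, (f g : ℂ) * u (g • a) ∂ν = ∫ b, u b * (kerQ Γ f (a, b) : ℂ) ∂μ) : μ' = μ := by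
  obtain ⟨f, hf, hf0, hf1⟩ := exists_continuous_nonneg_pos (1 : G)
  have hI : 0 < ∫ g, f g ∂ν :=
    f.continuous.integral_pos_of_hasCompactSupport_nonneg_nonzero hf hf0 hf1
  set I := ∫ g, f g ∂ν with hIdef
  have hK := continuous_kerQ Γ f.continuous hf
  have hcomp : ∀ (m : Measure (G ⧸ Γ)),
      (∀ g : G, MeasurePreserving (fun x : G ⧸ Γ => g • x) m m) →
      ∀ (g : G) (u : G ⧸ Γ → ℝ), ∫ x, u (g • x) ∂m = ∫ x, u x ∂m := fun m hm g u =>
    (hm g).integral_comp (Homeomorph.smul g).measurableEmbedding u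
  have hunf' : ∀ (u : G ⧸ Γ → ℝ), Continuous u → ∀ a : G ⧸ Γ,
      ∫ g, f g * u (g • a) ∂ν = ∫ b, u b * kerQ Γ f (a, b) ∂μ := by
    intro u hu a
    have := hunf f f.continuous hf ⟨fun x => (u x : ℂ), by fun_prop⟩ a
    simp only [ContinuousMap.coe_mk, ← Complex.ofReal_mul, integral_complex_ofReal] at this
    exact_mod_cast this
  let h : G ⧸ Γ → ℝ := fun b => ∫ x, kerQ Γ f (x, b) ∂μ'
  have hh : Continuous h := by
    have := continuous_parametric_integral_of_continuous (μ := μ')
      (f := fun (b : G ⧸ Γ) (x : G ⧸ Γ) => kerQ Γ f (x, b))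
      (by unfold Function.uncurry; fun_prop) isCompact_univ
    simpa using this
  have key : ∀ u : G ⧸ Γ → ℝ, Continuous u → I * ∫ x, u x ∂μ' = ∫ b, u b * h b ∂μ := by
    intro u hu
    have h1 : ∫ g, (∫ x, f g * u (g • x) ∂μ') ∂ν = I * ∫ x, u x ∂μ' := by
      simp only [integral_const_mul, hcomp μ' hinv', integral_mul_const, hIdef]
    have h2 : ∫ g, (∫ x, f g * u (g • x) ∂μ') ∂ν = ∫ x, (∫ g, f g * u (g • x) ∂ν) ∂μ' := by
      apply integral_integral_swap_of_hasCompactSupport
      · unfold Function.uncurry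
        fun_prop
      · refine HasCompactSupport.intro (hf.isCompact.prod isCompact_univ) ?_
        rintro ⟨g, x⟩ hgx
        have : g ∉ tsupport f := fun hg => hgx ⟨hg, mem_univ _⟩
        simp [image_eq_zero_of_notMem_tsupport this]
    have h3 : ∫ x, (∫ b, u b * kerQ Γ f (x, b) ∂μ) ∂μ' =
        ∫ b, (∫ x, u b * kerQ Γ f (x, b) ∂μ') ∂μ := by
      apply integral_integral_swap_of_hasCompactSupport
      · unfold Function.uncurry
        fun_prop
      · exact HasCompactSupport.of_compactSpace _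
    rw [← h1, h2]
    simp only [hunf' u hu]
    rw [h3]
    simp only [integral_const_mul, h]
  have hint : ∀ u : G ⧸ Γ → ℝ, Continuous u → Integrable u μ := fun u hu =>
    hu.integrable_of_hasCompactSupport (HasCompactSupport.of_compactSpace _)
  have hconst : ∀ (g : G) (x : G ⧸ Γ), h (g • x) = h x := by
    intro g x
    let u : G ⧸ Γ → ℝ := fun y => h (g • y) - h y
    have hu : Continuous u := by fun_prop
    have e1 := key u hu
    have e2 := key (fun y => u (g⁻¹ • y)) (by fun_prop)
    rw [hcomp μ' hinv', e1, ← hcomp μ hinv g (fun b => u (g⁻¹ • b) * h b)] at e2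
    simp only [inv_smul_smul] at e2
    rw [eq_comm, ← sub_eq_zero, ← integral_sub (hint _ (by fun_prop)) (hint _ (by fun_prop))] at e2
    by_contra hne
    have hpos : 0 < ∫ y, u y * h (g • y) - u y * h y ∂μ := by
      refine Continuous.integral_pos_of_hasCompactSupport_nonneg_nonzero (by fun_prop)
        (HasCompactSupport.of_compactSpace _) (fun y => ?_) (x := x) ?_
      · change 0 ≤ u y * h (g • y) - u y * h y
        rw [← mul_sub]
        exact mul_self_nonneg _
      · rw [← mul_sub]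
        exact mul_self_ne_zero.2 (sub_ne_zero.2 hne)
    exact hpos.ne' e2
  have hc : ∀ x : G ⧸ Γ, h x = h ((1 : G) : G ⧸ Γ) := by
    intro x
    obtain ⟨g, rfl⟩ := QuotientGroup.mk_surjective x
    rw [← hconst g ((1 : G) : G ⧸ Γ)]
    congr 1
    change _ = ((g * 1 : G) : G ⧸ Γ)
    rw [mul_one]
  have hIc : I = h ((1 : G) : G ⧸ Γ) := by
    have := key (fun _ => 1) continuous_const
    simp only [hc] at this
    simpa using this
  apply ext_of_forall_integral_eq_of_IsFiniteMeasure
  intro u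
  have := key u u.continuous
  simp only [hc, ← hIc, integral_mul_const] at this
  rw [mul_comm] at this
  exact mul_right_cancel₀ hI.ne' this

end Pool.Agent.Lib.MP_96637b_nt
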