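import Pool.Agent.Lib.MP_96637b_nt.Left
import Pool.Agent.Lib.MP_96637b_nt.Operator
import Pool.Agent.Lib.MP_96637b_nt.Unique

/-!
Twisting a lattice by an involutive automorphism.
-/

open MeasureTheory Set Filter Topology
open scoped Pointwise ENNReal NNReal

noncomputable section

namespace Pool.Agent.Lib.MP_96637b_nt

section Mult

variable {G : Type} [Group G]

theorem mult_congr {π π' σ σ' : URep G} (h : π.Equivalent π') (h' : σ.Equivalent σ') :
    mult π σ = mult π' σ' := by
  obtain ⟨U, hU⟩ := (URep.equivalent_iff _ _).1 h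
  obtain ⟨V, hV⟩ := (URep.equivalent_iff _ _).1 h'
  have hU' : ∀ g v, U.symm (π'.act g v) = π.act g (U.symm v) := by
    intro g v
    apply U.injective
    rw [hU]
    simp
  let e : BOp π.H σ.H ≃ₗ[ℂ] BOp π'.H σ'.H :=
    (U.toContinuousLinearEquiv.arrowCongr V.toContinuousLinearEquiv).toLinearEquiv
  have he : ∀ T v, (e T).app v = V (T.app (U.symm v)) := fun T v => rfl
  have hmap : (intertwiners π σ).map (e : BOp π.H σ.H →ₗ[ℂ] BOp π'.H σ'.H) =
      intertwiners π' σ' := by
    ext T
    constructor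
    · rintro ⟨S, hS, rfl⟩ g v
      change (e S).app _ = σ'.act g ((e S).app v)
      rw [he, he, hU', hS g, hV]
    · intro hT
      refine ⟨e.symm T, fun g v => ?_, by simp⟩
      apply V.injective
      have h1 : ∀ w, V ((e.symm T).app w) = T.app (U w) := by
        intro w
        have := he (e.symm T) (U w)
        simp only [LinearEquiv.apply_symm_apply, LinearIsometryEquiv.symm_apply_apply] at this
        exact this.symm
      rw [hV, h1, h1, hU, hT g]
  exact (e.ofSubmodules _ _ hmap).rank_eq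

theorem mult_twist (π σ : URep G) (α : G →* G) (hα : ∀ g, α (α g) = g) :
    mult π (σ.twist α) = mult (π.twist α) σ := by
  have : intertwiners π (σ.twist α) = intertwiners (π.twist α) σ := by
    ext T
    constructor
    · intro hT g v
      have := hT (α g) v
      change T.app (π.act (α g) v) = σ.act (α (α g)) (T.app v) at this
      rw [hα] at this
      exact this
    · intro hT g v
      have := hT (α g) v
      change T.app (π.act (α (α g)) v) = σ.act (α g) (T.app v) at this
      rw [hα] at this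
      exact this
  unfold mult
  exact congrArg (fun S : Submodule ℂ (BOp π.H σ.H) => Module.rank ℂ S) this

theorem URep.Equivalent.twist {π σ : URep G} (h : π.Equivalent σ) (α : G →* G) :
    (π.twist α).Equivalent (σ.twist α) := by
  obtain ⟨U, hU⟩ := h
  exact ⟨U, fun g v => hU (α g) v⟩

theorem twist_twist (π : URep G) (α β γ : G →* G) (h : ∀ g, α (β g) = γ g) :
    ((π.twist α).twist β).Equivalent (π.twist γ) :=
  ⟨LinearIsometryEquiv.refl ℂ _, fun g v => by
    change π.act (α (β g)) v = π.act (γ g) v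
    rw [h]⟩

variable [TopologicalSpace G]

/-- Twisting an irreducible representation. -/
def IrrRep.twist (π : IrrRep G) (α : G →* G) (hc : Continuous α) (hα : ∀ g, α (α g) = g) :
    IrrRep G :=
  ⟨π.1.twist α, fun v => (π.2.1 v).comp hc, π.2.2.1, fun W hW => π.2.2.2 W ⟨hW.1, fun g v hv => by
    have := hW.2 (α g) v hv
    change π.1.act (α (α g)) v ∈ W at this
    rwa [hα] at this⟩⟩

/-- Twisting on the unitary dual. -/
def dualTwist (α : G →* G) (hc : Continuous α) (hα : ∀ g, α (α g) = g) (η : UnitaryDual G) :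
    UnitaryDual G :=
  Quotient.mk (irrSetoid G) (IrrRep.twist (Quotient.out η) α hc hα)

theorem dualTwist_rep (α : G →* G) (hc : Continuous α) (hα : ∀ g, α (α g) = g)
    (η : UnitaryDual G) : (dualTwist α hc hα η).rep.Equivalent (η.rep.twist α) :=
  Quotient.mk_out (s := irrSetoid G) (IrrRep.twist (Quotient.out η) α hc hα)

theorem dual_ext {η η' : UnitaryDual G} (h : η.rep.Equivalent η'.rep) : η = η' := by
  rw [← Quotient.out_eq (s := irrSetoid G) η, ← Quotient.out_eq (s := irrSetoid G) η']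
  exact Quotient.sound h

theorem dualTwist_invol (α : G →* G) (hc : Continuous α) (hα : ∀ g, α (α g) = g) :
    Function.Involutive (dualTwist α hc hα) := by
  intro η
  apply dual_ext
  refine (dualTwist_rep α hc hα _).trans (((dualTwist_rep α hc hα η).twist α).trans ?_)
  exact twist_twist η.rep α α (MonoidHom.id G) hα

theorem sum_mult_twist (α : G →* G) (hc : Continuous α) (hα : ∀ g, α (α g) = g)
    (S : Set (UnitaryDual G)) (hS : ∀ η ∈ S, dualTwist α hc hα η ∈ S) (σ σ' : URep G)
    (h : σ'.Equivalent (σ.twist α)) :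
    Cardinal.sum (fun η : S => mult η.1.rep σ) = Cardinal.sum (fun η : S => mult η.1.rep σ') := by
  let e : S ≃ S :=
    { toFun := fun η => ⟨dualTwist α hc hα η.1, hS _ η.2⟩
      invFun := fun η => ⟨dualTwist α hc hα η.1, hS _ η.2⟩
      left_inv := fun η => Subtype.ext (dualTwist_invol α hc hα η.1)
      right_inv := fun η => Subtype.ext (dualTwist_invol α hc hα η.1) }
  symm
  unfold Cardinal.sum
  refine Cardinal.mk_sigma_congr e fun η => ?_
  simp only [Cardinal.mk_out]
  rw [mult_congr (URep.Equivalent.refl _) h, mult_twist _ _ α hα]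
  exact mult_congr (dualTwist_rep α hc hα η.1).symm (URep.Equivalent.refl _)

end Mult

section Twist

variable {G : Type} [Group G] [TopologicalSpace G] (Γ : Subgroup G) (α : G ≃ₜ* G)

/-- The homeomorphism `G ⧸ Γ ≃ G ⧸ α(Γ)`. -/
def quotHomeo : (G ⧸ Γ) ≃ₜ (G ⧸ Γ.map (α : G →* G)) where
  toFun := Quotient.map' α (by
    intro a b hab
    rw [QuotientGroup.leftRel_apply] at hab ⊢
    exact ⟨a⁻¹ * b, hab, by simp⟩)
  invFun := Quotient.map' α.symm (by
    intro a b hab
    rw [QuotientGroup.leftRel_apply] at hab ⊢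
    obtain ⟨c, hc, hc'⟩ := hab
    rw [← map_inv, ← map_mul, ← hc']
    simpa using hc)
  left_inv x := by
    obtain ⟨g, rfl⟩ := QuotientGroup.mk_surjective x
    change ((α.symm (α g) : G) : G ⧸ Γ) = _
    rw [α.symm_apply_apply]
  right_inv x := by
    obtain ⟨g, rfl⟩ := QuotientGroup.mk_surjective x
    change ((α (α.symm g) : G) : G ⧸ Γ.map (α : G →* G)) = _
    rw [α.apply_symm_apply]
  continuous_toFun := α.continuous.quotient_map' _
  continuous_invFun := α.symm.continuous.quotient_map' _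

theorem quotHomeo_smul (g : G) (x : G ⧸ Γ) :
    quotHomeo Γ α (g • x) = α g • quotHomeo Γ α x := by
  obtain ⟨a, rfl⟩ := QuotientGroup.mk_surjective x
  change ((α (g * a) : G) : G ⧸ Γ.map (α : G →* G)) = ((α g * α a : G) : G ⧸ Γ.map (α : G →* G))
  rw [map_mul]

theorem quotHomeo_symm_smul (g : G) (x : G ⧸ Γ.map (α : G →* G)) :
    (quotHomeo Γ α).symm (α g • x) = g • (quotHomeo Γ α).symm x := by
  apply (quotHomeo Γ α).injective
  rw [quotHomeo_smul]
  simp

theorem IsUniformL.map (h : IsUniformL Γ) :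
    IsUniformL (Γ.map (α : G →* G)) := by
  obtain ⟨h1, h2⟩ := h
  refine ⟨?_, (quotHomeo Γ α).compactSpace⟩
  exact (α.toHomeomorph.image (Γ : Set G)).discreteTopology

variable [IsTopologicalGroup G]

/-- Push-forward of an invariant measure. -/
def LInv.push (m : LInv Γ) : LInv (Γ.map (α : G →* G)) :=
  letI : MeasurableSpace (G ⧸ Γ) := borel _
  haveI : BorelSpace (G ⧸ Γ) := ⟨rfl⟩
  letI : MeasurableSpace (G ⧸ Γ.map (α : G →* G)) := borel _
  haveI : BorelSpace (G ⧸ Γ.map (α : G →* G)) := ⟨rfl⟩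
  { μ := m.μ.map (quotHomeo Γ α)
    prob := by
      rw [Measure.map_apply (quotHomeo Γ α).continuous.measurable MeasurableSet.univ]
      simpa using m.prob
    inv := fun g => by
      have hg : Measurable fun x : G ⧸ Γ.map (α : G →* G) => g • x :=
        (continuous_const_smul g).measurable
      refine ⟨hg, ?_⟩
      rw [Measure.map_map hg (quotHomeo Γ α).continuous.measurable]
      have : (fun x : G ⧸ Γ.map (α : G →* G) => g • x) ∘ quotHomeo Γ α =
          quotHomeo Γ α ∘ fun x => α.symm g • x := by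
        ext x
        simp [quotHomeo_smul]
      rw [this, ← Measure.map_map (quotHomeo Γ α).continuous.measurable (m.inv _).measurable,
        (m.inv _).map_eq] }

/-- Pull-back of an invariant measure. -/
def LInv.pullback (m : LInv (Γ.map (α : G →* G))) : LInv Γ :=
  letI : MeasurableSpace (G ⧸ Γ) := borel _
  haveI : BorelSpace (G ⧸ Γ) := ⟨rfl⟩
  letI : MeasurableSpace (G ⧸ Γ.map (α : G →* G)) := borel _
  haveI : BorelSpace (G ⧸ Γ.map (α : G →* G)) := ⟨rfl⟩
  { μ := m.μ.map (quotHomeo Γ α).symm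
    prob := by
      rw [Measure.map_apply (quotHomeo Γ α).symm.continuous.measurable MeasurableSet.univ]
      simpa using m.prob
    inv := fun g => by
      have hg : Measurable fun x : G ⧸ Γ => g • x := (continuous_const_smul g).measurable
      refine ⟨hg, ?_⟩
      rw [Measure.map_map hg (quotHomeo Γ α).symm.continuous.measurable]
      have : (fun x : G ⧸ Γ => g • x) ∘ (quotHomeo Γ α).symm =
          (quotHomeo Γ α).symm ∘ fun x => α g • x := by
        ext x
        simp [quotHomeo_symm_smul]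
      rw [this, ← Measure.map_map (quotHomeo Γ α).symm.continuous.measurable (m.inv _).measurable,
        (m.inv _).map_eq] }

omit [IsTopologicalGroup G] in
theorem compMP_congr {X Y : Type} [MeasurableSpace X] [MeasurableSpace Y] {μ : Measure X}
    {ν : Measure Y} {f f' : X → Y} (hf : MeasurePreserving f μ ν) (hf' : MeasurePreserving f' μ ν)
    (h : f = f') (v : Lp ℂ 2 ν) :
    Lp.compMeasurePreserving f hf v = Lp.compMeasurePreserving f' hf' v := by
  subst h
  rfl

theorem regular_equiv_twist (hα : ∀ g, α (α g) = g) (m₁ : LInv Γ)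
    (m₂ : LInv (Γ.map (α : G →* G))) (h : (m₂.pullback Γ α).μ = m₁.μ) :
    m₂.regular.Equivalent (m₁.regular.twist (α : G →* G)) := by
  let : MeasurableSpace (G ⧸ Γ) := borel _
  have : BorelSpace (G ⧸ Γ) := ⟨rfl⟩
  let : MeasurableSpace (G ⧸ Γ.map (α : G →* G)) := borel _
  have : BorelSpace (G ⧸ Γ.map (α : G →* G)) := ⟨rfl⟩
  have h1 : MeasurePreserving (quotHomeo Γ α).symm m₂.μ m₁.μ :=
    ⟨(quotHomeo Γ α).symm.continuous.measurable, h⟩
  have h2 : MeasurePreserving (quotHomeo Γ α) m₁.μ m₂.μ :=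
    h1.symm (quotHomeo Γ α).symm.toMeasurableEquiv
  let U : Lp ℂ 2 m₂.μ →ₗᵢ[ℂ] Lp ℂ 2 m₁.μ := Lp.compMeasurePreservingₗᵢ ℂ (quotHomeo Γ α) h2
  have hU : Function.Surjective U := by
    intro v
    refine ⟨Lp.compMeasurePreserving _ h1 v, ?_⟩
    change Lp.compMeasurePreserving _ h2 (Lp.compMeasurePreserving _ h1 v) = v
    rw [← Lp.compMeasurePreserving_comp_apply,
      compMP_congr _ (MeasurePreserving.id _) (by ext x; simp)]
    exact Lp.compMeasurePreserving_id_apply v
  refine ⟨LinearIsometryEquiv.ofSurjective U hU, fun g v => ?_⟩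
  change Lp.compMeasurePreserving _ h2 (Lp.compMeasurePreserving _ (m₂.inv g⁻¹) v) =
    Lp.compMeasurePreserving _ (m₁.inv (α g)⁻¹) (Lp.compMeasurePreserving _ h2 v)
  rw [← Lp.compMeasurePreserving_comp_apply, ← Lp.compMeasurePreserving_comp_apply]
  apply compMP_congr
  ext x
  simp only [Function.comp_apply, quotHomeo_smul, map_inv, hα]

variable [LocallyCompactSpace G] [T2Space G] [SecondCountableTopology G]

theorem main_abstract (hchar : ∀ (f : G →* ℝ≥0) (g : G), f g = 1) (hΓ : IsUniformL Γ)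
    (hα : ∀ g, α (α g) = g) {γ₀ : G} (hγ₀ : γ₀ ∈ Γ) {W : Set G} (hW : W ∈ 𝓝 γ₀)
    (hsep : ∀ b : G, ∀ δ ∈ Γ, α (b * δ * b⁻¹) ∉ W) :
    Nonempty (LInv Γ) ∧ Nonempty (LInv (Γ.map (α : G →* G))) ∧
      ∀ (m₁ : LInv Γ) (m₂ : LInv (Γ.map (α : G →* G))),
        m₂.regular.Equivalent (m₁.regular.twist (α : G →* G)) ∧
        ¬ m₁.regular.Equivalent m₂.regular := by
  obtain ⟨hd, hcpt⟩ := hΓ
  let : MeasurableSpace (G ⧸ Γ) := borel _
  have : BorelSpace (G ⧸ Γ) := ⟨rfl⟩
  borelize G
  obtain ⟨ν, F, hν, hνr, hF, hF1⟩ := exists_haar_fund Γ hchar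
  let μ : Measure (G ⧸ Γ) := Measure.map (QuotientGroup.mk : G → G ⧸ Γ) (ν.restrict F)
  have hμ1 : μ univ = 1 := by
    rw [Measure.map_apply QuotientGroup.continuous_mk.measurable MeasurableSet.univ]
    simpa using hF1
  have : IsProbabilityMeasure μ := ⟨hμ1⟩
  have : μ.IsOpenPosMeasure := fund_openPos Γ ν hF
  have hinv := fund_invariant Γ ν hF
  have hunf : ∀ f : G → ℝ, Continuous f → HasCompactSupport f →
      ∀ (u : C(G ⧸ Γ, ℂ)) (a : G ⧸ Γ),
      ∫ g, (f g : ℂ) * u (g • a) ∂ν = ∫ b, u b * (kerQ Γ f (a, b) : ℂ) ∂μ :=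
    fun f hc hf u a => unfold_ker Γ ν hF hc hf u a
  let m : LInv Γ := ⟨μ, hμ1, hinv⟩
  have huniq : ∀ m' : LInv Γ, m'.μ = μ := fun m' =>
    have : IsProbabilityMeasure m'.μ := ⟨m'.prob⟩
    invariant_unique ν μ m'.μ hinv m'.inv hunf
  refine ⟨⟨m⟩, ⟨m.push Γ α⟩, fun m₁ m₂ => ?_⟩
  have h1 := regular_equiv_twist Γ α hα m₁ m₂ (by rw [huniq, huniq])
  refine ⟨h1, fun h2 => ?_⟩
  have hm : m₁ = m := by
    obtain ⟨μ₁, p₁, i₁⟩ := m₁
    have := huniq ⟨μ₁, p₁, i₁⟩
    simp only at this
    subst this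
    rfl
  subst hm
  obtain ⟨U, hU⟩ := (URep.equivalent_iff _ _).1 (h2.trans h1)
  have hsymm : ∀ g, α.symm g = α g := fun g => by
    rw [ContinuousMulEquiv.symm_apply_eq, hα]
  refine not_exists_twist hinv ν hunf α hγ₀ hW (fun b δ hδ => by rw [hsymm]; exact hsep b δ hδ)
    ⟨U, fun g v => ?_⟩
  have := hU g⁻¹ v
  change U (pullL hinv g⁻¹⁻¹ v) = pullL hinv (α g⁻¹)⁻¹ (U v) at this
  rwa [inv_inv, map_inv, inv_inv] at this

end Twist

section Bridge

variable {G : Type} [Group G] [TopologicalSpace G] [IsTopologicalGroup G] (Γ : Subgroup G)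

/-- Inversion as a homeomorphism from right cosets to left cosets. -/
def invHomeo : RightQuot Γ ≃ₜ (G ⧸ Γ) where
  toFun := Quotient.map' (fun g => g⁻¹) (by
    intro a b hab
    rw [QuotientGroup.rightRel_apply] at hab
    rw [QuotientGroup.leftRel_apply]
    simpa using Γ.inv_mem hab)
  invFun := Quotient.map' (fun g => g⁻¹) (by
    intro a b hab
    rw [QuotientGroup.leftRel_apply] at hab
    rw [QuotientGroup.rightRel_apply]
    simpa using Γ.inv_mem hab)
  left_inv x := by
    induction x using Quotient.inductionOn with | _ g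
    exact congrArg (Quotient.mk _) (inv_inv g)
  right_inv x := by
    induction x using Quotient.inductionOn with | _ g
    exact congrArg (Quotient.mk _) (inv_inv g)
  continuous_toFun := continuous_inv.quotient_map' _
  continuous_invFun := continuous_inv.quotient_map' _

theorem invHomeo_rightMul (g : G) (x : RightQuot Γ) :
    invHomeo Γ (rightMul Γ g x) = g⁻¹ • invHomeo Γ x := by
  induction x using Quotient.inductionOn with | _ a
  change (((a * g)⁻¹ : G) : G ⧸ Γ) = ((g⁻¹ * a⁻¹ : G) : G ⧸ Γ)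
  rw [mul_inv_rev]

theorem invHomeo_symm_smul (g : G) (x : G ⧸ Γ) :
    (invHomeo Γ).symm (g⁻¹ • x) = rightMul Γ g ((invHomeo Γ).symm x) := by
  apply (invHomeo Γ).injective
  rw [invHomeo_rightMul]
  simp

theorem IsUniformL.toRight {Γ : Subgroup G} (h : IsUniformL Γ) : IsUniformLattice Γ :=
  have := h.2
  ⟨h.1, (invHomeo Γ).symm.compactSpace⟩

variable {Γ}

/-- From right to left. -/
def InvariantProb.toLeft (m : InvariantProb Γ) : LInv Γ :=
  letI : MeasurableSpace (G ⧸ Γ) := borel _
  haveI : BorelSpace (G ⧸ Γ) := ⟨rfl⟩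
  letI : MeasurableSpace (RightQuot Γ) := borel _
  haveI : BorelSpace (RightQuot Γ) := ⟨rfl⟩
  { μ := m.μ.map (invHomeo Γ)
    prob := by
      rw [Measure.map_apply (invHomeo Γ).continuous.measurable MeasurableSet.univ]
      simpa using m.prob
    inv := fun g => by
      have hg : Measurable fun x : G ⧸ Γ => g • x := (continuous_const_smul g).measurable
      refine ⟨hg, ?_⟩
      rw [Measure.map_map hg (invHomeo Γ).continuous.measurable]
      have : (fun x : G ⧸ Γ => g • x) ∘ invHomeo Γ = invHomeo Γ ∘ rightMul Γ g⁻¹ := by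
        ext x
        simp [invHomeo_rightMul]
      rw [this, ← Measure.map_map (invHomeo Γ).continuous.measurable (m.inv _).measurable,
        (m.inv _).map_eq] }

/-- From left to right. -/
def LInv.toRight (m : LInv Γ) : InvariantProb Γ :=
  letI : MeasurableSpace (G ⧸ Γ) := borel _
  haveI : BorelSpace (G ⧸ Γ) := ⟨rfl⟩
  letI : MeasurableSpace (RightQuot Γ) := borel _
  haveI : BorelSpace (RightQuot Γ) := ⟨rfl⟩
  { μ := m.μ.map (invHomeo Γ).symm
    prob := by
      rw [Measure.map_apply (invHomeo Γ).symm.continuous.measurable MeasurableSet.univ]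
      simpa using m.prob
    inv := fun g => by
      have hc : Continuous (rightMul Γ g) := (continuous_mul_const g).quotient_map' _
      have hg : Measurable (rightMul Γ g) := hc.measurable
      refine ⟨hg, ?_⟩
      rw [Measure.map_map hg (invHomeo Γ).symm.continuous.measurable]
      have : rightMul Γ g ∘ (invHomeo Γ).symm = (invHomeo Γ).symm ∘ fun x => g⁻¹ • x := by
        ext x
        simp [invHomeo_symm_smul]
      rw [this, ← Measure.map_map (invHomeo Γ).symm.continuous.measurable (m.inv _).measurable,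
        (m.inv _).map_eq] }

theorem InvariantProb.toLeft_equiv (m : InvariantProb Γ) :
    m.toLeft.regular.Equivalent m.regular := by
  let : MeasurableSpace (G ⧸ Γ) := borel _
  have : BorelSpace (G ⧸ Γ) := ⟨rfl⟩
  let : MeasurableSpace (RightQuot Γ) := borel _
  have : BorelSpace (RightQuot Γ) := ⟨rfl⟩
  have h2 : MeasurePreserving (invHomeo Γ) m.μ m.toLeft.μ :=
    ⟨(invHomeo Γ).continuous.measurable, rfl⟩
  have h1 : MeasurePreserving (invHomeo Γ).symm m.toLeft.μ m.μ :=
    h2.symm (invHomeo Γ).toMeasurableEquiv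
  let U : Lp ℂ 2 m.toLeft.μ →ₗᵢ[ℂ] Lp ℂ 2 m.μ := Lp.compMeasurePreservingₗᵢ ℂ (invHomeo Γ) h2
  have hU : Function.Surjective U := by
    intro v
    refine ⟨Lp.compMeasurePreserving _ h1 v, ?_⟩
    change Lp.compMeasurePreserving _ h2 (Lp.compMeasurePreserving _ h1 v) = v
    rw [← Lp.compMeasurePreserving_comp_apply,
      compMP_congr _ (MeasurePreserving.id _) (by ext x; simp)]
    exact Lp.compMeasurePreserving_id_apply v
  refine ⟨LinearIsometryEquiv.ofSurjective U hU, fun g v => ?_⟩
  change Lp.compMeasurePreserving _ h2 (Lp.compMeasurePreserving _ (m.toLeft.inv g⁻¹) v) =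
    Lp.compMeasurePreserving _ (m.inv g) (Lp.compMeasurePreserving _ h2 v)
  rw [← Lp.compMeasurePreserving_comp_apply, ← Lp.compMeasurePreserving_comp_apply]
  apply compMP_congr
  ext x
  simp only [Function.comp_apply, invHomeo_rightMul]

variable [LocallyCompactSpace G] [T2Space G] [SecondCountableTopology G]

theorem main_abstract_right (Γ : Subgroup G) (α : G ≃ₜ* G)
    (hchar : ∀ (f : G →* ℝ≥0) (g : G), f g = 1) (hΓ : IsUniformL Γ)
    (hα : ∀ g, α (α g) = g) {γ₀ : G} (hγ₀ : γ₀ ∈ Γ) {W : Set G} (hW : W ∈ 𝓝 γ₀)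
    (hsep : ∀ b : G, ∀ δ ∈ Γ, α (b * δ * b⁻¹) ∉ W) :
    Nonempty (InvariantProb Γ) ∧ Nonempty (InvariantProb (Γ.map (α : G →* G))) ∧
      ∀ (m₁ : InvariantProb Γ) (m₂ : InvariantProb (Γ.map (α : G →* G))),
        m₂.regular.Equivalent (m₁.regular.twist (α : G →* G)) ∧
        ¬ m₁.regular.Equivalent m₂.regular := by
  obtain ⟨⟨n₁⟩, ⟨n₂⟩, h⟩ := main_abstract Γ α hchar hΓ hα hγ₀ hW hsep
  refine ⟨⟨n₁.toRight⟩, ⟨n₂.toRight⟩, fun m₁ m₂ => ?_⟩
  obtain ⟨h1, h2⟩ := h m₁.toLeft m₂.toLeft
  exact ⟨m₂.toLeft_equiv.symm.trans (h1.trans (m₁.toLeft_equiv.twist _)),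
    fun h3 => h2 (m₁.toLeft_equiv.trans (h3.trans m₂.toLeft_equiv.symm))⟩

end Bridge

end Pool.Agent.Lib.MP_96637b_nt
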