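import Pool.Agent.Lib.MP_96637b_nt.Cocompact
import Pool.Agent.Lib.MP_96637b_nt.Glue

/-!
The example.
-/

open scoped Quaternion MatrixGroups Topology
open Set MeasureTheory

noncomputable section

namespace Pool.Agent.Lib.MP_96637b_nt

open R4

theorem conjSL_mul {K : Type} [CommRing K] (h h' : GL (Fin 2) K) (g : SL(2, K)) :
    conjSL h (conjSL h' g) = conjSL (h * h') g := by
  apply Subtype.ext
  change h.val * (h'.val * g.val * (h'⁻¹).val) * (h⁻¹).val =
    (h * h').val * g.val * ((h * h')⁻¹).val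
  simp only [mul_inv_rev, Units.val_mul, Matrix.mul_assoc]

theorem conjSL_one {K : Type} [CommRing K] (g : SL(2, K)) : conjSL 1 g = g := by
  apply Subtype.ext
  change (1 : GL (Fin 2) K).val * g.val * ((1 : GL (Fin 2) K)⁻¹).val = g.val
  simp

theorem trace_conjSL {K : Type} [CommRing K] (h : GL (Fin 2) K) (g : SL(2, K)) :
    (conjSL h g).1.trace = g.1.trace := Matrix.trace_units_conj h g.1

theorem continuous_conjSL {K : Type} [CommRing K] [TopologicalSpace K] [IsTopologicalRing K]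
    (h : GL (Fin 2) K) : Continuous (conjSL h) := by
  refine Continuous.subtype_mk ?_ _
  fun_prop

theorem adG_mul (h h' : GL (Fin 2) ℝ × GL (Fin 2) ℝ × GL (Fin 2) ℂ) (g : GG) :
    adG h (adG h' g) = adG (h * h') g :=
  Prod.ext (conjSL_mul _ _ _) (Prod.ext (conjSL_mul _ _ _) (conjSL_mul _ _ _))

theorem adG_one (g : GG) : adG 1 g = g :=
  Prod.ext (conjSL_one _) (Prod.ext (conjSL_one _) (conjSL_one _))

theorem continuous_adG (h : GL (Fin 2) ℝ × GL (Fin 2) ℝ × GL (Fin 2) ℂ) : Continuous (adG h) :=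
  (continuous_conjSL _).prodMap ((continuous_conjSL _).prodMap (continuous_conjSL _))

/-- The matrix `diag(1, -1)`. -/
def dd : GL (Fin 2) ℝ :=
  ⟨!![1, 0; 0, -1], !![1, 0; 0, -1], by simp [Matrix.one_fin_two], by simp [Matrix.one_fin_two]⟩

/-- The conjugating element. -/
def h0 : GL (Fin 2) ℝ × GL (Fin 2) ℝ × GL (Fin 2) ℂ := (1, dd, 1)

theorem h0_mul_self : h0 * h0 = 1 := by
  refine Prod.ext (mul_one _) (Prod.ext ?_ (mul_one _))
  exact Units.ext dd.val_inv

theorem adG_h0_invol (g : GG) : adG h0 (adG h0 g) = g := by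
  rw [adG_mul, h0_mul_self, adG_one]

/-- The involution. -/
def alpha : GG ≃ₜ* GG where
  toFun := adG h0
  invFun := adG h0
  left_inv := adG_h0_invol
  right_inv := adG_h0_invol
  map_mul' := map_mul _
  continuous_toFun := continuous_adG h0
  continuous_invFun := continuous_adG h0

theorem conjSL_dd_10 (g : SL(2, ℝ)) : (conjSL dd g).1 1 0 = -g.1 1 0 := by
  change (dd.val * g.val * dd.inv) 1 0 = _
  simp [dd, Matrix.mul_apply, Fin.sum_univ_two, Matrix.vecMul, dotProduct]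

theorem trace_conj_SL {K : Type} [CommRing K] (b g : SL(2, K)) :
    (b * g * b⁻¹).1.trace = g.1.trace := by
  have : (b * g * b⁻¹).1 = b.1 * g.1 * (b⁻¹).1 := rfl
  rw [this, Matrix.trace_mul_cycle]
  have h2 : (b⁻¹).1 * b.1 = 1 := congrArg Subtype.val (inv_mul_cancel b)
  rw [h2, Matrix.one_mul]

/-- The separating neighbourhood. -/
def WW : Set GG := trNhd w0 ∩ ({g | g.1.1 1 0 < 0} ∩ {g | 0 < g.2.1.1 1 0})

theorem WW_mem : WW ∈ 𝓝 (Phi g0u) := by
  have h1 : Continuous fun g : GG => g.1.1 1 0 := by fun_prop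
  have h2 : Continuous fun g : GG => g.2.1.1 1 0 := by fun_prop
  refine ((isOpen_trNhd w0).inter ((isOpen_lt h1 continuous_const).inter
    (isOpen_lt continuous_const h2))).mem_nhds ⟨Phi_mem_trNhd g0u, ?_, ?_⟩
  · change emb e1 s1 s1_sq g0 1 0 < 0
    simpa [emb_apply, g0] using e1_x0_neg
  · change 0 < emb e2 s2 s2_sq g0 1 0
    simpa [emb_apply, g0] using e2_x0_pos

theorem separation (b : GG) (δ : GG) (hδ : δ ∈ Gam) : alpha (b * δ * b⁻¹) ∉ WW := by
  obtain ⟨q, hq, rfl⟩ := hδ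
  rintro ⟨h1, h2, h3⟩
  have hw : (q : QO).re = w0 := by
    refine re_eq_of_traces h1 ?_ ?_ ?_
    · exact (trace_conjSL _ _).trans (trace_conj_SL _ _)
    · exact (trace_conjSL _ _).trans (trace_conj_SL _ _)
    · exact (trace_conjSL _ _).trans (trace_conj_SL _ _)
  have a1 := conj_sign e1 s1 s1_sq q (by rw [hw]; exact e1_w0_sq) b.1
  have a2 := conj_sign e2 s2 s2_sq q (by rw [hw]; exact e2_w0_sq) b.2.1
  change (conjSL 1 (b.1 * embSL e1 s1 s1_sq q * b.1⁻¹)).1 1 0 < 0 at h2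
  change 0 < (conjSL dd (b.2.1 * embSL e2 s2 s2_sq q * b.2.1⁻¹)).1 1 0 at h3
  rw [conjSL_one] at h2
  rw [conjSL_dd_10] at h3
  have b1 : e1 (q : QO).imI < 0 := by
    by_contra h
    nlinarith
  have b2 : e2 (q : QO).imI < 0 := by
    by_contra h
    nlinarith
  have := sign_real hq hw
  nlinarith

instance instLC {K : Type} [NormedField K] [LocallyCompactSpace K] :
    LocallyCompactSpace SL(2, K) :=
  have : LocallyCompactSpace (Matrix (Fin 2) (Fin 2) K) :=
    inferInstanceAs (LocallyCompactSpace (Fin 2 → Fin 2 → K))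
  Matrix.SpecialLinearGroup.isClosedEmbedding_val.locallyCompactSpace

instance instSC {K : Type} [NormedField K] [SecondCountableTopology K] :
    SecondCountableTopology SL(2, K) :=
  have : SecondCountableTopology (Matrix (Fin 2) (Fin 2) K) :=
    inferInstanceAs (SecondCountableTopology (Fin 2 → Fin 2 → K))
  Matrix.SpecialLinearGroup.isClosedEmbedding_val.isEmbedding.secondCountableTopology

instance instT2 {K : Type} [NormedField K] : T2Space SL(2, K) :=
  Matrix.SpecialLinearGroup.isClosedEmbedding_val.isEmbedding.t2Space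

theorem main : ∃ Γ₁ Γ₂ : Subgroup GG,
    IsUniformLattice Γ₁ ∧ IsUniformLattice Γ₂ ∧
    IsTorsionFreeSubgroup Γ₁ ∧ IsTorsionFreeSubgroup Γ₂ ∧
    InjectsInFactors Γ₁ ∧ InjectsInFactors Γ₂ ∧
    Nonempty (InvariantProb Γ₁) ∧ Nonempty (InvariantProb Γ₂) ∧
    ∀ (m₁ : InvariantProb Γ₁) (m₂ : InvariantProb Γ₂),
      (∀ π : UnitaryDual GG, packetMult π m₁.regular = packetMult π m₂.regular) ∧
      ¬ m₁.regular.Equivalent m₂.regular := by
  have hΓ : IsUniformL Gam := ⟨Gam_discrete, Gam_cocompact⟩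
  obtain ⟨n₁, n₂, h⟩ := main_abstract_right Gam alpha (fun f g => GG_hom_trivial f g) hΓ adG_h0_invol
    (γ₀ := Phi g0u) ⟨g0u, g0u_mem, rfl⟩ WW_mem separation
  refine ⟨Gam, Gam.map (alpha : GG →* GG), hΓ.toRight, (hΓ.map _ _).toRight, Gam_torsionFree, ?_, Gam_injects, ?_,
    n₁, n₂, fun m₁ m₂ => ⟨fun π => ?_, (h m₁ m₂).2⟩⟩
  · rintro _ ⟨γ, hγ, rfl⟩ hf
    rw [Gam_torsionFree γ hγ ((alpha.injective.isOfFinOrder_iff (f := (alpha : GG →* GG))).1 hf),
      map_one]
  · rintro _ ⟨γ, hγ, rfl⟩ hf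
    have hinj : ∀ {K : Type} [CommRing K] (h : GL (Fin 2) K) (g : SL(2, K)),
        conjSL h g = 1 → g = 1 := by
      intro K _ h g hg
      have := conjSL_mul h⁻¹ h g
      rwa [hg, map_one, inv_mul_cancel, conjSL_one, eq_comm] at this
    rw [Gam_injects γ hγ (hf.imp (hinj _ _) (Or.imp (hinj _ _) (hinj _ _))), map_one]
  · refine sum_mult_twist (alpha : GG →* GG) alpha.continuous adG_h0_invol (LPacket π) ?_ _ _
      (h m₁ m₂).1
    rintro η ⟨k, hk⟩
    exact ⟨k * h0, (dualTwist_rep _ _ _ η).trans ((hk.twist _).trans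
      (twist_twist π.rep (adG k) _ _ (adG_mul k h0)))⟩

end Pool.Agent.Lib.MP_96637b_nt
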