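import Mathlib

/-!
Fundamental domains and invariant measures for uniform lattices.
-/

open MeasureTheory Set Filter Topology
open scoped Pointwise ENNReal NNReal

noncomputable section

namespace Pool.Agent.Lib.MP_96637b_nt

variable {G : Type} [Group G] [TopologicalSpace G] [IsTopologicalGroup G] [LocallyCompactSpace G]
  [SecondCountableTopology G] [T2Space G] (Γ : Subgroup G) [DiscreteTopology Γ]

omit [IsTopologicalGroup G] [LocallyCompactSpace G] [T2Space G] in
theorem countable_of_discrete : Countable Γ :=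
  TopologicalSpace.separableSpace_iff_countable.mp inferInstance

omit [IsTopologicalGroup G] [LocallyCompactSpace G] [T2Space G] in
theorem countable_op_of_discrete : Countable Γ.op :=
  have := countable_of_discrete Γ
  Countable.of_equiv _ Γ.equivOp

omit [SecondCountableTopology G] [T2Space G] in
theorem exists_small_nhds : ∃ U : Set G, IsOpen U ∧ (1 : G) ∈ U ∧ (∃ C, IsCompact C ∧ U ⊆ C) ∧
    ∀ u ∈ U, ∀ u' ∈ U, u⁻¹ * u' ∈ Γ → u = u' := by
  have hd : IsDiscrete (Γ : Set G) := isDiscrete_iff_discreteTopology.mpr ‹_›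
  obtain ⟨V, V_in, VH⟩ : ∃ (V : Set G), V ∈ 𝓝 (1 : G) ∧ V ∩ (Γ : Set G) = {1} :=
    nhds_inter_eq_singleton_of_mem_discrete hd Γ.one_mem
  have hc : Continuous fun p : G × G => p.1⁻¹ * p.2 := by fun_prop
  have h1 : (fun p : G × G => p.1⁻¹ * p.2) ⁻¹' V ∈ 𝓝 ((1 : G), (1 : G)) := by
    apply hc.continuousAt.preimage_mem_nhds
    simpa using V_in
  rw [mem_nhds_prod_iff] at h1
  obtain ⟨A, hA, B, hB, hAB⟩ := h1
  obtain ⟨C, hC, hC1⟩ := exists_compact_mem_nhds (1 : G)
  refine ⟨interior (A ∩ B ∩ C), isOpen_interior, ?_, ⟨C, hC, ?_⟩, ?_⟩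
  · rw [mem_interior_iff_mem_nhds]
    exact inter_mem (inter_mem hA hB) hC1
  · exact interior_subset.trans inter_subset_right
  · intro u hu u' hu' h
    have hu1 := (interior_subset hu).1.1
    have hu2 := (interior_subset hu').1.2
    have : u⁻¹ * u' ∈ V ∩ (Γ : Set G) := ⟨hAB (mk_mem_prod hu1 hu2), h⟩
    rw [VH, mem_singleton_iff] at this
    exact inv_mul_eq_one.mp this

variable [CompactSpace (G ⧸ Γ)] [MeasurableSpace G] [BorelSpace G]

omit [SecondCountableTopology G] [T2Space G] in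
theorem exists_fund : ∃ F : Set G, MeasurableSet F ∧ (∃ C, IsCompact C ∧ F ⊆ C) ∧
    ∀ x : G, ∃! γ : Γ.op, γ • x ∈ F := by
  classical
  obtain ⟨U, hUo, hU1, ⟨C, hC, hUC⟩, hU⟩ := exists_small_nhds Γ
  let A : G → Set (G ⧸ Γ) := fun g => (QuotientGroup.mk : G → G ⧸ Γ) '' (g • U)
  have hAo : ∀ g, IsOpen (A g) := fun g => QuotientGroup.isOpenMap_coe _ (hUo.smul g)
  have hcov : (univ : Set (G ⧸ Γ)) ⊆ ⋃ g, A g := by
    intro x _
    obtain ⟨g, rfl⟩ := QuotientGroup.mk_surjective x
    exact mem_iUnion.2 ⟨g, g, ⟨1, hU1, by simp⟩, rfl⟩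
  obtain ⟨t, ht⟩ := isCompact_univ.elim_finite_subcover A hAo hcov
  obtain ⟨s, hs⟩ : ∃ s : ℕ → G, range s = insert 1 (t : Set G) := by
    have hc : (insert 1 (t : Set G)).Countable := (t.finite_toSet.insert 1).countable
    obtain ⟨s, hs⟩ := hc.exists_eq_range (insert_nonempty _ _)
    exact ⟨s, hs.symm⟩
  let B : ℕ → Set G := fun n => (QuotientGroup.mk : G → G ⧸ Γ) ⁻¹' A (s n)
  have hBm : ∀ n, MeasurableSet (B n) := fun n =>
    ((hAo _).preimage QuotientGroup.continuous_mk).measurableSet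
  have hBinv : ∀ n (x : G) (γ : G), γ ∈ Γ → (x * γ ∈ disjointed B n ↔ x ∈ disjointed B n) := by
    intro n x γ hγ
    have hB : ∀ k, x * γ ∈ B k ↔ x ∈ B k := by
      intro k
      simp only [B, mem_preimage]
      rw [QuotientGroup.mk_mul_of_mem x hγ]
    simp only [disjointed_eq_inter_compl, mem_inter_iff, mem_iInter, mem_compl_iff, hB]
  refine ⟨⋃ n, (s n • U) ∩ disjointed B n, ?_, ?_, ?_⟩
  · exact MeasurableSet.iUnion fun n =>
      (hUo.smul _).measurableSet.inter (MeasurableSet.disjointed hBm n)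
  · refine ⟨⋃ g ∈ insert 1 (t : Set G), g • C,
      (t.finite_toSet.insert 1).isCompact_biUnion fun g _ => hC.smul g, ?_⟩
    intro x hx
    obtain ⟨n, hn, -⟩ := mem_iUnion.1 hx
    refine mem_biUnion (x := s n) (hs ▸ mem_range_self n) ?_
    exact smul_set_mono hUC hn
  · intro x
    have hx : x ∈ ⋃ n, disjointed B n := by
      rw [iUnion_disjointed]
      have := ht (mem_univ (x : G ⧸ Γ))
      simp only [mem_iUnion] at this
      obtain ⟨g, hg, hxg⟩ := this
      have : g ∈ range s := hs ▸ mem_insert_of_mem _ hg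
      obtain ⟨n, rfl⟩ := this
      exact mem_iUnion.2 ⟨n, hxg⟩
    obtain ⟨n, hn⟩ := mem_iUnion.1 hx
    obtain ⟨y, hy, hyx⟩ : x ∈ B n := disjointed_subset B n hn
    have hγ : x⁻¹ * y ∈ Γ := QuotientGroup.eq.1 hyx.symm
    refine ⟨⟨MulOpposite.op (x⁻¹ * y), by simpa using hγ⟩, ?_, ?_⟩
    · refine mem_iUnion.2 ⟨n, ?_, ?_⟩
      · change x * (x⁻¹ * y) ∈ _
        simpa using hy
      · change x * (x⁻¹ * y) ∈ _
        exact (hBinv n x _ hγ).2 hn
    · rintro ⟨δ, hδ⟩ h
      have hδ' : δ.unop ∈ Γ := hδ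
      obtain ⟨k, hk1, hk2⟩ := mem_iUnion.1 h
      change x * δ.unop ∈ _ at hk1 hk2
      have hk3 : x ∈ disjointed B k := (hBinv k x _ hδ').1 hk2
      have hkn : k = n := by
        by_contra hne
        exact disjoint_left.1 (disjoint_disjointed B hne) hk3 hn
      subst hkn
      obtain ⟨u, hu, hu'⟩ := hk1
      obtain ⟨v, hv, hv'⟩ := hy
      simp only [smul_eq_mul] at hu' hv'
      have : u = v := by
        apply hU u hu v hv
        have : u⁻¹ * v = δ.unop⁻¹ * (x⁻¹ * y) := by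
          have h1 : u = (s k)⁻¹ * (x * δ.unop) := by rw [← hu']; group
          have h2 : v = (s k)⁻¹ * y := by rw [← hv']; group
          rw [h1, h2]; group
        rw [this]
        exact Γ.mul_mem (Γ.inv_mem hδ') hγ
      apply Subtype.ext
      apply MulOpposite.unop_injective
      change δ.unop = x⁻¹ * y
      rw [← hv', ← this, hu']; group

variable [MeasurableSpace (G ⧸ Γ)] [BorelSpace (G ⧸ Γ)]

omit [LocallyCompactSpace G] [T2Space G] [CompactSpace (G ⧸ Γ)] in
theorem fund_invariant (ν : Measure G) [ν.IsMulLeftInvariant] [ν.IsMulRightInvariant]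
    {F : Set G} (hF : IsFundamentalDomain Γ.op F ν) (g : G) :
    MeasurePreserving (fun x : G ⧸ Γ => g • x)
      (Measure.map (QuotientGroup.mk : G → G ⧸ Γ) (ν.restrict F))
      (Measure.map (QuotientGroup.mk : G → G ⧸ Γ) (ν.restrict F)) := by
  have := countable_op_of_discrete Γ
  have meas_π : Measurable (QuotientGroup.mk : G → G ⧸ Γ) := QuotientGroup.continuous_mk.measurable
  have hg : Measurable (fun x : G ⧸ Γ => g • x) := (continuous_const_smul g).measurable
  refine ⟨hg, ?_⟩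
  ext A hA
  rw [Measure.map_apply hg hA, Measure.map_apply meas_π (hg hA), Measure.map_apply meas_π hA,
    Measure.restrict_apply (meas_π (hg hA)), Measure.restrict_apply (meas_π hA)]
  have hF' : IsFundamentalDomain Γ.op (g • F) ν := hF.smul_of_comm g
  rw [hF.measure_set_eq hF' (meas_π hA)]
  · rw [← measure_preimage_mul ν g (_ ∩ g • F)]
    congr 1
    ext x
    simp only [mem_inter_iff, mem_preimage]
    rw [show g * x = g • x from rfl, smul_mem_smul_set_iff]
    rfl
  · rintro ⟨δ, hδ⟩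
    ext x
    simp only [mem_preimage]
    change ((x * δ.unop : G) : G ⧸ Γ) ∈ A ↔ _
    rw [QuotientGroup.mk_mul_of_mem x hδ]

omit [LocallyCompactSpace G] [T2Space G] [CompactSpace (G ⧸ Γ)] in
theorem fund_openPos (ν : Measure G) [ν.IsOpenPosMeasure] [ν.IsMulRightInvariant]
    {F : Set G} (hF : IsFundamentalDomain Γ.op F ν) :
    (Measure.map (QuotientGroup.mk : G → G ⧸ Γ) (ν.restrict F)).IsOpenPosMeasure := by
  have := countable_of_discrete Γ
  refine ⟨fun U hU hne h0 => ?_⟩
  have h1 := hF.absolutelyContinuous_map h0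
  have meas_π : Measurable (QuotientGroup.mk : G → G ⧸ Γ) := QuotientGroup.continuous_mk.measurable
  rw [Measure.map_apply meas_π hU.measurableSet] at h1
  refine (hU.preimage QuotientGroup.continuous_mk).measure_ne_zero ν ?_ h1
  obtain ⟨x, hx⟩ := hne
  obtain ⟨g, rfl⟩ := QuotientGroup.mk_surjective x
  exact ⟨g, hx⟩

omit [MeasurableSpace (G ⧸ Γ)] [BorelSpace (G ⧸ Γ)] in
/-- For a group without nontrivial characters there is a bi-invariant Haar measure and a
fundamental domain of measure one. -/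
theorem exists_haar_fund (hchar : ∀ (f : G →* ℝ≥0) (g : G), f g = 1) :
    ∃ (ν : Measure G) (F : Set G), ν.IsHaarMeasure ∧ ν.IsMulRightInvariant ∧
      IsFundamentalDomain Γ.op F ν ∧ ν F = 1 := by
  have := countable_op_of_discrete Γ
  obtain ⟨F, hFm, ⟨C, hC, hFC⟩, hF⟩ := exists_fund Γ
  have hright : ∀ ν : Measure G, ν.IsHaarMeasure → ν.IsMulRightInvariant := by
    intro ν _
    refine ⟨fun g => ?_⟩
    rw [Measure.map_right_mul_eq_modularCharacterFun_smul ν g]
    have : Measure.modularCharacterFun g = 1 := hchar Measure.modularCharacter g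
    rw [this, one_smul]
  let ν0 : Measure G := Measure.haar
  have := hright ν0 inferInstance
  have hF0 : IsFundamentalDomain Γ.op F ν0 := IsFundamentalDomain.mk' hFm.nullMeasurableSet hF
  have h0 : ν0 F ≠ 0 := hF0.measure_ne_zero (NeZero.ne ν0)
  have htop : ν0 F ≠ ⊤ := ((measure_mono hFC).trans_lt hC.measure_lt_top).ne
  have hH : ((ν0 F)⁻¹ • ν0).IsHaarMeasure :=
    Measure.IsHaarMeasure.smul ν0 (ENNReal.inv_ne_zero.2 htop) (ENNReal.inv_ne_top.2 h0)
  refine ⟨(ν0 F)⁻¹ • ν0, F, hH, hright _ hH, IsFundamentalDomain.mk' hFm.nullMeasurableSet hF, ?_⟩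
  rw [Measure.smul_apply, smul_eq_mul, ENNReal.inv_mul_cancel h0 htop]

end Pool.Agent.Lib.MP_96637b_nt
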