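import Pool.Agent.Lib.MP_96637b_nt.Fund

/-!
The kernel `K(a, b) = Σ_γ f(b γ a⁻¹)` on `G ⧸ Γ` and the unfolding identity.
-/

open MeasureTheory Set Filter Topology
open scoped Pointwise ENNReal NNReal

noncomputable section

namespace Pool.Agent.Lib.MP_96637b_nt

variable {G : Type} [Group G] (Γ : Subgroup G)

/-- The kernel on the group. -/
def kerG (f : G → ℝ) (p : G × G) : ℝ := ∑' γ : Γ, f (p.2 * γ * p.1⁻¹)

theorem kerG_mul (f : G → ℝ) (a b δ ε : G) (hδ : δ ∈ Γ) (hε : ε ∈ Γ) :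
    kerG Γ f (a * δ, b * ε) = kerG Γ f (a, b) := by
  unfold kerG
  rw [← ((Equiv.mulLeft (⟨ε, hε⟩ : Γ)).trans (Equiv.mulRight (⟨δ, hδ⟩ : Γ)⁻¹)).tsum_eq
    (fun γ : Γ => f (b * γ * a⁻¹))]
  congr 1
  ext γ
  congr 1
  simp only [Equiv.trans_apply, Equiv.coe_mulLeft, Equiv.coe_mulRight, Subgroup.coe_mul,
    Subgroup.coe_inv]
  group

/-- The kernel on the quotient. -/
def kerQ (f : G → ℝ) (p : (G ⧸ Γ) × (G ⧸ Γ)) : ℝ := kerG Γ f (p.1.out, p.2.out)

theorem kerQ_mk (f : G → ℝ) (a b : G) :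
    kerQ Γ f ((a : G ⧸ Γ), (b : G ⧸ Γ)) = kerG Γ f (a, b) := by
  unfold kerQ
  obtain ⟨δ, hδ⟩ := QuotientGroup.mk_out_eq_mul Γ a
  obtain ⟨ε, hε⟩ := QuotientGroup.mk_out_eq_mul Γ b
  simp only
  rw [hδ, hε, kerG_mul Γ f a b δ ε δ.2 ε.2]

theorem kerQ_nonneg {f : G → ℝ} (hf : ∀ g, 0 ≤ f g) (p : (G ⧸ Γ) × (G ⧸ Γ)) : 0 ≤ kerQ Γ f p :=
  tsum_nonneg fun _ => hf _

theorem exists_of_kerQ_ne_zero {f : G → ℝ} {p : (G ⧸ Γ) × (G ⧸ Γ)} (h : kerQ Γ f p ≠ 0) :
    ∃ γ ∈ Γ, f (p.2.out * γ * p.1.out⁻¹) ≠ 0 := by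
  by_contra hne
  push Not at hne
  apply h
  unfold kerQ kerG
  simp only
  rw [tsum_congr fun γ : Γ => hne γ γ.2, tsum_zero]

variable [TopologicalSpace G] [IsTopologicalGroup G] [LocallyCompactSpace G]
  [T2Space G] [DiscreteTopology Γ]

omit [LocallyCompactSpace G] in
theorem finite_inter_compact {C : Set G} (hC : IsCompact C) :
    {γ : Γ | (γ : G) ∈ C}.Finite :=
  (tendsto_cofinite_cocompact_iff.1
    (Γ.tendsto_coe_cofinite_of_discrete (isDiscrete_iff_discreteTopology.mpr ‹_›))) C hC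

theorem locallyFinite_ker {f : G → ℝ} (hf : HasCompactSupport f) :
    LocallyFinite fun γ : Γ => Function.support fun p : G × G => f (p.2 * γ * p.1⁻¹) := by
  rintro ⟨a, b⟩
  obtain ⟨A, hA, hA1⟩ := exists_compact_mem_nhds a
  obtain ⟨B, hB, hB1⟩ := exists_compact_mem_nhds b
  refine ⟨A ×ˢ B, prod_mem_nhds hA1 hB1, ?_⟩
  refine (finite_inter_compact Γ ((hB.inv.mul hf.isCompact).mul hA)).subset ?_
  rintro γ ⟨⟨a', b'⟩, h1, ha', hb'⟩
  refine ⟨b'⁻¹ * (b' * γ * a'⁻¹), ⟨b'⁻¹, ?_, _, subset_tsupport _ h1, rfl⟩, a', ha', ?_⟩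
  · simpa using hb'
  · simp only
    group

theorem finite_support_ker {f : G → ℝ} (hf : HasCompactSupport f) (p : G × G) :
    (Function.support fun γ : Γ => f (p.2 * γ * p.1⁻¹)).Finite :=
  (locallyFinite_ker Γ hf).point_finite p

theorem summable_ker {f : G → ℝ} (hf : HasCompactSupport f) (p : G × G) :
    Summable fun γ : Γ => f (p.2 * γ * p.1⁻¹) :=
  summable_of_hasFiniteSupport (finite_support_ker Γ hf p)

theorem continuous_kerG {f : G → ℝ} (hc : Continuous f) (hf : HasCompactSupport f) :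
    Continuous (kerG Γ f) := by
  have : kerG Γ f = fun p => ∑ᶠ γ : Γ, f (p.2 * γ * p.1⁻¹) := by
    ext p
    exact tsum_eq_finsum (finite_support_ker Γ hf p)
  rw [this]
  exact continuous_finsum (fun γ => by fun_prop) (locallyFinite_ker Γ hf)

theorem continuous_kerQ {f : G → ℝ} (hc : Continuous f) (hf : HasCompactSupport f) :
    Continuous (kerQ Γ f) := by
  rw [← ((QuotientGroup.isOpenQuotientMap_mk (N := Γ)).prodMap
    (QuotientGroup.isOpenQuotientMap_mk (N := Γ))).continuous_comp_iff]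
  have : kerQ Γ f ∘ Prod.map (QuotientGroup.mk : G → G ⧸ Γ) (QuotientGroup.mk : G → G ⧸ Γ) =
      kerG Γ f := by
    ext ⟨a, b⟩
    exact kerQ_mk Γ f a b
  rw [this]
  exact continuous_kerG Γ hc hf

theorem kerQ_add {f f' : G → ℝ} (hf : HasCompactSupport f) (hf' : HasCompactSupport f')
    (p : (G ⧸ Γ) × (G ⧸ Γ)) : kerQ Γ (f + f') p = kerQ Γ f p + kerQ Γ f' p :=
  (summable_ker Γ hf _).tsum_add (summable_ker Γ hf' _)

theorem kerQ_sub {f f' : G → ℝ} (hf : HasCompactSupport f) (hf' : HasCompactSupport f')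
    (p : (G ⧸ Γ) × (G ⧸ Γ)) : kerQ Γ (f - f') p = kerQ Γ f p - kerQ Γ f' p :=
  (summable_ker Γ hf _).tsum_sub (summable_ker Γ hf' _)

theorem kerQ_one_pos {f : G → ℝ} (hf : HasCompactSupport f) (h0 : ∀ g, 0 ≤ f g) {γ : G}
    (hγ : γ ∈ Γ) (hpos : 0 < f γ) : 0 < kerQ Γ f (((1 : G) : G ⧸ Γ), ((1 : G) : G ⧸ Γ)) := by
  rw [kerQ_mk]
  exact (summable_ker Γ hf _).tsum_pos (fun _ => h0 _) ⟨γ, hγ⟩ (by simpa using hpos)

variable [SecondCountableTopology G] [CompactSpace (G ⧸ Γ)] [MeasurableSpace G] [BorelSpace G]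
  [MeasurableSpace (G ⧸ Γ)] [BorelSpace (G ⧸ Γ)]

theorem unfold_ker (ν : Measure G) [ν.IsHaarMeasure] [ν.IsMulRightInvariant]
    {F : Set G} (hF : IsFundamentalDomain Γ.op F ν)
    {f : G → ℝ} (hc : Continuous f) (hf : HasCompactSupport f) (u : C(G ⧸ Γ, ℂ)) (a : G ⧸ Γ) :
    ∫ g, (f g : ℂ) * u (g • a) ∂ν =
      ∫ b, u b * (kerQ Γ f (a, b) : ℂ)
        ∂(Measure.map (QuotientGroup.mk : G → G ⧸ Γ) (ν.restrict F)) := by
  have := countable_of_discrete Γ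
  obtain ⟨a, rfl⟩ := QuotientGroup.mk_surjective a
  let fa : G → ℂ := fun h => (f (h * a⁻¹) : ℂ)
  have hfa_c : Continuous fa := by fun_prop
  have hfa_s : HasCompactSupport fa := by
    have h1 : HasCompactSupport (f ∘ Homeomorph.mulRight a⁻¹) := hf.comp_homeomorph _
    exact h1.comp_left (g := fun x : ℝ => (x : ℂ)) (by simp)
  have haut : QuotientGroup.automorphize (Γ := Γ) fa = fun b => (kerQ Γ f (a, b) : ℂ) := by
    ext b
    obtain ⟨b, rfl⟩ := QuotientGroup.mk_surjective b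
    rw [kerQ_mk, kerG, Complex.ofReal_tsum]
    change ∑' γ : Γ.op, fa (γ • b) = _
    rw [← Γ.equivOp.tsum_eq]
    rfl
  have hK : Continuous fun b : G ⧸ Γ => (kerQ Γ f (a, b) : ℂ) := by
    have := continuous_kerQ Γ hc hf
    fun_prop
  have h := QuotientGroup.integral_mul_eq_integral_automorphize_mul hF
    (hfa_c.integrable_of_hasCompactSupport hfa_s) (g := u) u.continuous.aestronglyMeasurable
    (by
      refine ne_top_of_le_ne_top (b := ‖u‖ₑ) enorm_ne_top ?_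
      refine essSup_le_of_ae_le _ (Eventually.of_forall fun x => ?_)
      simp only [enorm_eq_nnnorm, ENNReal.coe_le_coe]
      exact u.norm_coe_le_norm x)
    (by rw [haut]; exact hK.aestronglyMeasurable)
  rw [haut] at h
  rw [← h, ← integral_mul_right_eq_self (fun g => (f g : ℂ) * u (g • (a : G ⧸ Γ))) a⁻¹]
  congr 1
  ext g
  rw [mul_comm]
  congr 2
  change ((g * a⁻¹ * a : G) : G ⧸ Γ) = _
  simp

end Pool.Agent.Lib.MP_96637b_nt
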