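import Pool.Agent.Lib.MP_96637b_nt.Defs

/-!
L-packets of `SL₂(ℝ) × SL₂(ℝ) × SL₂(ℂ)` as constructed by Langlands: discrete series with a given
infinitesimal character, and irreducible quotients of representations induced from a character of
the Borel subgroup in the closed positive chamber; packets of a product are products of packets.
-/

open MeasureTheory
open scoped MatrixGroups

noncomputable section

namespace Pool.Agent.Lib.MP_96637b_nt

variable {H H₁ H₂ H₃ : Type} [NormedAddCommGroup H] [InnerProductSpace ℂ H]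
  [NormedAddCommGroup H₁] [InnerProductSpace ℂ H₁] [NormedAddCommGroup H₂] [InnerProductSpace ℂ H₂]
  [NormedAddCommGroup H₃] [InnerProductSpace ℂ H₃] {K : Type} [RCLike K]

/-- `w = dτ(X) v`: the derivative at `t = 0` of `τ(exp (t X)) v`. -/
def LieDeriv (τ : SL(2, ℝ) → H → H) (X : Matrix (Fin 2) (Fin 2) ℝ) (v w : H) : Prop :=
  ∃ u : ℝ → SL(2, ℝ), (∀ t, (u t).1 = NormedSpace.exp (t • X)) ∧
    HasDerivAt (fun t => τ (u t) v) w 0

/-- The Casimir element `h² / 2 + e f + f e` acts by `c` on some nonzero vector. For irreducible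
`τ` this is the infinitesimal character. -/
def HasCasimir (τ : SL(2, ℝ) → H → H) (c : ℂ) : Prop :=
  ∃ v hv hhv ev fev fv efv : H, v ≠ 0 ∧
    LieDeriv τ !![1, 0; 0, -1] v hv ∧ LieDeriv τ !![1, 0; 0, -1] hv hhv ∧
    LieDeriv τ !![0, 1; 0, 0] v ev ∧ LieDeriv τ !![0, 0; 1, 0] ev fev ∧
    LieDeriv τ !![0, 0; 1, 0] v fv ∧ LieDeriv τ !![0, 1; 0, 0] fv efv ∧
    (2 : ℂ)⁻¹ • hhv + efv + fev = c • v

/-- A discrete series representation: a nonzero vector has a matrix coefficient that is square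
integrable for Haar measure. -/
def IsDiscreteSeries (τ : SL(2, ℝ) → H → H) : Prop :=
  ∃ μ : @Measure SL(2, ℝ) (borel SL(2, ℝ)), @Measure.IsHaarMeasure _ _ _ (borel SL(2, ℝ)) μ ∧
    ∃ v : H, v ≠ 0 ∧ @MemLp _ _ (borel SL(2, ℝ)) _ _ (fun g => inner ℂ v (τ g v)) 2 μ

/-- The normalised induced representation `Ind_B^G χ` on continuous functions:
`f (b g) = χ(a) |a|_K f(g)` for `b` upper triangular with diagonal `(a, a⁻¹)`, where
`|a|_K = ‖a‖ ^ [K : ℝ]` is the square root of the modulus of `b`. -/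
def Ind (χ : Kˣ →* ℂˣ) : Set C(SL(2, K), ℂ) :=
  {f | ∀ (b g : SL(2, K)) (a : Kˣ), b.1 1 0 = 0 → b.1 0 0 = a.val →
    f (b * g) = (χ a).val * (‖a.val‖ : ℂ) ^ Module.finrank ℝ K * f g}

/-- `τ` is a quotient of `Ind_B^G χ` (right translation, compact-open topology): there is a map
that is continuous, linear, nonzero and intertwining on the space `Ind χ`. -/
def IsIndQuot (χ : Kˣ →* ℂˣ) (τ : SL(2, K) → H → H) : Prop :=
  ∃ T : C(SL(2, K), ℂ) → H, ContinuousOn T (Ind χ) ∧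
    (∀ f ∈ Ind χ, ∀ f' ∈ Ind χ, ∀ c : ℂ, T (c • f + f') = c • T f + T f') ∧
    (∃ f ∈ Ind χ, T f ≠ 0) ∧
    ∀ g : SL(2, K), ∀ f ∈ Ind χ, ∀ f' ∈ Ind χ, (∀ x, f' x = f (x * g)) → T f' = τ g (T f)

/-- Both are quotients of one `Ind_B^G χ` with `χ` continuous in the closed positive chamber: the
constituents for unitary `χ`, the Langlands quotient otherwise. -/
def SameInduced (τ τ' : URep SL(2, K)) : Prop :=
  ∃ χ : Kˣ →* ℂˣ, Continuous χ ∧ (∀ a : Kˣ, 1 ≤ ‖a.val‖ → 1 ≤ ‖(χ a).val‖) ∧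
    IsIndQuot χ τ.act ∧ IsIndQuot χ τ'.act

/-- Same L-packet of `SL₂(ℝ)`: discrete series with the same infinitesimal character, or
quotients of the same induced representation. -/
def SameReal (τ τ' : URep SL(2, ℝ)) : Prop :=
  (IsDiscreteSeries τ.act ∧ IsDiscreteSeries τ'.act ∧
    ∃ c, HasCasimir τ.act c ∧ HasCasimir τ'.act c) ∨ SameInduced τ τ'

/-- `η` contains (for irreducible `η`: is) the Hilbert tensor product `τ₁ ⊗ τ₂ ⊗ τ₃`. -/
def IsTensor (η : GG → H → H) (τ₁ : SL(2, ℝ) → H₁ → H₁) (τ₂ : SL(2, ℝ) → H₂ → H₂)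
    (τ₃ : SL(2, ℂ) → H₃ → H₃) : Prop :=
  ∃ B : H₁ → H₂ → H₃ → H,
    (∀ x y z x' y' z', inner ℂ (B x y z) (B x' y' z') =
      inner ℂ x x' * inner ℂ y y' * inner ℂ z z') ∧
    ∀ (g : GG) x y z, η g (B x y z) = B (τ₁ g.1 x) (τ₂ g.2.1 y) (τ₃ g.2.2 z)

/-- The L-packet of `π` in the Langlands classification: factorwise in the same packet. -/
def LanglandsPacket (π : UnitaryDual GG) : Set (UnitaryDual GG) :=
  {η | ∃ (τ₁ σ₁ τ₂ σ₂ : IrrRep SL(2, ℝ)) (τ₃ σ₃ : IrrRep SL(2, ℂ)),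
    IsTensor η.rep.act τ₁.1.act τ₂.1.act τ₃.1.act ∧
    IsTensor π.rep.act σ₁.1.act σ₂.1.act σ₃.1.act ∧
    SameReal τ₁.1 σ₁.1 ∧ SameReal τ₂.1 σ₂.1 ∧ SameInduced τ₃.1 σ₃.1}

/-- The multiplicity of the Langlands packet of `π` in `σ`. -/
def langlandsMult (π : UnitaryDual GG) (σ : URep GG) : Cardinal :=
  Cardinal.sum fun η : LanglandsPacket π => mult η.1.rep σ

end Pool.Agent.Lib.MP_96637b_nt
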