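import Pool.Agent.Lib.MP_96637b_nt.NFin
import Pool.Agent.Lib.MP_96637b_nt.LPDefs

/-!
Langlands packets are stable under conjugation by `diag(1, -1)` in the second factor.
-/

open MeasureTheory
open scoped MatrixGroups

noncomputable section

namespace Pool.Agent.Lib.MP_96637b_nt.LP

theorem dd_invol (g : SL(2, ℝ)) : conjSL dd (conjSL dd g) = g := by
  rw [conjSL_mul, show dd * dd = 1 from Units.ext dd.val_inv, conjSL_one]

theorem conjSL_dd_00 (g : SL(2, ℝ)) : (conjSL dd g).1 0 0 = g.1 0 0 := by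
  change (dd.val * g.val * dd.inv) 0 0 = _
  simp [dd, Matrix.mul_apply, Fin.sum_univ_two, Matrix.vecMul, dotProduct]

theorem act_neg {G : Type} [Group G] (τ : URep G) (g : G) (v : τ.H) :
    τ.act g (-v) = -τ.act g v :=
  map_neg (id (τ.ρ g) : τ.H ≃ₗᵢ[ℂ] τ.H) v

theorem lieDeriv_neg {τ : URep SL(2, ℝ)} {X : Matrix (Fin 2) (Fin 2) ℝ} {v w : τ.H}
    (h : LieDeriv τ.act X v w) : LieDeriv τ.act X (-v) (-w) := by
  obtain ⟨u, hu, hd⟩ := h
  refine ⟨u, hu, ?_⟩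
  simp only [act_neg]
  exact hd.neg

theorem lieDeriv_twist {τ : URep SL(2, ℝ)} {X : Matrix (Fin 2) (Fin 2) ℝ} {v w : τ.H} (ε : ℝ)
    (hX : dd.val * X * (dd⁻¹).val = ε • X) (h : LieDeriv τ.act X v w) :
    LieDeriv (τ.twist (conjSL dd)).act X v (ε • w) := by
  obtain ⟨u, hu, hd⟩ := h
  refine ⟨u, hu, ?_⟩
  have h1 : ∀ t, conjSL dd (u t) = u (ε * t) := fun t => by
    apply Subtype.ext
    change dd.val * (u t).1 * (dd⁻¹).val = _
    rw [hu, hu, ← Matrix.exp_units_conj, Matrix.mul_smul, Matrix.smul_mul, hX, smul_smul, mul_comm]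
  have h2 : HasDerivAt (fun t : ℝ => ε * t) ε 0 := by
    simpa using (hasDerivAt_id (0 : ℝ)).const_mul ε
  have h3 := HasDerivAt.scomp (0 : ℝ) (h := fun t : ℝ => ε * t)
    (g₁ := fun t => τ.act (u t) v) (by simpa using hd) h2
  change HasDerivAt (fun t => τ.act (conjSL dd (u t)) v) (ε • w) 0
  simp only [h1]
  exact h3

theorem dd_h : dd.val * !![1, 0; 0, -1] * (dd⁻¹).val = (1 : ℝ) • !![1, 0; 0, -1] := by
  change dd.val * _ * dd.inv = _
  simp [dd]

theorem dd_e : dd.val * !![0, 1; 0, 0] * (dd⁻¹).val = (-1 : ℝ) • !![0, 1; 0, 0] := by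
  change dd.val * _ * dd.inv = _
  ext i j
  fin_cases i <;> fin_cases j <;> simp [dd]

theorem dd_f : dd.val * !![0, 0; 1, 0] * (dd⁻¹).val = (-1 : ℝ) • !![0, 0; 1, 0] := by
  change dd.val * _ * dd.inv = _
  ext i j
  fin_cases i <;> fin_cases j <;> simp [dd]

theorem casimir_twist {τ : URep SL(2, ℝ)} {c : ℂ} (h : HasCasimir τ.act c) :
    HasCasimir (τ.twist (conjSL dd)).act c := by
  obtain ⟨v, hv, hhv, ev, fev, fv, efv, h0, a1, a2, a3, a4, a5, a6, e⟩ := h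
  refine ⟨v, hv, hhv, -ev, fev, -fv, efv, h0, ?_, ?_, ?_, ?_, ?_, ?_, e⟩
  · simpa using lieDeriv_twist 1 dd_h a1
  · simpa using lieDeriv_twist 1 dd_h a2
  · simpa using lieDeriv_twist (-1) dd_e a3
  · simpa using lieDeriv_twist (-1) dd_f (lieDeriv_neg a4)
  · simpa using lieDeriv_twist (-1) dd_f a5
  · simpa using lieDeriv_twist (-1) dd_e (lieDeriv_neg a6)

/-- Conjugation by `diag(1, -1)` on `SL₂(ℝ)`. -/
def beta : SL(2, ℝ) ≃ₜ* SL(2, ℝ) where
  toFun := conjSL dd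
  invFun := conjSL dd
  left_inv := dd_invol
  right_inv := dd_invol
  map_mul' := map_mul _
  continuous_toFun := continuous_conjSL dd
  continuous_invFun := continuous_conjSL dd

theorem discrete_twist {τ : URep SL(2, ℝ)} (h : IsDiscreteSeries τ.act) :
    IsDiscreteSeries (τ.twist (conjSL dd)).act := by
  obtain ⟨μ, hμ, v, hv, hL⟩ := h
  let : MeasurableSpace SL(2, ℝ) := borel _
  have : BorelSpace SL(2, ℝ) := ⟨rfl⟩
  refine ⟨μ.map beta, beta.isHaarMeasure_map μ, v, hv, ?_⟩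
  refine (beta.toHomeomorph.toMeasurableEquiv.memLp_map_measure_iff).2 ?_
  have : ((fun g => inner ℂ v (τ.act (conjSL dd g) v)) ∘ beta) =
      fun g => inner ℂ v (τ.act g v) := by
    funext g
    change inner ℂ v (τ.act (conjSL dd (conjSL dd g)) v) = _
    rw [dd_invol]
  exact this ▸ hL

/-- Pull-back of functions. -/
def pullC (f : C(SL(2, ℝ), ℂ)) : C(SL(2, ℝ), ℂ) := f.comp ⟨conjSL dd, continuous_conjSL dd⟩

theorem pullC_apply (f : C(SL(2, ℝ), ℂ)) (x : SL(2, ℝ)) : pullC f x = f (conjSL dd x) := rfl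

theorem pullC_mem {χ : ℝˣ →* ℂˣ} {f : C(SL(2, ℝ), ℂ)} (hf : f ∈ Ind χ) : pullC f ∈ Ind χ := by
  intro b g a h h'
  rw [pullC_apply, pullC_apply, map_mul (conjSL dd)]
  exact hf _ _ a (by rw [conjSL_dd_10, h, neg_zero]) (by rw [conjSL_dd_00, h'])

theorem continuous_pullC : Continuous pullC := ContinuousMap.continuous_precomp _

theorem indQuot_twist {χ : ℝˣ →* ℂˣ} {τ : URep SL(2, ℝ)} (h : IsIndQuot χ τ.act) :
    IsIndQuot χ (τ.twist (conjSL dd)).act := by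
  obtain ⟨T, hc, hl, ⟨f₀, hf₀, h0⟩, hT⟩ := h
  refine ⟨fun f => T (pullC f), hc.comp continuous_pullC.continuousOn fun f hf => pullC_mem hf,
    fun f hf f' hf' c => hl _ (pullC_mem hf) _ (pullC_mem hf') c,
    ⟨pullC f₀, pullC_mem hf₀, ?_⟩, fun g f hf f' hf' h => ?_⟩
  · have h2 : pullC (pullC f₀) = f₀ := by
      refine ContinuousMap.ext fun x => ?_
      rw [pullC_apply, pullC_apply, dd_invol]
    change T (pullC (pullC f₀)) ≠ 0
    rw [h2]
    exact h0
  · refine hT (conjSL dd g) _ (pullC_mem hf) _ (pullC_mem hf') fun x => ?_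
    rw [pullC_apply, pullC_apply, h, map_mul (conjSL dd), dd_invol]

theorem sameReal_twist {τ τ' : URep SL(2, ℝ)} (h : SameReal τ τ') :
    SameReal (τ.twist (conjSL dd)) τ' := by
  rcases h with ⟨a, b, c, d, e⟩ | ⟨χ, a, b, c, d⟩
  · exact Or.inl ⟨discrete_twist a, b, c, casimir_twist d, e⟩
  · exact Or.inr ⟨χ, a, b, indQuot_twist c, d⟩

theorem tensor_twist {η η' : URep GG} {τ₁ τ₂ : URep SL(2, ℝ)} {τ₃ : URep SL(2, ℂ)}
    (h : IsTensor η.act τ₁.act τ₂.act τ₃.act) (e : η'.Equivalent (η.twist (alpha : GG →* GG))) :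
    IsTensor η'.act τ₁.act (τ₂.twist (conjSL dd)).act τ₃.act := by
  obtain ⟨B, h1, h2⟩ := h
  obtain ⟨U, hU⟩ := (URep.equivalent_iff _ _).1 e.symm
  refine ⟨fun x y z => U (B x y z), fun x y z x' y' z' => ?_, fun g x y z => ?_⟩
  · rw [LinearIsometryEquiv.inner_map_map]
    exact h1 x y z x' y' z'
  · rw [← hU]
    refine congrArg U ?_
    refine (h2 (alpha g) x y z).trans ?_
    change B (τ₁.act (conjSL 1 g.1) x) (τ₂.act (conjSL dd g.2.1) y) (τ₃.act (conjSL 1 g.2.2) z) = _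
    rw [conjSL_one, conjSL_one]
    rfl

theorem packet_stable (π : UnitaryDual GG) : ∀ η ∈ LanglandsPacket π,
    dualTwist (alpha : GG →* GG) alpha.continuous adG_h0_invol η ∈ LanglandsPacket π := by
  rintro η ⟨τ₁, σ₁, τ₂, σ₂, τ₃, σ₃, a, b, c, d, e⟩
  exact ⟨τ₁, σ₁, τ₂.twist (conjSL dd) (continuous_conjSL dd) dd_invol, σ₂, τ₃, σ₃,
    tensor_twist a (dualTwist_rep _ _ _ η), b, c, sameReal_twist d, e⟩

open NI in
theorem main : ∃ Γ₁ Γ₂ : Subgroup GG,
    IsUniformLattice Γ₁ ∧ IsUniformLattice Γ₂ ∧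
    IsTorsionFreeSubgroup Γ₁ ∧ IsTorsionFreeSubgroup Γ₂ ∧
    InjectsInFactors Γ₁ ∧ InjectsInFactors Γ₂ ∧
    (∀ φ : GG ≃* GG,
      (Γ₁ ⊔ Subgroup.center GG).map (φ : GG →* GG) ≠ Γ₂ ⊔ Subgroup.center GG) ∧
    Nonempty (InvariantProb Γ₁) ∧ Nonempty (InvariantProb Γ₂) ∧
    ∀ (m₁ : InvariantProb Γ₁) (m₂ : InvariantProb Γ₂),
      (∀ π : UnitaryDual GG, langlandsMult π m₁.regular = langlandsMult π m₂.regular) ∧
      (∀ π : UnitaryDual GG, packetMult π m₁.regular = packetMult π m₂.regular) ∧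
      ¬ m₁.regular.Equivalent m₂.regular := by
  obtain ⟨⟨n⟩, n₂, h⟩ := main_abstract_right (Lt true) alpha (fun f g => GG_hom_trivial f g)
    (Lt_uniform true) adG_h0_invol (mem_Lt.2 ⟨_, g0_sq_mem true, rfl⟩) (W2_mem g0_sq)
    fun b δ hδ => separation2 b δ (Lt_le_Gam _ hδ)
  have hs : ∀ m : InvariantProb (Lt false), m.regular.Equivalent n.regular := fun m =>
    m.toLeft_equiv.symm.trans ((sunada _ _).trans n.toLeft_equiv)
  refine ⟨Lt false, (Lt true).map (alpha : GG →* GG), (Lt_uniform _).toRight,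
    ((Lt_uniform _).map _ _).toRight, fun γ hγ => Gam_torsionFree γ (Lt_le_Gam _ hγ), ?_,
    fun γ hγ => Gam_injects γ (Lt_le_Gam _ hγ), ?_, not_iso, ?_, n₂,
    fun m₁ m₂ => ⟨fun π => ?_, fun π => ?_, fun e => (h n m₂).2 ((hs m₁).symm.trans e)⟩⟩
  · rintro _ ⟨γ, hγ, rfl⟩ hf
    rw [Gam_torsionFree γ (Lt_le_Gam _ hγ)
      ((alpha.injective.isOfFinOrder_iff (f := (alpha : GG →* GG))).1 hf), map_one]
  · rintro _ ⟨γ, hγ, rfl⟩ hf
    have hinj : ∀ {K : Type} [CommRing K] (h : GL (Fin 2) K) (g : SL(2, K)),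
        conjSL h g = 1 → g = 1 := by
      intro K _ h g hg
      have := conjSL_mul h⁻¹ h g
      rwa [hg, map_one, inv_mul_cancel, conjSL_one, eq_comm] at this
    rw [Gam_injects γ (Lt_le_Gam _ hγ) (hf.imp (hinj _ _) (Or.imp (hinj _ _) (hinj _ _))), map_one]
  · exact (linv_unique (fun f g => GG_hom_trivial f g) (Lt_uniform false)).1.map LInv.toRight
  · exact Eq.trans (congrArg Cardinal.sum (funext fun η => mult_congr (.refl _) (hs m₁)))
      (sum_mult_twist (alpha : GG →* GG) alpha.continuous adG_h0_invol (LanglandsPacket π)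
        (packet_stable π) _ _ (h n m₂).1)
  · refine Eq.trans (congrArg Cardinal.sum (funext fun η => mult_congr (.refl _) (hs m₁)))
      (sum_mult_twist (alpha : GG →* GG) alpha.continuous adG_h0_invol (LPacket π) ?_ _ _
        (h n m₂).1)
    rintro η ⟨k, hk⟩
    exact ⟨k * h0, (dualTwist_rep _ _ _ η).trans ((hk.twist _).trans
      (twist_twist π.rep (adG k) _ _ (adG_mul k h0)))⟩

end Pool.Agent.Lib.MP_96637b_nt.LP
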