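import Pool.Agent.Lib.MP_96637b_nt.Defs

/-!
Left coset versions of the definitions.
-/

open MeasureTheory

noncomputable section

namespace Pool.Agent.Lib.MP_96637b_nt

variable {G : Type} [Group G]

/-- A `G`-invariant Borel probability measure on `G ⧸ Γ`. -/
structure LInv [TopologicalSpace G] (Γ : Subgroup G) where
  μ : @Measure (G ⧸ Γ) (borel (G ⧸ Γ))
  prob : μ Set.univ = 1
  inv : ∀ g : G, @MeasurePreserving _ _ (borel (G ⧸ Γ)) (borel (G ⧸ Γ)) (fun x => g • x) μ μ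

section Regular

variable [TopologicalSpace G] {Γ : Subgroup G} (m : LInv Γ)

/-- The space `L²(G ⧸ Γ)`. -/
abbrev LInv.L2 : Type := @Lp (G ⧸ Γ) ℂ (borel (G ⧸ Γ)) _ 2 m.μ

/-- The operator `f ↦ (x ↦ f (g • x))` on `L²(G ⧸ Γ)`. -/
def LInv.pull (g : G) : m.L2 →ₗᵢ[ℂ] m.L2 :=
  @Lp.compMeasurePreservingₗᵢ (G ⧸ Γ) ℂ (borel (G ⧸ Γ)) 2 m.μ _ (G ⧸ Γ) (borel (G ⧸ Γ)) m.μ ℂ _ _ _ _
    (fun x => g • x) (m.inv g)

theorem LInv.pull_one (v : m.L2) : m.pull 1 v = v := by
  let : MeasurableSpace (G ⧸ Γ) := borel _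
  change Lp.compMeasurePreserving (fun x => (1 : G) • x) (m.inv 1) v = v
  have h : (fun x : G ⧸ Γ => (1 : G) • x) = id := by
    funext x
    simp
  have h2 : ∀ (f : G ⧸ Γ → G ⧸ Γ) (hf : MeasurePreserving f m.μ m.μ), f = id →
      Lp.compMeasurePreserving f hf v = v := by
    intro f hf hfi
    subst hfi
    exact Lp.compMeasurePreserving_id_apply v
  exact h2 _ _ h

theorem LInv.pull_mul (g h : G) (v : m.L2) :
    m.pull (g * h) v = m.pull h (m.pull g v) := by
  let : MeasurableSpace (G ⧸ Γ) := borel _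
  change Lp.compMeasurePreserving (fun x => (g * h) • x) (m.inv _) v =
    Lp.compMeasurePreserving (fun x => h • x) (m.inv _)
      (Lp.compMeasurePreserving (fun x => g • x) (m.inv _) v)
  rw [← Lp.compMeasurePreserving_comp_apply]
  have h1 : (fun x : G ⧸ Γ => (g * h) • x) = (fun x => g • x) ∘ (fun x => h • x) := by
    funext x
    simp [mul_smul]
  have h2 : ∀ (f f' : G ⧸ Γ → G ⧸ Γ) (hf : MeasurePreserving f m.μ m.μ)
      (hf' : MeasurePreserving f' m.μ m.μ), f = f' →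
      Lp.compMeasurePreserving f hf v = Lp.compMeasurePreserving f' hf' v := by
    intro f f' hf hf' hff
    subst hff
    rfl
  exact h2 _ _ _ _ h1

theorem LInv.pull_surjective (g : G) : Function.Surjective (m.pull g) := fun v =>
  ⟨m.pull g⁻¹ v, by rw [← m.pull_mul, inv_mul_cancel, m.pull_one]⟩

/-- The unitary operator `f ↦ (x ↦ f (g⁻¹ • x))` on `L²(G ⧸ Γ)`. -/
def LInv.op (g : G) : m.L2 ≃ₗᵢ[ℂ] m.L2 :=
  LinearIsometryEquiv.ofSurjective (m.pull g⁻¹) (m.pull_surjective g⁻¹)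

theorem LInv.op_one : m.op 1 = 1 := by
  ext1 v
  change m.pull 1⁻¹ v = v
  rw [inv_one, m.pull_one]

theorem LInv.op_mul (g h : G) : m.op (g * h) = m.op g * m.op h := by
  ext1 v
  change m.pull (g * h)⁻¹ v = m.pull g⁻¹ (m.pull h⁻¹ v)
  rw [mul_inv_rev, m.pull_mul]

/-- The regular representation of `G` on `L²(G ⧸ Γ)`. -/
def LInv.regular : URep G where
  H := m.L2
  ρ := { toFun := m.op, map_one' := m.op_one, map_mul' := m.op_mul }

end Regular

/-- A uniform lattice: a discrete subgroup with compact quotient. -/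
def IsUniformL [TopologicalSpace G] (Γ : Subgroup G) : Prop :=
  DiscreteTopology Γ ∧ CompactSpace (G ⧸ Γ)

end Pool.Agent.Lib.MP_96637b_nt
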