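import Pool.Agent.Lib.MP_96637b_nt.Defs

/-!
Abstract homomorphisms from `SL₂` of a field to real matrices of determinant one.
-/

open scoped MatrixGroups

noncomputable section

namespace Pool.Agent.Lib.MP_96637b_nt.NI

/-- Real two by two matrices. -/
abbrev M2 : Type := Matrix (Fin 2) (Fin 2) ℝ

section Mat

theorem ch {B : M2} (h : B.det = 1) : B * B = B.trace • B - 1 := by
  rw [Matrix.det_fin_two] at h
  ext i j
  fin_cases i <;> fin_cases j <;>
    simp [Matrix.mul_apply, Fin.sum_univ_two, Matrix.trace_fin_two] <;> linarith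

theorem pow_step {B : M2} (h : B.det = 1) {n : ℕ} {p q : ℝ} (hn : B ^ n = p • B - q • 1) :
    B ^ (n + 1) = (B.trace * p - q) • B - p • 1 := by
  rw [pow_succ, hn, sub_mul, smul_mul_assoc, ch h, smul_mul_assoc, one_mul]
  module

theorem trace_lin (B : M2) (p q : ℝ) : (p • B - q • (1 : M2)).trace = p * B.trace - 2 * q := by
  simp [Matrix.trace_sub, mul_comm]

theorem pow_unip {B : M2} (h : B.det = 1) (h2 : B.trace = 2) (n : ℕ) :
    B ^ n = (n : ℝ) • B - ((n : ℝ) - 1) • 1 := by
  induction n with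
  | zero => simp
  | succ n ih =>
    rw [pow_step h ih, h2]
    push_cast
    module

theorem trace_pow15 {B : M2} (h : B.det = 1) (h4 : (B ^ 4).trace = B.trace) :
    (B ^ 15).trace = 2 := by
  have e1 : B ^ 1 = (1 : ℝ) • B - (0 : ℝ) • 1 := by simp
  have e3 := pow_step h (pow_step h e1)
  have e4 := pow_step h e3
  have e5 := pow_step h e4
  rw [e4, trace_lin] at h4
  have h5 : (B.trace - 2) * ((B.trace + 1) * (B.trace ^ 2 + B.trace - 1)) = 0 := by
    linear_combination h4
  rcases mul_eq_zero.1 h5 with h6 | h6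
  · rw [pow_unip h (by linarith), trace_lin]
    push_cast
    linarith
  rcases mul_eq_zero.1 h6 with h7 | h7
  · have : B ^ 3 = 1 := by
      rw [e3, show B.trace = -1 by linarith]
      module
    rw [show 15 = 3 * 5 by rfl, pow_mul, this]
    simp
  · have : B ^ 5 = 1 := by
      rw [e5]
      generalize B.trace = t at h7
      match_scalars
      · linear_combination (t ^ 2 - t - 1) * h7
      · linear_combination (1 - t) * h7
    rw [show 15 = 5 * 3 by rfl, pow_mul, this]
    simp

theorem pair_conj {A B : M2} (hA : A.det = 1) (hB : B.det = 1) (tA : A.trace = 2)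
    (tB : B.trace = 2) (h : A * B * A = B * A * B) (hne : A ≠ B) :
    ∃ X : M2, X.det ≠ 0 ∧ A * X = X * !![1, 1; 0, 1] ∧ B * X = X * !![1, 0; -1, 1] := by
  obtain ⟨a, b, c, rfl⟩ : ∃ a b c : ℝ, A = !![1 + a, b; c, 1 - a] := by
    refine ⟨A 0 0 - 1, A 0 1, A 1 0, ?_⟩
    rw [Matrix.trace_fin_two] at tA
    ext i j
    fin_cases i <;> fin_cases j <;> simp
    linarith
  obtain ⟨a', b', c', rfl⟩ : ∃ a b c : ℝ, B = !![1 + a, b; c, 1 - a] := by
    refine ⟨B 0 0 - 1, B 0 1, B 1 0, ?_⟩
    rw [Matrix.trace_fin_two] at tB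
    ext i j
    fin_cases i <;> fin_cases j <;> simp
    linarith
  rw [Matrix.det_fin_two_of] at hA hB
  have dA : a ^ 2 + b * c = 0 := by linarith
  have dB : a' ^ 2 + b' * c' = 0 := by linarith
  simp only [Matrix.mul_fin_two] at h
  have h00 := congrFun (congrFun h 0) 0
  have h01 := congrFun (congrFun h 0) 1
  have h10 := congrFun (congrFun h 1) 0
  simp only [Matrix.of_apply, Matrix.cons_val', Matrix.cons_val_zero, Matrix.cons_val_one,
    Matrix.cons_val_fin_one] at h00 h01 h10
  have k : 1 + (2 * a * a' + b * c' + c * b') = 0 := by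
    by_contra k
    have k0 : a = a' := sub_eq_zero.1 ((mul_eq_zero.1 (show
      (1 + (2 * a * a' + b * c' + c * b')) * (a - a') = 0 by
        linear_combination h00 - (1 - a') * dA + (1 - a) * dB)).resolve_left k)
    have k1 : b = b' := sub_eq_zero.1 ((mul_eq_zero.1 (show
      (1 + (2 * a * a' + b * c' + c * b')) * (b - b') = 0 by
        linear_combination h01 + b' * dA - b * dB)).resolve_left k)
    have k2 : c = c' := sub_eq_zero.1 ((mul_eq_zero.1 (show
      (1 + (2 * a * a' + b * c' + c * b')) * (c - c') = 0 by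
        linear_combination h10 + c' * dA - c * dB)).resolve_left k)
    exact hne (by rw [k0, k1, k2])
  by_cases hc : c' = 0
  · have hb : b' ≠ 0 := by
      rintro rfl
      have : a' = 0 := by simpa using dB
      simp [this, hc] at k
    refine ⟨!![a * b' - b * a', b'; c * b' + a * a', -a'], ?_, ?_, ?_⟩
    · rw [Matrix.det_fin_two_of]
      intro h0
      exact hb (by linear_combination h0 + b' * k - b * dB)
    · simp only [Matrix.mul_fin_two]
      congrm !![?_, ?_; ?_, ?_]
      · linear_combination b' * dA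
      · ring
      · linear_combination (-a') * dA
      · ring
    · simp only [Matrix.mul_fin_two]
      congrm !![?_, ?_; ?_, ?_]
      · linear_combination b' * k - b * dB
      · ring
      · linear_combination (-a') * k + a * dB
      · linear_combination dB
  · refine ⟨!![a * a' + b * c', a'; c * a' - a * c', c'], ?_, ?_, ?_⟩
    · rw [Matrix.det_fin_two_of]
      intro h0
      exact hc (by linear_combination -h0 + c' * k - c * dB)
    · simp only [Matrix.mul_fin_two]
      congrm !![?_, ?_; ?_, ?_]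
      · linear_combination a' * dA
      · ring
      · linear_combination c' * dA
      · ring
    · simp only [Matrix.mul_fin_two]
      congrm !![?_, ?_; ?_, ?_]
      · linear_combination a' * k - a * dB
      · linear_combination dB
      · linear_combination c' * k - c * dB
      · ring

end Mat

variable {F : Type} [Field F]

/-- Upper unipotent element. -/
def up (t : F) : SL(2, F) := ⟨!![1, t; 0, 1], by simp [Matrix.det_fin_two]⟩

/-- Lower unipotent element. -/
def lo (t : F) : SL(2, F) := ⟨!![1, 0; t, 1], by simp [Matrix.det_fin_two]⟩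

/-- Weyl element. -/
def wy (t : F) : SL(2, F) := up t * lo (-t⁻¹) * up t

theorem up_add (s t : F) : up (s + t) = up s * up t :=
  Subtype.ext (by simp [up, add_comm])

theorem up_zero : up (0 : F) = 1 := Subtype.ext (by simp [up, Matrix.one_fin_two])

theorem up_pow (t : F) (n : ℕ) : up t ^ n = up (n * t) := by
  induction n with
  | zero => simp [up_zero]
  | succ n ih => rw [pow_succ, ih, ← up_add, Nat.cast_succ, add_mul, one_mul]

theorem wy_val {t : F} (ht : t ≠ 0) : (wy t).1 = !![0, t; -t⁻¹, 0] := by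
  simp [wy, up, lo, ht]

theorem braid {t : F} (ht : t ≠ 0) : wy t = lo (-t⁻¹) * up t * lo (-t⁻¹) :=
  Subtype.ext (by rw [wy_val ht]; simp [up, lo, ht])

theorem lo_wy (t : F) : lo (-t) * wy 1 = wy 1 * up t :=
  Subtype.ext (by simp [wy, up, lo])

theorem wy_mul {s t : F} (hs : s ≠ 0) (ht : t ≠ 0) : wy (-(s * t)) = wy s * wy 1 * wy t :=
  Subtype.ext (by
    rw [Matrix.SpecialLinearGroup.coe_mul, Matrix.SpecialLinearGroup.coe_mul, wy_val hs, wy_val ht,
      wy_val one_ne_zero, wy_val (neg_ne_zero.2 (mul_ne_zero hs ht))]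
    simp [mul_comm, inv_neg])

theorem wy_pow_four : wy (1 : F) ^ 4 = 1 :=
  Subtype.ext (by
    rw [Matrix.SpecialLinearGroup.coe_pow, wy_val one_ne_zero]
    simp [pow_succ, Matrix.one_fin_two])

theorem up_conj {s : F} (hs : s ≠ 0) (t : F) : ∃ d : SL(2, F), up (s ^ 2 * t) * d = d * up t :=
  ⟨⟨!![s, 0; 0, s⁻¹], by simp [Matrix.det_fin_two, hs]⟩, Subtype.ext (by
    simp [up]
    field_simp)⟩

theorem sl2_induction {P : SL(2, F) → Prop} (hu : ∀ t, P (up t)) (hl : ∀ t, P (lo t))
    (hm : ∀ g h, P g → P h → P (g * h)) (g : SL(2, F)) : P g := by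
  have key : ∀ g : SL(2, F), g.1 1 0 ≠ 0 → P g := fun g hg => by
    have hd := g.2
    rw [Matrix.det_fin_two] at hd
    have : g = up ((g.1 0 0 - 1) / g.1 1 0) * lo (g.1 1 0) * up ((g.1 1 1 - 1) / g.1 1 0) := by
      apply Subtype.ext
      ext i j
      fin_cases i <;> fin_cases j <;> simp [up, lo] <;> field_simp
      · ring
      · linear_combination -hd
      · ring
    rw [this]
    exact hm _ _ (hm _ _ (hu _) (hl _)) (hu _)
  by_cases h : g.1 1 0 = 0
  · have h2 : g = lo (-1) * (lo 1 * g) := by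
      rw [← mul_assoc, show (lo (-1) * lo 1 : SL(2, F)) = 1 from
        Subtype.ext (by simp [lo, Matrix.one_fin_two]), one_mul]
    rw [h2]
    refine hm _ _ (hl _) (key _ ?_)
    have hd := g.2
    rw [Matrix.det_fin_two, h, mul_zero, sub_zero] at hd
    have : (lo 1 * g).1 1 0 = g.1 0 0 + g.1 1 0 := by
      simp [lo, Matrix.mul_apply, Fin.sum_univ_two]
    rw [this, h, add_zero]
    exact left_ne_zero_of_mul_eq_one hd
  · exact key g h

variable (f : SL(2, F) →* M2)

theorem conj_eq {a b d : SL(2, F)} (h : a * d = d * b) : f a = f d * f b * f d⁻¹ := by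
  rw [← map_mul, ← map_mul, ← h, mul_inv_cancel_right]

theorem trace_conj {a b d : SL(2, F)} (h : a * d = d * b) : (f a).trace = (f b).trace := by
  rw [conj_eq f h, Matrix.trace_mul_cycle, ← map_mul, inv_mul_cancel, map_one, one_mul]

theorem one_conj {a b d : SL(2, F)} (h : a * d = d * b) (hb : f b = 1) : f a = 1 := by
  rw [conj_eq f h, hb, mul_one, ← map_mul, mul_inv_cancel, map_one]

theorem trace_up [CharZero F] (hd : ∀ g, (f g).det = 1) (t : F) : (f (up t)).trace = 2 := by
  have h : up t = up (t / 15) ^ 15 := by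
    rw [up_pow]
    congr 1
    push_cast
    ring
  rw [h, map_pow]
  refine trace_pow15 (hd _) ?_
  obtain ⟨d, hd⟩ := up_conj (two_ne_zero : (2 : F) ≠ 0) (t / 15)
  rw [← map_pow, up_pow, ← trace_conj f hd]
  norm_num

theorem up_scale (hsq : ∀ t : F, ∃ s, t = s ^ 2 ∨ t = -s ^ 2) {t : F} (h : f (up t) = 1)
    (ht : t ≠ 0) (r : F) : f (up r) = 1 := by
  obtain ⟨s, hs⟩ := hsq (r / t)
  by_cases h0 : s = 0
  · have : r = 0 := by simpa [h0, ht] using hs
    rw [this, up_zero, map_one]
  obtain ⟨d, hd⟩ := up_conj h0 t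
  have h1 := one_conj f hd h
  rcases hs with hs | hs
  · rwa [← hs, div_mul_cancel₀ _ ht] at h1
  · have h2 : up r * up (s ^ 2 * t) = 1 := by
      rw [← up_add, ← up_zero, ← div_mul_cancel₀ r ht, hs]
      congr 1
      ring
    have h3 := congrArg f h2
    rwa [map_mul, h1, mul_one, map_one] at h3

theorem triv_of_up (hsq : ∀ t : F, ∃ s, t = s ^ 2 ∨ t = -s ^ 2) (h : f (up 1) = 1)
    (g : SL(2, F)) : f g = 1 := by
  have hu := up_scale f hsq h one_ne_zero
  refine sl2_induction (P := fun g => f g = 1) hu (fun t => ?_) (fun g h hg hh => ?_) g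
  · simpa using one_conj f (lo_wy (-t)) (hu _)
  · rw [map_mul, hg, hh, one_mul]

theorem hom_normal [CharZero F] (hsq : ∀ t : F, ∃ s, t = s ^ 2 ∨ t = -s ^ 2)
    (hd : ∀ g, (f g).det = 1) (h1 : f (up 1) = !![1, 1; 0, 1])
    (h2 : f (lo (-1)) = !![1, 0; -1, 1]) : ∃ m : F →+* ℝ, ∀ g, f g = g.1.map m := by
  have hu : ∀ t, f (up t) = !![1, f (up t) 0 1; 0, 1] := fun t => by
    have c : f (up t) * f (up 1) = f (up 1) * f (up t) := by
      rw [← map_mul, ← map_mul, ← up_add, ← up_add, add_comm]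
    have c0 := congrFun (congrFun c 0) 0
    have c1 := congrFun (congrFun c 0) 1
    have tr := trace_up f hd t
    rw [Matrix.trace_fin_two] at tr
    simp [h1, Matrix.mul_apply, Fin.sum_univ_two] at c0 c1
    ext i j
    fin_cases i <;> fin_cases j <;> simp <;> linarith
  obtain ⟨m, hm⟩ : ∃ m : F → ℝ, ∀ t, f (up t) = !![1, m t; 0, 1] := ⟨_, hu⟩
  have inj : ∀ {a b : ℝ}, (!![1, a; 0, 1] : M2) = !![1, b; 0, 1] → a = b := fun h => by
    simpa using congrFun (congrFun h 0) 1
  have m1 : m 1 = 1 := inj ((hm 1).symm.trans h1)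
  have m0 : m 0 = 0 := inj (by rw [← hm, up_zero, map_one, Matrix.one_fin_two])
  have madd : ∀ s t, m (s + t) = m s + m t := fun s t => inj (by
    rw [← hm, up_add, map_mul, hm, hm]
    simp [add_comm])
  have mneg : ∀ t, m (-t) = -m t := fun t => by
    have := madd t (-t)
    rw [add_neg_cancel, m0] at this
    linarith
  have hw : f (wy 1) = !![0, 1; -1, 0] := by
    rw [wy, map_mul, map_mul, inv_one, h1, h2]
    simp
  have hl : ∀ t, f (lo t) = !![1, 0; m t, 1] := fun t => by
    have c := congrArg f (lo_wy (-t))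
    rw [map_mul, map_mul, hw, hm, neg_neg, mneg] at c
    have c00 := congrFun (congrFun c 0) 0
    have c01 := congrFun (congrFun c 0) 1
    have c10 := congrFun (congrFun c 1) 0
    have c11 := congrFun (congrFun c 1) 1
    simp [Matrix.mul_apply, Fin.sum_univ_two] at c00 c01 c10 c11
    ext i j
    fin_cases i <;> fin_cases j <;> simp [c00, c01, c10, c11]
  have hwy : ∀ t, t ≠ 0 → f (wy t) = !![0, m t; -m t⁻¹, 0] := fun t ht => by
    have h0 : m t ≠ 0 := fun h0 => by
      have := up_scale f hsq (t := t) (by rw [hm, h0, Matrix.one_fin_two]) ht 1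
      rw [h1, Matrix.one_fin_two] at this
      exact one_ne_zero (inj this)
    have c := congrArg f (braid ht)
    rw [wy] at c ⊢
    simp only [map_mul, hm, hl, mneg, Matrix.mul_fin_two] at c ⊢
    have c01 := congrFun (congrFun c 0) 1
    simp only [Matrix.of_apply, Matrix.cons_val', Matrix.cons_val_zero, Matrix.cons_val_one,
      Matrix.cons_val_fin_one] at c01
    have k : m t * m t⁻¹ = 1 := mul_left_cancel₀ h0 (by linear_combination -c01)
    congrm !![?_, ?_; ?_, ?_]
    · linear_combination -k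
    · linear_combination (-m t) * k
    · ring
    · linear_combination -k
  have mmul : ∀ s t, m (s * t) = m s * m t := fun s t => by
    by_cases hs : s = 0
    · simp [hs, m0]
    by_cases ht : t = 0
    · simp [ht, m0]
    have c := congrArg f (wy_mul hs ht)
    rw [map_mul, map_mul, hwy s hs, hwy t ht, hw, hwy _ (neg_ne_zero.2 (mul_ne_zero hs ht)),
      mneg] at c
    simpa using congrFun (congrFun c 0) 1
  let μ : F →+* ℝ := ⟨⟨⟨m, m1⟩, mmul⟩, m0, madd⟩
  have hμ : ∀ t, μ t = m t := fun _ => rfl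
  refine ⟨μ, sl2_induction (fun t => ?_) (fun t => ?_) fun g h hg hh => ?_⟩
  · rw [hm]
    ext i j
    fin_cases i <;> fin_cases j <;> simp [up, hμ, m0, m1]
  · rw [hl]
    ext i j
    fin_cases i <;> fin_cases j <;> simp [lo, hμ, m0, m1]
  · rw [map_mul, hg, hh, Matrix.SpecialLinearGroup.coe_mul, Matrix.map_mul]

theorem hom_cases [CharZero F] (hsq : ∀ t : F, ∃ s, t = s ^ 2 ∨ t = -s ^ 2)
    (hd : ∀ g, (f g).det = 1) : (∀ g, f g = 1) ∨
      ∃ (X : M2) (m : F →+* ℝ), X.det ≠ 0 ∧ ∀ g, f g * X = X * g.1.map m := by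
  by_cases h : f (up 1) = 1
  · exact Or.inl (triv_of_up f hsq h)
  have t1 := trace_up f hd 1
  have b := congrArg f (braid (one_ne_zero : (1 : F) ≠ 0))
  rw [wy, inv_one] at b
  simp only [map_mul] at b
  obtain ⟨X, hX, x1, x2⟩ := pair_conj (hd _) (hd _) t1 ((trace_conj f (lo_wy 1)).trans t1) b
    (fun e => h (by
      have c := congrArg f (wy_pow_four (F := F))
      rw [wy, inv_one, map_pow, map_mul, map_mul, ← e, map_one, ← pow_two, ← pow_succ, ← pow_mul,
        pow_unip (hd _) t1] at c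
      have c2 : (12 : ℝ) • (f (up 1) - 1) = 0 := by
        rw [← sub_eq_zero.2 c]
        push_cast
        module
      exact sub_eq_zero.1 ((smul_eq_zero.1 c2).resolve_left (by norm_num))))
  have hu : IsUnit X.det := isUnit_iff_ne_zero.2 hX
  have i1 := Matrix.mul_nonsing_inv X hu
  have i2 := Matrix.nonsing_inv_mul X hu
  let f' : SL(2, F) →* M2 :=
    { toFun := fun g => X⁻¹ * (f g * X)
      map_one' := by rw [map_one, one_mul, i2]
      map_mul' := fun g g' => by
        rw [map_mul, mul_assoc X⁻¹, mul_assoc (f g) X, ← mul_assoc X, i1, one_mul, mul_assoc] }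
  have hf' : ∀ g, f' g = X⁻¹ * (f g * X) := fun _ => rfl
  obtain ⟨m, hm⟩ := hom_normal f' hsq (fun g => by
      rw [hf', Matrix.det_mul, Matrix.det_mul, hd, one_mul, ← Matrix.det_mul, i2, Matrix.det_one])
    (by rw [hf', x1, ← mul_assoc, i2, one_mul]) (by rw [hf', x2, ← mul_assoc, i2, one_mul])
  exact Or.inr ⟨X, m, hX, fun g => by rw [← hm, hf', ← mul_assoc, i1, one_mul]⟩

theorem real_sq (t : ℝ) : ∃ s, t = s ^ 2 ∨ t = -s ^ 2 := by
  refine ⟨√|t|, ?_⟩
  rw [Real.sq_sqrt (abs_nonneg t)]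
  rcases abs_choice t with h | h <;> simp [h]

theorem real_cases (f : SL(2, ℝ) →* M2) (hd : ∀ g, (f g).det = 1) : (∀ g, f g = 1) ∨
    ∃ X : M2, X.det ≠ 0 ∧ ∀ g, f g * X = X * g.1 := by
  refine (hom_cases f real_sq hd).imp id fun ⟨X, m, hX, h⟩ => ⟨X, hX, fun g => ?_⟩
  rw [h, Subsingleton.elim m (RingHom.id ℝ)]
  simp

theorem complex_triv (f : SL(2, ℂ) →* M2) (hd : ∀ g, (f g).det = 1) (g : SL(2, ℂ)) :
    f g = 1 := by
  rcases hom_cases f (fun t => by
    obtain ⟨s, hs⟩ := IsAlgClosed.exists_pow_nat_eq t two_pos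
    exact ⟨s, Or.inl hs.symm⟩) hd with h | ⟨-, m, -, -⟩
  · exact h g
  · have := congrArg m Complex.I_mul_I
    rw [map_mul, map_neg, map_one] at this
    nlinarith [mul_self_nonneg (m Complex.I)]

/-- A non-trivial homomorphism to `SL₂(ℝ)` is conjugate to one of the two real projections. -/
theorem GG_cases (φ : GG →* SL(2, ℝ)) (hφ : ∃ g, φ g ≠ 1) : ∃ X : M2, X.det ≠ 0 ∧
    ((∀ g, (φ g).1 * X = X * g.1.1) ∨ ∀ g, (φ g).1 * X = X * g.2.1.1) := by
  let ψ : GG →* M2 :=
    { toFun := fun g => (φ g).1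
      map_one' := by simp
      map_mul' := fun g h => by simp }
  have hψ : ∀ g, ψ g = (φ g).1 := fun _ => rfl
  let f1 := ψ.comp (MonoidHom.inl _ _)
  let f2 := ψ.comp ((MonoidHom.inr _ _).comp (MonoidHom.inl _ _))
  let f3 := ψ.comp ((MonoidHom.inr _ _).comp (MonoidHom.inr _ _))
  have hs : ∀ g : GG, (φ g).1 = f1 g.1 * f2 g.2.1 := fun ⟨a, b, c⟩ => by
    have h : ((a, b, c) : GG) = (a, 1, 1) * (1, b, 1) * (1, 1, c) := by simp
    have h3 : ψ (1, 1, c) = 1 := complex_triv f3 (fun g => (φ _).2) c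
    have h4 := congrArg ψ h
    rwa [map_mul, map_mul, h3, mul_one] at h4
  have hc : ∀ a b, f1 a * f2 b = f2 b * f1 a := fun a b => by
    change ψ (a, 1, 1) * ψ (1, b, 1) = ψ (1, b, 1) * ψ (a, 1, 1)
    rw [← map_mul, ← map_mul]
    simp
  rcases real_cases f1 (fun g => (φ _).2) with h1 | ⟨X, hX, h1⟩
  · rcases real_cases f2 (fun g => (φ _).2) with h2 | ⟨X, hX, h2⟩
    · obtain ⟨g, hg⟩ := hφ
      exact absurd (Subtype.ext (by rw [hs, h1, h2, one_mul]; rfl)) hg
    · exact ⟨X, hX, Or.inr fun g => by rw [hs, h1, one_mul, h2]⟩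
  · refine ⟨X, hX, Or.inl fun g => ?_⟩
    have hu : IsUnit X.det := isUnit_iff_ne_zero.2 hX
    have i1 := Matrix.mul_nonsing_inv X hu
    have i2 := Matrix.nonsing_inv_mul X hu
    have k : ∀ a : SL(2, ℝ), a.1 * (X⁻¹ * f2 (up 1) * X) = X⁻¹ * f2 (up 1) * X * a.1 := fun a => by
      have e : a.1 = X⁻¹ * f1 a * X := by rw [mul_assoc, h1, ← mul_assoc, i2, one_mul]
      rw [e]
      simp only [mul_assoc]
      rw [← mul_assoc X, ← mul_assoc X, i1, one_mul, one_mul, ← mul_assoc (f1 a), hc, mul_assoc]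
    have tr : (X⁻¹ * f2 (up 1) * X).trace = 2 := by
      rw [Matrix.trace_mul_cycle, i1, one_mul]
      exact trace_up f2 (fun g => (φ _).2) 1
    have e : X⁻¹ * f2 (up 1) * X = 1 := by
      generalize X⁻¹ * f2 (up 1) * X = Y at k tr
      have c0 := congrFun (congrFun (k (up 1)) 0) 0
      have c1 := congrFun (congrFun (k (up 1)) 0) 1
      have c2 := congrFun (congrFun (k (lo 1)) 0) 0
      rw [Matrix.trace_fin_two] at tr
      simp [up, lo, Matrix.mul_apply, Fin.sum_univ_two] at c0 c1 c2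
      ext i j
      fin_cases i <;> fin_cases j <;> simp <;> linarith
    have e2 : f2 (up 1) = 1 := by
      have : f2 (up 1) = X * (X⁻¹ * f2 (up 1) * X) * X⁻¹ := by
        rw [← mul_assoc, ← mul_assoc, i1, one_mul, mul_assoc, i1, mul_one]
      rw [this, e, mul_one, i1]
    rw [hs, triv_of_up f2 real_sq e2, mul_one, h1]

end Pool.Agent.Lib.MP_96637b_nt.NI
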