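import Pool.Agent.Lib.MP_96637b_nt.NMod
import Pool.Agent.Lib.MP_96637b_nt.NHom
import Pool.Agent.Lib.MP_96637b_nt.Embed

/-!
The two subgroups are not conjugate.
-/

open scoped Quaternion

noncomputable section

namespace Pool.Agent.Lib.MP_96637b_nt.NI

open R4

theorem ent {B : M9} {s s' a a' : F9} (h : B * el s a = el s' a' * B) :
    B 0 0 * s = s' * B 0 0 + s' * a' * B 1 0 ∧
    B 0 0 * (s * a) + B 0 1 * s ^ 3 = s' * B 0 1 + s' * a' * B 1 1 ∧
    B 1 0 * s = s' ^ 3 * B 1 0 ∧ B 1 0 * (s * a) + B 1 1 * s ^ 3 = s' ^ 3 * B 1 1 := by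
  have h00 := congrFun (congrFun h 0) 0
  have h01 := congrFun (congrFun h 0) 1
  have h10 := congrFun (congrFun h 1) 0
  have h11 := congrFun (congrFun h 1) 1
  simp only [el, Matrix.mul_apply, Fin.sum_univ_two, Matrix.of_apply, Matrix.cons_val',
    Matrix.cons_val_zero, Matrix.cons_val_one, Matrix.cons_val_fin_one, mul_zero, add_zero,
    zero_mul, zero_add] at h00 h01 h10 h11
  exact ⟨h00, h01, h10, h11⟩

theorem diag_eq {B : M9} (hB : B ≠ 0) {s s' a a' : F9} (h : B * el s a = el s' a' * B)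
    (hs : s ^ 4 = 1) (hs' : s' ^ 4 = 1) (h1 : s = 1 ∨ s' = 1) : s = 1 ∧ s' = 1 := by
  have k : ∀ s s' : F9, s ^ 4 = 1 → s' ^ 4 = 1 → (s = 1 ∨ s' = 1) → (s = 1 ∧ s' = 1) ∨
      (s - s' ≠ 0 ∧ s ^ 3 - s' ≠ 0 ∧ s - s' ^ 3 ≠ 0 ∧ s ^ 3 - s' ^ 3 ≠ 0) := by decide +kernel
  refine (k s s' hs hs' h1).resolve_right fun ⟨k1, k2, k3, k4⟩ => hB ?_
  obtain ⟨e1, e2, e3, e4⟩ := ent h
  have c : B 1 0 = 0 := (mul_eq_zero.1 (by linear_combination e3)).resolve_right k3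
  have d : B 1 1 = 0 :=
    (mul_eq_zero.1 (by linear_combination e4 - s * a * c)).resolve_right k4
  have p : B 0 0 = 0 :=
    (mul_eq_zero.1 (by linear_combination e1 + s' * a' * c)).resolve_right k1
  have q : B 0 1 = 0 :=
    (mul_eq_zero.1 (by linear_combination e2 - s * a * p + s' * a' * d)).resolve_right k2
  ext1 i j
  fin_cases i <;> fin_cases j <;> assumption

/-- The shape of a non-invertible intertwiner. -/
def Sing (B : M9) : Prop := B 0 0 = 0 ∧ B 1 0 = 0 ∧ B 1 1 = 0 ∧ B 0 1 ≠ 0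

theorem shape {B : M9} (hB : B ≠ 0) {a a' : F9} (h : B * el 1 1 = el 1 a' * B)
    (h' : B * el 1 a = el 1 1 * B) : Sing B ∨ (B 1 1 ≠ 0 ∧ B.det ≠ 0) := by
  obtain ⟨-, e2, -, e4⟩ := ent h
  obtain ⟨-, f2, -, -⟩ := ent h'
  have c : B 1 0 = 0 := by linear_combination e4
  by_cases d : B 1 1 = 0
  · have p : B 0 0 = 0 := by linear_combination e2 + a' * d
    refine Or.inl ⟨p, c, d, fun q => hB ?_⟩
    ext1 i j
    fin_cases i <;> fin_cases j <;> assumption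
  · refine Or.inr ⟨d, ?_⟩
    rw [Matrix.det_fin_two, c, mul_zero, sub_zero]
    exact mul_ne_zero (fun p => d (by linear_combination a * p - f2)) d

section Key

variable {τ : R4 →+* F9} {w w' : R4} (h : Pr τ w w') {b : QO}
include h

theorem key_reg (hb : (rho τ b).det ≠ 0) {Z Y : QO} (e : (3 : R4) • Z = qn b • Y) :
    rho τ Y = 0 := by
  have := congrArg (rho τ) e
  rw [rho_smul, rho_smul, ← h.mul, map_mul, h.zero, zero_mul, zero_smul, ← rho_det] at this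
  ext1 i j
  exact (mul_eq_zero.1 (congrFun (congrFun this i) j).symm).resolve_left hb

theorem key_sing (hb : Sing (rho τ b)) : ∃ n c : F9, c ≠ 0 ∧ ∀ X Y : QO,
    (3 : R4) • (b * X * star b) = qn b • Y →
      n • rho τ Y = !![0, c * rho τ X 1 0; 0, 0] := by
  obtain ⟨p, c, d, q⟩ := hb
  obtain ⟨n, hn⟩ := h.ker (qn b) (by rw [← rho_det, Matrix.det_fin_two, p, c]; simp)
  refine ⟨τ n, -(τ w' * rho τ b 0 1 ^ 2), neg_ne_zero.2 (mul_ne_zero h.ne (pow_ne_zero _ q)),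
    fun X Y e => ?_⟩
  have hw : w ≠ 0 := fun e => absurd h.nrm (by rw [e]; decide)
  rw [← h.mul, hn, mul_smul, mul_smul] at e
  have e2 : w' • (b * X * star b) = n • Y := by
    ext1
    · exact mul_left_cancel₀ hw (congrArg (·.re) e)
    · exact mul_left_cancel₀ hw (congrArg (·.imI) e)
    · exact mul_left_cancel₀ hw (congrArg (·.imJ) e)
    · exact mul_left_cancel₀ hw (congrArg (·.imK) e)
  rw [← rho_smul, ← e2, rho_smul, map_mul, map_mul, rho_star, Matrix.adjugate_fin_two,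
    Matrix.eta_fin_two (rho τ b), Matrix.eta_fin_two (rho τ X), p, c, d]
  ext1 i j
  fin_cases i <;> fin_cases j <;> simp
  ring

theorem key_ne {n c x : F9} (hc : c ≠ 0) (hx : x ≠ 0) {Y : M9}
    (e : n • Y = !![0, c * x; 0, 0]) : n ≠ 0 ∧ Y ≠ 0 := by
  have := congrFun (congrFun e 0) 1
  constructor <;> rintro rfl <;> simp [hc, hx] at this

theorem divide {P : QO → Prop} (hP : ∀ (c : R4) (p : QO), c ≠ 0 → P (c • p) → P p)
    (hmin : ∀ p, p ≠ 0 → P p → (nrm (qn b)).natAbs ≤ (nrm (qn p)).natAbs) (h0 : b ≠ 0)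
    (hb : P b) : rho τ b ≠ 0 := fun e => by
  obtain ⟨p, rfl⟩ := h.rho_ker e
  have hw : w ≠ 0 := fun e => absurd h.nrm (by rw [e]; decide)
  have hp : p ≠ 0 := fun e => h0 (by rw [e, smul_zero])
  have h1 := hmin p hp (hP w p hw hb)
  have h2 : nrm (qn p) ≠ 0 := fun e => hp (eq_zero_of_qn (eq_zero_of_nrm e))
  rw [qn_smul, nrm_mul, nrm_pow, h.nrm] at h1
  omega

end Key

theorem one_iff {δ : unitary QO} (h : δ ∈ Hq true) : rho r1 δ = 1 ↔ rho r2 δ = 1 := by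
  obtain ⟨s, a, hs, h⟩ := h
  rw [RR_apply, hh, Prod.mk.injEq] at h
  rw [h.1, h.2]
  clear h
  revert s a
  decide +kernel

/-- First deep element. -/
def X1 : QO := ⟨⟨-3, 0, -3, 3⟩, ⟨-3, 0, 3, 0⟩, ⟨0, 0, -2, 1⟩, ⟨2, 2, 0, 1⟩⟩

/-- Second deep element. -/
def X2 : QO := ⟨⟨-3, 0, 0, 0⟩, ⟨-1, 0, -2, 2⟩, ⟨0, 0, -1, 1⟩, ⟨-2, -2, -1, -1⟩⟩

theorem qn_X1 : qn (1 + (3 : R4) • X1) = 1 := by decide +kernel

theorem qn_X2 : qn (1 + (3 : R4) • X2) = 1 := by decide +kernel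

/-- `b` conjugates the first group to the second one. -/
def Cj (b : QO) : Prop :=
  (∀ γ ∈ Gam0 ⊓ Hq false, ∃ δ ∈ Hq true, b * γ = δ * b) ∧
    ∀ δ ∈ Gam0 ⊓ Hq true, ∃ γ ∈ Hq false, b * γ = δ * b

theorem Cj.cancel (c : R4) (p : QO) (hc : c ≠ 0) (h : Cj (c • p)) : Cj p := by
  have k : ∀ γ δ : QO, c • p * γ = δ * c • p → p * γ = δ * p := fun γ δ e => by
    rw [smul_mul_assoc, mul_smul_comm] at e
    ext1
    · exact mul_left_cancel₀ hc (congrArg (·.re) e)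
    · exact mul_left_cancel₀ hc (congrArg (·.imI) e)
    · exact mul_left_cancel₀ hc (congrArg (·.imJ) e)
    · exact mul_left_cancel₀ hc (congrArg (·.imK) e)
  exact ⟨fun γ hγ => (h.1 γ hγ).imp fun δ hδ => ⟨hδ.1, k _ _ hδ.2⟩,
    fun δ hδ => (h.2 δ hδ).imp fun γ hγ => ⟨hγ.1, k _ _ hγ.2⟩⟩

theorem not_Cj {b : QO} (h0 : b ≠ 0) : ¬ Cj b := by
  intro hb
  obtain ⟨b, ⟨h0, hb⟩, hm⟩ := (measure fun p : QO => (nrm (qn p)).natAbs).wf.has_min
    {p | p ≠ 0 ∧ Cj p} ⟨b, h0, hb⟩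
  have hmin : ∀ p, p ≠ 0 → Cj p → (nrm (qn b)).natAbs ≤ (nrm (qn p)).natAbs :=
    fun p h1 h2 => not_lt.1 (hm p ⟨h1, h2⟩)
  have n1 := divide pr1 Cj.cancel hmin h0 hb
  have n2 := divide pr2 Cj.cancel hmin h0 hb
  have A : ∀ a, ∃ a', rho r1 b * el 1 a = el 1 a' * rho r1 b ∧
      rho r2 b * el 1 a = el 1 (a' ^ 3) * rho r2 b := fun a => by
    obtain ⟨γ, hγ, e⟩ := hh_mem false a
    obtain ⟨δ, ⟨s, a', hs, e'⟩, k⟩ := hb.1 γ hγ
    rw [RR_apply, Prod.mk.injEq] at e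
    rw [RR_apply, hh, Prod.mk.injEq] at e'
    have k1 := congrArg (rho r1) k
    have k2 := congrArg (rho r2) k
    rw [map_mul, map_mul, e.1, e'.1] at k1
    rw [map_mul, map_mul, e.2, e'.2] at k2
    obtain ⟨-, rfl⟩ := diag_eq n1 k1 (one_pow _) hs (Or.inl rfl)
    exact ⟨a', k1, by simpa [fr] using k2⟩
  have B : ∃ a, rho r1 b * el 1 a = el 1 1 * rho r1 b ∧
      rho r2 b * el 1 a = el 1 1 * rho r2 b := by
    obtain ⟨δ, hδ, e'⟩ := hh_mem true 1
    obtain ⟨γ, ⟨s, a, hs, e⟩, k⟩ := hb.2 δ hδ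
    rw [RR_apply, Prod.mk.injEq] at e'
    rw [RR_apply, hh, Prod.mk.injEq] at e
    have k1 := congrArg (rho r1) k
    have k2 := congrArg (rho r2) k
    rw [map_mul, map_mul, e.1, e'.1] at k1
    rw [map_mul, map_mul, e.2, e'.2] at k2
    obtain ⟨rfl, -⟩ := diag_eq n1 k1 hs (one_pow _) (Or.inr rfl)
    exact ⟨a, k1, by simpa [fr] using k2⟩
  have D : ∀ (X : QO) (_ : qn (1 + (3 : R4) • X) = 1), ∃ X' Y : QO, rho r1 X' = rho r1 X ∧
      rho r2 X' = rho r2 X ∧ (3 : R4) • (b * X' * star b) = qn b • Y ∧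
      (rho r1 Y = 0 ↔ rho r2 Y = 0) := fun X h => by
    obtain ⟨γ, hγ, X', -, e, e1, e2⟩ := deep X h
    obtain ⟨δ, hδ, k⟩ := hb.1 γ hγ
    refine ⟨X', δ - 1, e1, e2, ?_, ?_⟩
    · have k2 : (3 : R4) • (b * X') = (δ - 1) * b := by
        rw [sub_mul, ← k, e, mul_add, mul_smul_comm, mul_one, one_mul, add_sub_cancel_left]
      rw [← smul_mul_assoc, k2, mul_assoc, mul_star_qn, QuaternionAlgebra.mul_coe_eq_smul]
    · simpa only [map_sub, map_one, sub_eq_zero] using one_iff hδ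
  obtain ⟨a, A1, A2⟩ := A 1
  obtain ⟨a0, B1, B2⟩ := B
  obtain ⟨U1, Y1, u1, u2, u3, u4⟩ := D X1 qn_X1
  obtain ⟨U2, Y2, v1, v2, v3, v4⟩ := D X2 qn_X2
  have x11 : rho r1 X1 1 0 ≠ 0 := by decide +kernel
  have x12 : rho r2 X1 1 0 = 0 := by decide +kernel
  have x22 : rho r2 X2 1 0 ≠ 0 := by decide +kernel
  rcases shape n1 A1 B1 with s1 | ⟨t1, s1⟩ <;> rcases shape n2 A2 B2 with s2 | ⟨t2, s2⟩
  · obtain ⟨n, c, hc, k⟩ := key_sing pr1 s1
    obtain ⟨n', c', hc', k'⟩ := key_sing pr2 s2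
    have z1 := (key_ne pr1 hc (u1 ▸ x11) (k _ _ u3)).2
    have z2 := (key_ne pr2 hc' (v2 ▸ x22) (k' _ _ v3)).1
    have z3 := k' _ _ u3
    rw [u2, x12, mul_zero] at z3
    refine z1 (u4.2 ?_)
    ext1 i j
    have := congrFun (congrFun z3 i) j
    refine (mul_eq_zero.1 (this.trans ?_)).resolve_left z2
    fin_cases i <;> fin_cases j <;> rfl
  · obtain ⟨n, c, hc, k⟩ := key_sing pr1 s1
    exact (key_ne pr1 hc (u1 ▸ x11) (k _ _ u3)).2 (u4.2 (key_reg pr2 s2 u3))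
  · obtain ⟨n, c, hc, k⟩ := key_sing pr2 s2
    exact (key_ne pr2 hc (v2 ▸ x22) (k _ _ v3)).2 (v4.1 (key_reg pr1 s1 v3))
  · obtain ⟨a', C1, C2⟩ := A io
    have e1 := (ent A1).2.1
    have e2 := (ent A2).2.1
    have e3 := (ent C1).2.1
    have e4 := (ent C2).2.1
    have e5 : a' = a * io := sub_eq_zero.1 ((mul_eq_zero.1 (show (a' - a * io) * rho r1 b 1 1 = 0 by
      linear_combination io * e1 - e3)).resolve_right t1)
    have e6 : a' ^ 3 = a ^ 3 * io := sub_eq_zero.1 ((mul_eq_zero.1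
      (show (a' ^ 3 - a ^ 3 * io) * rho r2 b 1 1 = 0 by
        linear_combination io * e2 - e4)).resolve_right t2)
    have k : ∀ a : F9, (a * io) ^ 3 = a ^ 3 * io → a = 0 := by decide +kernel
    have e7 : a = 0 := k a (e5 ▸ e6)
    have e8 := (ent B1).2.1
    exact t1 (by linear_combination a0 * e1 - e8 + a0 * rho r1 b 1 1 * e7)

/-! ### From real matrices to the order -/

theorem exists_lam {x : ℝ} (hx : x ≠ 0) : ∃ Λ : ℝ →+ ℝ, Λ x ≠ 0 ∧
    (∀ (c : R4) (y : ℝ), Λ (e1 c * y) = e1 c * Λ y) ∧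
    ∀ y, ∃ (D : ℕ) (c : R4), D ≠ 0 ∧ D * Λ y = e1 c := by
  obtain ⟨μ, hμ⟩ := not_forall.1 (mt (Module.forall_dual_apply_eq_zero_iff ℚ x).1 hx)
  let Λ : ℝ →+ ℝ :=
    { toFun := fun y => μ (tr ^ 3 * y) + μ (tr ^ 2 * y) * tr + μ (tr * y) * tr ^ 2 + μ y * tr ^ 3
      map_zero' := by simp
      map_add' := fun y z => by
        simp only [mul_add, map_add]
        push_cast
        ring }
  have hΛ : ∀ y, Λ y =
      μ (tr ^ 3 * y) + μ (tr ^ 2 * y) * tr + μ (tr * y) * tr ^ 2 + μ y * tr ^ 3 := fun _ => rfl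
  have ht : ∀ y, Λ (tr * y) = tr * Λ y := fun y => by
    have : tr ^ 3 * (tr * y) = y + y := by linear_combination y * tr_pow
    rw [hΛ, hΛ, this, map_add, ← mul_assoc, ← mul_assoc, ← pow_succ, ← pow_two]
    push_cast
    linear_combination (-(μ y : ℝ)) * tr_pow
  have hD : ∀ y, ∃ (D : ℕ) (c : R4), D ≠ 0 ∧ D * Λ y = e1 c ∧ (c.d : ℚ) = D * μ y := fun y => by
    obtain ⟨⟨D, hD⟩, h⟩ := IsLocalization.exist_integer_multiples_of_finite (nonZeroDivisors ℤ)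
      ![μ (tr ^ 3 * y), μ (tr ^ 2 * y), μ (tr * y), μ y]
    have hD0 : D ≠ 0 := nonZeroDivisors.ne_zero hD
    choose z hz using h
    have k : ∀ i, ((D * z i : ℤ) : ℚ) = (D.natAbs * D.natAbs : ℕ) *
        ![μ (tr ^ 3 * y), μ (tr ^ 2 * y), μ (tr * y), μ y] i := fun i => by
      have := hz i
      simp only [algebraMap_int_eq, eq_intCast, zsmul_eq_mul] at this
      rw [Int.cast_mul, this, ← mul_assoc, ← Int.cast_natCast, Int.natAbs_mul_self, Int.cast_mul]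
    refine ⟨D.natAbs * D.natAbs, ⟨D * z 0, D * z 1, D * z 2, D * z 3⟩, by simpa using hD0, ?_, k 3⟩
    have k' := fun i => congrArg (Rat.cast (K := ℝ)) (k i)
    simp only [Rat.cast_intCast, Rat.cast_mul, Rat.cast_natCast] at k'
    rw [e1, ev_apply, k' 0, k' 1, k' 2, k' 3, hΛ]
    simp only [Matrix.cons_val]
    ring
  refine ⟨Λ, fun h => ?_, fun c y => ?_, fun y => (hD y).imp fun D => Exists.imp fun c h =>
    ⟨h.1, h.2.1⟩⟩
  · obtain ⟨D, c, h1, h2, h3⟩ := hD x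
    rw [h, mul_zero] at h2
    rw [ev_eq_zero h2.symm] at h3
    exact mul_ne_zero (Nat.cast_ne_zero.2 h1) hμ (by simpa using h3.symm)
  · have : e1 c * y = c.a • y + c.b • (tr * y) + c.c • (tr * (tr * y)) +
        c.d • (tr * (tr * (tr * y))) := by
      rw [e1, ev_apply]
      simp only [zsmul_eq_mul]
      ring
    rw [this, map_add, map_add, map_add, map_zsmul, map_zsmul, map_zsmul, map_zsmul, e1, ev_apply]
    simp only [zsmul_eq_mul, ht]
    ring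

theorem rational {X : M2} (hX : X ≠ 0) : ∃ b : QO, b ≠ 0 ∧ ∀ γ δ : QO,
    emb e1 s1 s1_sq δ * X = X * emb e1 s1 s1_sq γ → b * γ = δ * b := by
  have hs : s1 ≠ 0 := (Real.sqrt_pos.2 e1_pi7_pos).ne'
  obtain ⟨x, hx⟩ : ∃ x : Fin 4 → ℝ,
      X = !![x 0 + s1 * x 2, -x 1 + s1 * x 3; x 1 + s1 * x 3, x 0 - s1 * x 2] := by
    refine ⟨![(X 0 0 + X 1 1) / 2, (X 1 0 - X 0 1) / 2, (X 0 0 - X 1 1) / (2 * s1),
      (X 0 1 + X 1 0) / (2 * s1)], ?_⟩
    ext i j
    fin_cases i <;> fin_cases j <;> simp <;> field_simp <;> ring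
  obtain ⟨i, hi⟩ : ∃ i, x i ≠ 0 := by
    by_contra h
    push Not at h
    refine hX ?_
    rw [hx]
    ext i j
    fin_cases i <;> fin_cases j <;> simp [h]
  obtain ⟨Λ, h1, h2, h3⟩ := exists_lam hi
  choose D c hD hc using fun i => h3 (x i)
  have hb : ∀ i, ∃ b : R4, e1 b = (∏ j, D j : ℕ) * Λ (x i) := fun i =>
    ⟨(∏ j ∈ Finset.univ.erase i, D j : ℕ) * c i, by
      rw [map_mul, map_natCast, ← hc, ← mul_assoc, ← Nat.cast_mul,
        Finset.prod_erase_mul _ _ (Finset.mem_univ i)]⟩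
  choose b hb using hb
  have lin : ∀ k : Fin 4 → R4, ∑ i, e1 (k i) * x i = 0 → ∑ i, k i * b i = 0 := fun k hk => by
    have := congrArg Λ hk
    rw [map_sum, map_zero] at this
    refine ev_eq_zero (t := tr) (ht := tr_pow) ?_
    change e1 _ = 0
    rw [map_sum, ← mul_zero ((∏ j, D j : ℕ) : ℝ), ← this, Finset.mul_sum]
    exact Finset.sum_congr rfl fun i _ => by rw [map_mul, hb, h2]; ring
  refine ⟨⟨b 0, b 1, b 2, b 3⟩, fun h => ?_, fun γ δ h => ?_⟩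
  · have h4 : b i = 0 := by
      fin_cases i
      exacts [congrArg (·.re) h, congrArg (·.imI) h, congrArg (·.imJ) h, congrArg (·.imK) h]
    have := hb i
    rw [h4, map_zero] at this
    exact mul_ne_zero (Nat.cast_ne_zero.2 (Finset.prod_ne_zero_iff.2 fun j _ => hD j)) h1
      this.symm
  · rw [hx, emb_apply, emb_apply, Matrix.mul_fin_two, Matrix.mul_fin_two] at h
    have h00 := congrFun (congrFun h 0) 0
    have h01 := congrFun (congrFun h 0) 1
    have h10 := congrFun (congrFun h 1) 0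
    have h11 := congrFun (congrFun h 1) 1
    simp only [Matrix.of_apply, Matrix.cons_val', Matrix.cons_val_zero, Matrix.cons_val_one,
      Matrix.cons_val_fin_one] at h00 h01 h10 h11
    have l0 := lin ![γ.re - δ.re, δ.imI - γ.imI, pi7 * (γ.imJ - δ.imJ), pi7 * (γ.imK - δ.imK)] (by
      simp only [Fin.sum_univ_four, Matrix.cons_val, map_sub, map_mul, ← s1_sq]
      linear_combination (-1 / 2) * (h00 + h11))
    have l1 := lin ![γ.imI - δ.imI, γ.re - δ.re, -(pi7 * (γ.imK + δ.imK)),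
        pi7 * (γ.imJ + δ.imJ)] (by
      simp only [Fin.sum_univ_four, Matrix.cons_val, map_sub, map_mul, map_add, map_neg, ← s1_sq]
      linear_combination (1 / 2) * (h01 - h10))
    have l2 := lin ![γ.imJ - δ.imJ, -(γ.imK + δ.imK), γ.re - δ.re, γ.imI + δ.imI] (by
      simp only [Fin.sum_univ_four, Matrix.cons_val, map_sub, map_add, map_neg]
      apply mul_left_cancel₀ hs
      linear_combination (1 / 2) * (h11 - h00))
    have l3 := lin ![γ.imK - δ.imK, γ.imJ + δ.imJ, -(γ.imI + δ.imI), γ.re - δ.re] (by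
      simp only [Fin.sum_univ_four, Matrix.cons_val, map_sub, map_add, map_neg]
      apply mul_left_cancel₀ hs
      linear_combination (-1 / 2) * (h01 + h10))
    simp only [Fin.sum_univ_four, Matrix.cons_val] at l0 l1 l2 l3
    ext1 <;> simp
    · linear_combination l0
    · linear_combination l1
    · linear_combination l2
    · linear_combination l3

/-! ### The other real place -/

theorem not_swap : ∃ γ ∈ Gam0 ⊓ Hq false, ∀ δ : QO, qn δ = 1 → e1 δ.re ≠ e2 (γ : QO).re := by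
  obtain ⟨γ, hγ, -, e, -⟩ := deep X1 qn_X1
  refine ⟨γ, hγ, fun δ hδ h => ?_⟩
  have c1 : cong ⟨3, 1, 0, 1⟩ ((1 + (3 : R4) • X1) ^ 3) 1 :=
    ⟨⟨⟨-359721, 301563, -251100, 211734⟩, ⟨39771, -29133, 24462, -23571⟩,
      ⟨-136494, 113094, -94266, 80415⟩, ⟨-61992, 51102, -43164, 37251⟩⟩, by
        rw [pow_succ, pow_two]
        ext1 <;> decide +kernel⟩
  obtain ⟨u, hu⟩ := (cong _).mul (cong_pow c1 38229 rfl) ((cong _).refl (1 + (3 : R4) • X1))
  have e2' : (γ : QO) = 1 + (3 : R4) • X1 + (⟨3, 1, 0, 1⟩ : R4) • u := by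
    rw [one_mul, ← pow_succ] at hu
    rw [e, ← hu]
    rfl
  let σ : R4 → R4 := fun x => ⟨x.a, -x.b, x.c, -x.d⟩
  have h1 : δ.re = σ (γ : QO).re := sub_eq_zero.1 (ev_eq_zero (t := tr) (ht := tr_pow) (by
    change e1 _ = 0
    rw [map_sub, h, e1, e2, ev_apply, ev_apply]
    simp only [σ]
    push_cast
    ring))
  have h2 : red7 δ.re = 3 := by
    have h7 : (7 : ZMod 7) = 0 := by decide
    rw [h1, e2', red7, ev_apply]
    simp [σ, X1]
    linear_combination (-u.re.a - 2 * u.re.d - 17) * h7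
  have h3 := congrArg red7 hδ
  simp only [qn, map_sub, map_add, map_mul, map_pow, red7_pi7, zero_mul, sub_zero, map_one,
    h2] at h3
  revert h3
  generalize red7 δ.imI = y
  revert y
  decide

end Pool.Agent.Lib.MP_96637b_nt.NI
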