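import Pool.Agent.Lib.MP_96637b_nt.Final

/-!
The square of the distinguished element is separated from the twisted conjugates.
-/

open scoped Topology
open Set

noncomputable section

namespace Pool.Agent.Lib.MP_96637b_nt.NI

open R4

/-- Real part of the square. -/
def w2 : R4 := ⟨33, 0, -24, 0⟩

/-- Imaginary part of the square. -/
def x2 : R4 := ⟨0, -28, 0, 20⟩

theorem g0_sq : g0 ^ 2 = ⟨w2, x2, 0, 0⟩ := g0_2

theorem cases2 {q : unitary QO} (hq : q ∈ Gam0) (hw : (q : QO).re = w2) :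
    cong lev q (g0 ^ 2) ∨ cong lev q (star (g0 ^ 2)) := by
  obtain ⟨k, hk⟩ := hq
  have h1 := (cong lev).trans hk (cong_g0_mod k)
  have h2 : red7 w2 = red7 (g0 ^ (k % 8)).re := by
    obtain ⟨u, hu⟩ := h1
    rw [← hw, hu]
    simp [red7_lev]
  have h3 : k % 8 < 8 := Nat.mod_lt _ (by norm_num)
  generalize k % 8 = j at h1 h2 h3
  interval_cases j
  · exact absurd h2 (by rw [pow_zero, red7, ev_apply, ev_apply]; decide)
  · exact absurd h2 (by rw [pow_one, red7, ev_apply, ev_apply]; decide)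
  · exact Or.inl h1
  · exact absurd h2 (by rw [g0_3, red7, ev_apply, ev_apply]; decide)
  · exact absurd h2 (by rw [g0_4, red7, ev_apply, ev_apply]; decide)
  · exact absurd h2 (by rw [g0_5, red7, ev_apply, ev_apply]; decide)
  · have h4 := (cong lev).mul cong_g0_8 ((cong lev).refl (star (g0 ^ 2)))
    rw [one_mul, show g0 ^ 8 * star (g0 ^ 2) = g0 ^ 6 by
      rw [g0_8, g0_2, g0_6]; ext1 <;> decide +kernel] at h4
    exact Or.inr ((cong lev).trans h1 h4)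
  · exact absurd h2 (by rw [g0_7, red7, ev_apply, ev_apply]; decide)

theorem w2_x2 : w2 ^ 2 + x2 ^ 2 = 1 := by decide +kernel

theorem sign_data2 {q : unitary QO} (hq : q ∈ Gam0) (hw : (q : QO).re = w2) :
    ∃ a Y Z : R4, (q : QO).imI ^ 2 = (x2 * (2 * a - 1)) ^ 2 ∧
      0 < nrm a ∧ (2 * a - 1) ^ 2 = 1 + 16 * pi7 ^ 3 * (Y ^ 2 + Z ^ 2) := by
  have hn := mem_unitary_iff.1 q.2
  let e : R4 := ⟨7, 0, 5, 0⟩
  have hlev : lev = x2 * (4 * pi7 * e) := by decide +kernel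
  have hx : x2 ≠ 0 := by decide
  obtain ⟨t, Y, Z, hI, hJ, hK⟩ : ∃ t Y Z : R4, (q : QO).imI ^ 2 = (x2 * (1 + 4 * pi7 * t)) ^ 2 ∧
      (q : QO).imJ = x2 * (4 * pi7 * Y) ∧ (q : QO).imK = x2 * (4 * pi7 * Z) := by
    rcases cases2 hq hw with ⟨u, hu⟩ | ⟨u, hu⟩
    · refine ⟨e * u.imI, e * u.imJ, e * u.imK, ?_, ?_, ?_⟩ <;> rw [hu, hlev, g0_sq] <;> simp <;>
        ring
    · refine ⟨-(e * u.imI), e * u.imJ, e * u.imK, ?_, ?_, ?_⟩ <;> rw [hu, hlev, g0_sq] <;> simp <;>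
        ring
  unfold qn at hn
  rw [hw, hI, hJ, hK] at hn
  have h1 : (1 + 4 * pi7 * t) ^ 2 = 1 + 16 * pi7 ^ 3 * (Y ^ 2 + Z ^ 2) := by
    apply mul_left_cancel₀ (pow_ne_zero 2 hx)
    linear_combination hn - w2_x2
  obtain ⟨s, rfl⟩ : ∃ s, t = 2 * s := ⟨pi7 ^ 2 * (Y ^ 2 + Z ^ 2) - pi7 * t ^ 2, by
    apply mul_left_cancel₀ (by decide : (8 : R4) * pi7 ≠ 0)
    linear_combination h1⟩
  refine ⟨1 + 4 * pi7 * s, Y, Z, by rw [hI]; ring,
    nrm_pos_of_sum_sq _ s pi7 (pi7 * Y) (pi7 * Z) rfl ?_, by linear_combination h1⟩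
  apply mul_left_cancel₀ (by decide : (16 : R4) * pi7 ≠ 0)
  linear_combination h1

theorem tr_sq_gt : 7 / 5 < tr ^ 2 := by
  have h := tr_pow
  have h2 := sq_nonneg tr
  nlinarith

theorem e1_x2_pos : 0 < e1 x2 := by
  have h1 := mul_pos tr_pos (sub_pos.2 tr_sq_gt)
  simp only [e1, ev_apply, x2]
  push_cast
  nlinarith

theorem e2_x2_neg : e2 x2 < 0 := by
  have h1 := mul_pos tr_pos (sub_pos.2 tr_sq_gt)
  simp only [e2, ev_apply, x2]
  push_cast
  nlinarith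

theorem w2_sq_lt (τ : R4 →+* ℝ) (h : τ x2 ≠ 0) : τ w2 ^ 2 < 1 := by
  have := congrArg τ w2_x2
  rw [map_add, map_pow, map_pow, map_one] at this
  nlinarith [sq_pos_of_ne_zero h]

theorem sign_real2 {q : unitary QO} (hq : q ∈ Gam0) (hw : (q : QO).re = w2) :
    e1 (q : QO).imI * e2 (q : QO).imI < 0 := by
  obtain ⟨a, Y, Z, hI, hn, hX⟩ := sign_data2 hq hw
  have h1 : (0 : ℝ) < nrm a := by exact_mod_cast hn
  rw [nrm_eq] at h1
  have h2 : 0 < e1 a * e2 a := pos_of_mul_pos_left h1 (by positivity)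
  have p : ∀ τ : R4 →+* ℝ, 0 < τ pi7 → 1 ≤ (2 * τ a - 1) ^ 2 := fun τ h => by
    have := congrArg τ hX
    simp only [map_pow, map_sub, map_mul, map_add, map_one, map_ofNat] at this
    rw [this, le_add_iff_nonneg_right]
    positivity
  have p1 := p e1 e1_pi7_pos
  have p2 := p e2 e2_pi7_pos
  have h3 : 0 < (2 * e1 a - 1) * (2 * e2 a - 1) := by
    rcases pos_and_pos_or_neg_and_neg_of_mul_pos h2 with ⟨a1, a2⟩ | ⟨a1, a2⟩
    · exact mul_pos (by nlinarith) (by nlinarith)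
    · exact mul_pos_of_neg_of_neg (by linarith) (by linarith)
  have h5 := mul_neg_of_neg_of_pos (mul_neg_of_pos_of_neg e1_x2_pos e2_x2_neg) h3
  rcases sq_eq_sq_iff_eq_or_eq_neg.1 hI with hI | hI <;> rw [hI] <;>
    simp only [map_neg, map_sub, map_mul, map_one, map_ofNat] <;> nlinarith

/-- The separating neighbourhood. -/
def W2 : Set GG := trNhd w2 ∩ ({g | 0 < g.1.1 1 0} ∩ {g | g.2.1.1 1 0 < 0})

theorem W2_mem {q : unitary QO} (hq : (q : QO) = ⟨w2, x2, 0, 0⟩) : W2 ∈ 𝓝 (Phi q) := by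
  have h1 : Continuous fun g : GG => g.1.1 1 0 := by fun_prop
  have h2 : Continuous fun g : GG => g.2.1.1 1 0 := by fun_prop
  refine ((isOpen_trNhd w2).inter ((isOpen_lt continuous_const h1).inter
    (isOpen_lt h2 continuous_const))).mem_nhds ⟨?_, ?_, ?_⟩
  · simpa only [hq] using Phi_mem_trNhd q
  · change 0 < emb e1 s1 s1_sq q 1 0
    simpa [hq, emb_apply] using e1_x2_pos
  · change emb e2 s2 s2_sq q 1 0 < 0
    simpa [hq, emb_apply] using e2_x2_neg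

theorem separation2 (b : GG) (δ : GG) (hδ : δ ∈ Gam) : alpha (b * δ * b⁻¹) ∉ W2 := by
  obtain ⟨q, hq, rfl⟩ := hδ
  rintro ⟨h1, h2, h3⟩
  have hw : (q : QO).re = w2 := by
    refine re_eq_of_traces h1 ?_ ?_ ?_
    · exact (trace_conjSL _ _).trans (trace_conj_SL _ _)
    · exact (trace_conjSL _ _).trans (trace_conj_SL _ _)
    · exact (trace_conjSL _ _).trans (trace_conj_SL _ _)
  have a1 := conj_sign e1 s1 s1_sq q (by rw [hw]; exact w2_sq_lt _ e1_x2_pos.ne') b.1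
  have a2 := conj_sign e2 s2 s2_sq q (by rw [hw]; exact w2_sq_lt _ e2_x2_neg.ne) b.2.1
  change 0 < (conjSL 1 (b.1 * embSL e1 s1 s1_sq q * b.1⁻¹)).1 1 0 at h2
  change (conjSL dd (b.2.1 * embSL e2 s2 s2_sq q * b.2.1⁻¹)).1 1 0 < 0 at h3
  rw [conjSL_one] at h2
  rw [conjSL_dd_10, neg_lt_zero] at h3
  exact (sign_real2 hq hw).not_gt
    (mul_pos (pos_of_mul_pos_left a1 h2.le) (pos_of_mul_pos_left a2 h3.le))

end Pool.Agent.Lib.MP_96637b_nt.NI
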