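import Pool.Agent.Lib.MP_96637b_nt.NTrans
import Pool.Agent.Lib.MP_96637b_nt.NSep
import Pool.Agent.Lib.MP_96637b_nt.NLoc

/-!
The non-isometric example.
-/

open scoped MatrixGroups

noncomputable section

namespace Pool.Agent.Lib.MP_96637b_nt.NI

/-- Elements whose first component comes from one of the two groups. -/
def P1 (b : Bool) : Subgroup GG := ((Hq b).map (embSL e1 s1 s1_sq)).comap (MonoidHom.fst _ _)

theorem center_le (b : Bool) : Subgroup.center GG ≤ P1 b := fun z hz => by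
  have h : z.1 ∈ Subgroup.center SL(2, ℝ) := Subgroup.mem_center_iff.2 fun g =>
    congrArg Prod.fst (Subgroup.mem_center_iff.1 hz (g, 1))
  obtain ⟨r, hr, e⟩ := Matrix.SpecialLinearGroup.mem_center_iff.1 h
  rw [Fintype.card_fin, sq_eq_one_iff] at hr
  rcases hr with rfl | rfl
  · exact ⟨1, one_mem _, Subtype.ext
      (((map_one (emb e1 s1 s1_sq)).trans (map_one _).symm).trans e)⟩
  · refine ⟨-1, neg_mem_Hq (one_mem _), Subtype.ext (Eq.trans ?_ e)⟩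
    change emb e1 s1 s1_sq (-1) = _
    rw [map_neg, map_neg, map_one, map_one]

theorem Lt_le (b : Bool) : Lt b ≤ P1 b := fun _ h => by
  obtain ⟨q, hq, rfl⟩ := mem_Lt.1 h
  exact ⟨q, hq.2, rfl⟩

theorem Lt_alpha_le (b : Bool) : (Lt b).map (alpha : GG →* GG) ≤ P1 b := by
  rintro _ ⟨_, h, rfl⟩
  obtain ⟨q, hq, rfl⟩ := mem_Lt.1 h
  exact ⟨q, hq.2, (conjSL_one _).symm⟩

theorem not_iso (φ : GG ≃* GG) : (Lt false ⊔ Subgroup.center GG).map (φ : GG →* GG) ≠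
    (Lt true).map (alpha : GG →* GG) ⊔ Subgroup.center GG := fun h => by
  have h1 : ∀ γ ∈ Gam0 ⊓ Hq false, ∃ δ ∈ Hq true, embSL e1 s1 s1_sq δ = (φ (Phi γ)).1 :=
    fun γ hγ => (h.le.trans (sup_le (Lt_alpha_le true) (center_le true)))
      ⟨_, Subgroup.mem_sup_left (mem_Lt.2 ⟨γ, hγ, rfl⟩), rfl⟩
  obtain ⟨X, hX, hc | hc⟩ := GG_cases ((MonoidHom.fst _ _).comp (φ : GG →* GG))
    ⟨φ.symm (-1, 1), fun e => by
      have := congrArg (fun g : SL(2, ℝ) => g.1 0 0) e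
      norm_num at this⟩
  · obtain ⟨b, hb, k⟩ := rational (X := X) (fun e => hX (by rw [e, Matrix.det_zero]))
    refine not_Cj hb ⟨fun γ hγ => ?_, fun δ hδ => ?_⟩
    · obtain ⟨δ, hδ, e⟩ := h1 γ hγ
      exact ⟨δ, hδ, k _ _ ((congrArg (fun g : SL(2, ℝ) => g.1 * X) e).trans (hc _))⟩
    · obtain ⟨g, hg, e⟩ := h.ge (Subgroup.mem_sup_left ⟨_, mem_Lt.2 ⟨δ, hδ, rfl⟩, rfl⟩)
      obtain ⟨γ, hγ, e'⟩ := sup_le (Lt_le false) (center_le false) hg
      refine ⟨γ, hγ, k _ _ ?_⟩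
      have e1' : (φ g).1 = embSL e1 s1 s1_sq δ := (congrArg Prod.fst e).trans (conjSL_one _)
      exact ((congrArg (fun g : SL(2, ℝ) => g.1 * X) e1').symm.trans (hc g)).trans
        (congrArg (fun g : SL(2, ℝ) => X * g.1) e').symm
  · obtain ⟨γ, hγ, k⟩ := not_swap
    obtain ⟨δ, -, e⟩ := h1 γ hγ
    have h2 : emb e1 s1 s1_sq δ * X = X * emb e2 s2 s2_sq γ :=
      (congrArg (fun g : SL(2, ℝ) => g.1 * X) e).trans (hc _)
    have h3 := congrArg (fun Y : M2 => (Y * X⁻¹).trace) h2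
    have hu := isUnit_iff_ne_zero.2 hX
    simp only [Matrix.mul_nonsing_inv_cancel_right _ _ hu] at h3
    rw [Matrix.trace_mul_cycle, Matrix.nonsing_inv_mul _ hu, one_mul, trace_emb, trace_emb] at h3
    exact k δ (mem_unitary_iff.1 δ.2) (by linarith)

theorem Lt_le_Gam (b : Bool) : Lt b ≤ Gam := fun _ h =>
  let ⟨q, hq, e⟩ := mem_Lt.1 h
  ⟨q, hq.1, e⟩

theorem main : ∃ Γ₁ Γ₂ : Subgroup GG,
    IsUniformLattice Γ₁ ∧ IsUniformLattice Γ₂ ∧
    IsTorsionFreeSubgroup Γ₁ ∧ IsTorsionFreeSubgroup Γ₂ ∧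
    InjectsInFactors Γ₁ ∧ InjectsInFactors Γ₂ ∧
    (∀ φ : GG ≃* GG,
      (Γ₁ ⊔ Subgroup.center GG).map (φ : GG →* GG) ≠ Γ₂ ⊔ Subgroup.center GG) ∧
    Nonempty (InvariantProb Γ₁) ∧ Nonempty (InvariantProb Γ₂) ∧
    ∀ (m₁ : InvariantProb Γ₁) (m₂ : InvariantProb Γ₂),
      (∀ π : UnitaryDual GG, packetMult π m₁.regular = packetMult π m₂.regular) ∧
      ¬ m₁.regular.Equivalent m₂.regular := by
  obtain ⟨⟨n⟩, n₂, h⟩ := main_abstract_right (Lt true) alpha (fun f g => GG_hom_trivial f g)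
    (Lt_uniform true) adG_h0_invol (mem_Lt.2 ⟨_, g0_sq_mem true, rfl⟩) (W2_mem g0_sq)
    fun b δ hδ => separation2 b δ (Lt_le_Gam _ hδ)
  have hs : ∀ m : InvariantProb (Lt false), m.regular.Equivalent n.regular := fun m =>
    m.toLeft_equiv.symm.trans ((sunada _ _).trans n.toLeft_equiv)
  refine ⟨Lt false, (Lt true).map (alpha : GG →* GG), (Lt_uniform _).toRight,
    ((Lt_uniform _).map _ _).toRight, fun γ hγ => Gam_torsionFree γ (Lt_le_Gam _ hγ), ?_,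
    fun γ hγ => Gam_injects γ (Lt_le_Gam _ hγ), ?_, not_iso, ?_, n₂,
    fun m₁ m₂ => ⟨fun π => ?_, fun e => (h n m₂).2 ((hs m₁).symm.trans e)⟩⟩
  · rintro _ ⟨γ, hγ, rfl⟩ hf
    rw [Gam_torsionFree γ (Lt_le_Gam _ hγ)
      ((alpha.injective.isOfFinOrder_iff (f := (alpha : GG →* GG))).1 hf), map_one]
  · rintro _ ⟨γ, hγ, rfl⟩ hf
    have hinj : ∀ {K : Type} [CommRing K] (h : GL (Fin 2) K) (g : SL(2, K)),
        conjSL h g = 1 → g = 1 := by
      intro K _ h g hg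
      have := conjSL_mul h⁻¹ h g
      rwa [hg, map_one, inv_mul_cancel, conjSL_one, eq_comm] at this
    rw [Gam_injects γ (Lt_le_Gam _ hγ) (hf.imp (hinj _ _) (Or.imp (hinj _ _) (hinj _ _))), map_one]
  · exact (linv_unique (fun f g => GG_hom_trivial f g) (Lt_uniform false)).1.map LInv.toRight
  · refine Eq.trans (congrArg Cardinal.sum (funext fun η => mult_congr (.refl _) (hs m₁)))
      (sum_mult_twist (alpha : GG →* GG) alpha.continuous adG_h0_invol (LPacket π) ?_ _ _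
        (h n m₂).1)
    rintro η ⟨k, hk⟩
    exact ⟨k * h0, (dualTwist_rep _ _ _ η).trans ((hk.twist _).trans
      (twist_twist π.rep (adG k) _ _ (adG_mul k h0)))⟩

end Pool.Agent.Lib.MP_96637b_nt.NI
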