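import Pool.Agent.Lib.MP_96637b_nt.Quat

/-!
Reduction of the quaternion order modulo the two primes above three.
-/

open scoped Quaternion

noncomputable section

namespace Pool.Agent.Lib.MP_96637b_nt.NI

open R4

/-! ### A power that lies in the principal congruence subgroup -/

/-- Chebyshev recursion. -/
def cheb {K : Type} [CommRing K] (x : K) : ℕ → K × K
  | 0 => (0, -1)
  | n + 1 => (2 * x * (cheb x n).1 - (cheb x n).2, (cheb x n).1)

theorem cheb_map {K L : Type} [CommRing K] [CommRing L] (f : K →+* L) (x : K) (n : ℕ) :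
    f (cheb x n).1 = (cheb (f x) n).1 ∧ f (cheb x n).2 = (cheb (f x) n).2 := by
  induction n with
  | zero => simp [cheb]
  | succ n ih => simp [cheb, ih.1, ih.2, map_ofNat]

theorem sq_eq {q : QO} (h : qn q = 1) : q * q = (2 * q.re) • q - 1 := by
  unfold qn at h
  ext1 <;> simp
  · linear_combination -h
  · ring
  · ring
  · ring

theorem pow_cheb {q : QO} (h : qn q = 1) (n : ℕ) :
    q ^ n = (cheb q.re n).1 • q - (cheb q.re n).2 • 1 := by
  induction n with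
  | zero => simp [cheb]
  | succ n ih =>
    rw [pow_succ, ih, sub_mul, smul_mul_assoc, sq_eq h, smul_mul_assoc, one_mul, cheb]
    module

theorem cheb7 : ∀ x y : ZMod 7, x ^ 2 + y ^ 2 = 1 → (cheb x 56).1 = 0 ∧ (cheb x 56).2 + 1 = 0 := by
  decide +kernel

theorem cong_pi7 {q : QO} (h : qn q = 1) : cong pi7 (q ^ 56) 1 := by
  have h1 := congrArg red7 h
  simp only [qn, map_sub, map_add, map_mul, map_pow, red7_pi7, zero_mul, sub_zero, map_one] at h1
  obtain ⟨h2, h3⟩ := cheb7 _ _ h1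
  rw [← (cheb_map red7 _ _).1] at h2
  rw [← (cheb_map red7 _ _).2, ← map_one red7, ← map_add] at h3
  obtain ⟨a, ha⟩ := pi7_dvd_of_red7 h2
  obtain ⟨b, hb⟩ := pi7_dvd_of_red7 h3
  refine ⟨a • q - b • 1, ?_⟩
  rw [pow_cheb h, ha, eq_sub_of_add_eq hb]
  module

theorem cong_th {q : QO} (h : qn q = 1) (n : ℕ) : cong (th ^ (n + 4)) (q ^ 2 ^ (n + 1)) 1 := by
  induction n with
  | zero =>
    refine ⟨q.re • q - 1, ?_⟩
    rw [zero_add, zero_add, pow_one, pow_two, sq_eq h, th_pow_four]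
    module
  | succ n ih =>
    obtain ⟨u, hu⟩ := ih
    refine ⟨th ^ 3 • u + th ^ (n + 3) • (u * u), ?_⟩
    rw [pow_succ 2, pow_mul, hu, pow_two]
    simp only [add_mul, mul_add, one_mul, mul_one, smul_mul_assoc, mul_smul_comm]
    match_scalars
    · ring
    · linear_combination (-th ^ (n + 4)) * th_pow_four
    · ring

/-- The exponent. -/
def ee : ℕ := 3 * 38229 + 1

theorem cong_pow {m : R4} {q : QO} {a c : ℕ} (h : cong m (q ^ a) 1) (b : ℕ) (e : a * b = c) :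
    cong m (q ^ c) 1 := by
  have := (cong m).pow b h
  rwa [one_pow, ← pow_mul, e] at this

theorem cong_ee {q : QO} (h : qn q = 1) : cong lev (q ^ ee) 1 := by
  obtain ⟨u, hu⟩ := cong_pow (cong_pi7 h) 2048 (by decide +kernel : 56 * 2048 = ee)
  obtain ⟨v, hv⟩ := cong_pow (cong_th h 13) 7 (by decide +kernel : 2 ^ (13 + 1) * 7 = ee)
  have e1 : (2 * th ^ 3 * th ^ (13 + 4) - 9 * ⟨15, 11, 9, 8⟩ * pi7 : R4) = 1 := by decide +kernel
  have e2 : lev = th ^ (13 + 4) * pi7 := by decide +kernel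
  have e3 : pi7 • u = th ^ (13 + 4) • v := add_left_cancel (hu.symm.trans hv)
  refine ⟨(2 * th ^ 3) • u - (9 * ⟨15, 11, 9, 8⟩ : R4) • v, ?_⟩
  rw [hu, e2, add_right_inj]
  calc pi7 • u = (2 * th ^ 3 * th ^ (13 + 4)) • pi7 • u -
        (9 * ⟨15, 11, 9, 8⟩ * pi7 : R4) • pi7 • u := by rw [← sub_smul, e1, one_smul]
    _ = _ := by
      nth_rw 2 [e3]
      module

theorem pow_ee_mem (q : unitary QO) : q ^ ee ∈ Gam0 :=
  ⟨0, by simpa using cong_ee (mem_unitary_iff.1 q.2)⟩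

theorem one_add_pow3 (X : QO) (n : ℕ) :
    ∃ Y : QO, (1 + (3 : R4) • X) ^ n = 1 + (3 : R4) • ((n : R4) • X + (3 : R4) • Y) := by
  induction n with
  | zero => exact ⟨0, by simp⟩
  | succ n ih =>
    obtain ⟨Y, hY⟩ := ih
    refine ⟨Y + ((n : R4) • X + (3 : R4) • Y) * X, ?_⟩
    rw [pow_succ, hY]
    simp only [add_mul, mul_add, one_mul, mul_one, smul_mul_assoc, mul_smul_comm]
    push_cast
    module

/-! ### The field with nine elements -/

/-- The field with nine elements. -/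
abbrev F9 : Type := QuadraticAlgebra (ZMod 3) 1 1

instance instFintypeF9 : Fintype F9 := Fintype.ofEquiv _ (QuadraticAlgebra.equivProd 1 1).symm

instance instNoZeroF9 : NoZeroDivisors F9 := ⟨fun {a b} => by revert a b; decide +kernel⟩

/-- A primitive eighth root of unity. -/
def ze : F9 := ⟨0, 1⟩

/-- A square root of `-1`. -/
def io : F9 := ⟨1, 1⟩

theorem io_sq : io * io = -1 := by decide +kernel

theorem three : (3 : F9) = 0 := by decide +kernel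

/-- Matrices over the field with nine elements. -/
abbrev M9 : Type := Matrix (Fin 2) (Fin 2) F9

/-- The matrix of a quaternion modulo a prime above three. -/
def rho (τ : R4 →+* F9) : QO →+* M9 where
  toFun q := !![τ q.re + io * τ q.imI, τ pi7 * (τ q.imJ + io * τ q.imK);
    τ q.imJ - io * τ q.imK, τ q.re - io * τ q.imI]
  map_one' := by simp [Matrix.one_fin_two]
  map_zero' := by
    ext1 i j
    fin_cases i <;> fin_cases j <;> simp
  map_add' p q := by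
    ext1 i j
    fin_cases i <;> fin_cases j <;> simp <;> ring
  map_mul' p q := by
    rw [Matrix.mul_fin_two]
    simp only [QuaternionAlgebra.re_mul, QuaternionAlgebra.imI_mul, QuaternionAlgebra.imJ_mul,
      QuaternionAlgebra.imK_mul, map_add, map_sub, map_mul, map_neg, map_one, map_zero]
    congrm !![?_, ?_; ?_, ?_]
    · linear_combination (-τ p.imI * τ q.imI + τ pi7 * τ p.imK * τ q.imK) * io_sq
    · linear_combination (τ pi7 * (τ p.imK * τ q.imI - τ p.imI * τ q.imK)) * io_sq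
    · linear_combination (τ p.imK * τ q.imI - τ p.imI * τ q.imK) * io_sq
    · linear_combination (-τ p.imI * τ q.imI + τ pi7 * τ p.imK * τ q.imK) * io_sq

theorem rho_apply (τ : R4 →+* F9) (q : QO) : rho τ q =
    !![τ q.re + io * τ q.imI, τ pi7 * (τ q.imJ + io * τ q.imK);
      τ q.imJ - io * τ q.imK, τ q.re - io * τ q.imI] := rfl

theorem rho_smul (τ : R4 →+* F9) (c : R4) (q : QO) : rho τ (c • q) = τ c • rho τ q := by
  ext1 i j
  fin_cases i <;> fin_cases j <;> simp [rho_apply] <;> ring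

theorem rho_star (τ : R4 →+* F9) (q : QO) : rho τ (star q) = (rho τ q).adjugate := by
  rw [Matrix.adjugate_fin_two]
  ext1 i j
  fin_cases i <;> fin_cases j <;> simp [rho_apply] <;> ring

theorem rho_det (τ : R4 →+* F9) (q : QO) : (rho τ q).det = τ (qn q) := by
  rw [rho_apply, Matrix.det_fin_two_of]
  simp only [qn, map_sub, map_add, map_mul, map_pow]
  linear_combination (τ pi7 * τ q.imK ^ 2 - τ q.imI ^ 2) * io_sq

theorem ze_pow : ze ^ 4 = 2 := by decide +kernel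

theorem neg_ze_pow : (-ze) ^ 4 = 2 := by decide +kernel

/-- First reduction. -/
def r1 : R4 →+* F9 := ev ze ze_pow

/-- Second reduction. -/
def r2 : R4 →+* F9 := ev (-ze) neg_ze_pow

/-- The data of a prime above three. -/
structure Pr (τ : R4 →+* F9) (w w' : R4) : Prop where
  mul : w * w' = 3
  zero : τ w = 0
  ne : τ w' ≠ 0
  pi : τ pi7 ≠ 0
  nrm : nrm w = -9
  ker : ∀ x, τ x = 0 → w ∣ x

theorem lin_zero (ε : F9) (hε : ε = ze ∨ ε = -ze) {a b : ℤ} (h : (a : F9) + b * ε = 0) :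
    3 ∣ a ∧ 3 ∣ b := by
  have k : ∀ x y : ZMod 3, ((⟨x, 0⟩ : F9) + ⟨y, 0⟩ * ze = 0 ∨ (⟨x, 0⟩ : F9) + ⟨y, 0⟩ * -ze = 0) →
      x = 0 ∧ y = 0 := by decide +kernel
  have := k a b (by
    rcases hε with rfl | rfl
    · exact Or.inl h
    · exact Or.inr h)
  exact ⟨(ZMod.intCast_zmod_eq_zero_iff_dvd a 3).1 this.1,
    (ZMod.intCast_zmod_eq_zero_iff_dvd b 3).1 this.2⟩

theorem pr1 : Pr r1 ⟨-1, -1, 1, 0⟩ ⟨-1, -1, 0, -1⟩ := by
  refine ⟨by decide +kernel, by decide +kernel, by decide +kernel, by decide +kernel,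
    by decide +kernel, fun x hx => ?_⟩
  have h2 : ze ^ 2 = ze + 1 := by decide +kernel
  obtain ⟨⟨u, hu⟩, ⟨v, hv⟩⟩ := lin_zero ze (Or.inl rfl) (a := x.a + x.c + x.d)
    (b := x.b + x.c + 2 * x.d) (by
      rw [r1, ev_apply] at hx
      push_cast
      linear_combination hx - (x.c + x.d * (ze + 1)) * h2)
  refine ⟨⟨x.c + x.d, x.d, 0, 0⟩ + ⟨-1, -1, 0, -1⟩ * ⟨u, v, 0, 0⟩, ?_⟩
  ext <;> simp <;> omega

theorem pr2 : Pr r2 ⟨-1, 1, 1, 0⟩ ⟨-1, 1, 0, 1⟩ := by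
  refine ⟨by decide +kernel, by decide +kernel, by decide +kernel, by decide +kernel,
    by decide +kernel, fun x hx => ?_⟩
  have h2 : ze ^ 2 = ze + 1 := by decide +kernel
  obtain ⟨⟨u, hu⟩, ⟨v, hv⟩⟩ := lin_zero (-ze) (Or.inr rfl) (a := x.a + x.c - x.d)
    (b := x.b - x.c + 2 * x.d) (by
      rw [r2, ev_apply] at hx
      push_cast
      linear_combination hx - (x.c - x.d * (ze + 1)) * h2)
  refine ⟨⟨x.c - x.d, x.d, 0, 0⟩ + ⟨-1, 1, 0, 1⟩ * ⟨u, v, 0, 0⟩, ?_⟩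
  ext <;> simp <;> omega

theorem Pr.rho_ker {τ : R4 →+* F9} {w w' : R4} (h : Pr τ w w') {q : QO} (hq : rho τ q = 0) :
    ∃ p : QO, q = w • p := by
  have k : ∀ x y : F9, x + io * y = 0 → x - io * y = 0 → x = 0 ∧ y = 0 := by decide +kernel
  have h00 := congrFun (congrFun hq 0) 0
  have h01 := congrFun (congrFun hq 0) 1
  have h10 := congrFun (congrFun hq 1) 0
  have h11 := congrFun (congrFun hq 1) 1
  simp only [rho_apply, Matrix.of_apply, Matrix.cons_val', Matrix.cons_val_zero,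
    Matrix.cons_val_one, Matrix.cons_val_fin_one, Matrix.zero_apply] at h00 h01 h10 h11
  obtain ⟨⟨a, ha⟩, ⟨b, hb⟩⟩ := (k _ _ h00 h11).imp (h.ker _) (h.ker _)
  obtain ⟨⟨c, hc⟩, ⟨d, hd⟩⟩ :=
    (k _ _ ((mul_eq_zero.1 h01).resolve_left h.pi) h10).imp (h.ker _) (h.ker _)
  exact ⟨⟨a, b, c, d⟩, by ext1 <;> simp [ha, hb, hc, hd]⟩

/-! ### The two subgroups -/

/-- Reduction modulo three. -/
def RR : unitary QO →* M9 × M9 :=
  ((rho r1).toMonoidHom.prod (rho r2).toMonoidHom).comp (unitary QO).subtype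

theorem RR_apply (q : unitary QO) : RR q = (rho r1 q, rho r2 q) := rfl

/-- Upper triangular matrices. -/
def el (s a : F9) : M9 := !![s, s * a; 0, s ^ 3]

/-- The identity or the Frobenius map. -/
def fr (b : Bool) (a : F9) : F9 := if b then a ^ 3 else a

/-- The elements of the finite group. -/
def hh (b : Bool) (s a : F9) : M9 × M9 := (el s a, el (s ^ 3) (fr b a))

theorem el_mul (s s' a a' : F9) :
    el s a * el s' a' = el (s * s') (s' ^ 2 * a + a') := by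
  rw [el, el, el, Matrix.mul_fin_two]
  congrm !![?_, ?_; ?_, ?_] <;> ring

theorem hh_mul {s' : F9} (h : s' ^ 4 = 1) (b : Bool) (s a a' : F9) :
    hh b s a * hh b s' a' = hh b (s * s') (s' ^ 2 * a + a') := by
  have k : ∀ (b : Bool) (s a a' : F9), s ^ 4 = 1 →
      (s ^ 3) ^ 2 * fr b a + fr b a' = fr b (s ^ 2 * a + a') := by decide +kernel
  rw [hh, hh, hh, Prod.mk_mul_mk, el_mul, el_mul, k b s' a a' h, mul_pow]

theorem el_one : el 1 0 = 1 := by simp [el, Matrix.one_fin_two]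

theorem hh_one (b : Bool) : hh b 1 0 = 1 := by
  cases b <;> simp [hh, fr, el_one, Prod.one_eq_mk]

/-- The preimage of the finite group. -/
def Hq (b : Bool) : Subgroup (unitary QO) where
  carrier := {q | ∃ s a, s ^ 4 = 1 ∧ RR q = hh b s a}
  one_mem' := ⟨1, 0, one_pow _, by rw [map_one, hh_one]⟩
  mul_mem' := fun ⟨s, a, hs, h⟩ ⟨s', a', hs', h'⟩ =>
    ⟨s * s', _, by rw [mul_pow, hs, hs', one_mul], by rw [map_mul, h, h', hh_mul hs']⟩
  inv_mem' := fun {q} ⟨s, a, hs, h⟩ => by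
    have h3 : (s ^ 3) ^ 4 = 1 := by rw [← pow_mul, mul_comm, pow_mul, hs, one_pow]
    refine ⟨s ^ 3, -((s ^ 3) ^ 2 * a), h3, ?_⟩
    rw [← mul_one (RR q⁻¹), ← hh_one b, ← hs, pow_succ', ← add_neg_cancel ((s ^ 3) ^ 2 * a),
      ← hh_mul h3, ← h, ← mul_assoc, ← map_mul, inv_mul_cancel, map_one, one_mul]

theorem neg_mem_Hq {b : Bool} {q : unitary QO} (h : q ∈ Hq b) : -q ∈ Hq b := by
  obtain ⟨s, a, hs, h⟩ := h
  refine ⟨-s, a, by rw [← hs]; ring, ?_⟩
  have k : ∀ s a : F9, el (-s) a = -el s a := fun s a => by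
    ext1 i j
    fin_cases i <;> fin_cases j <;> simp [el]
    ring
  rw [RR_apply, hh, Prod.mk.injEq] at h
  rw [RR_apply, hh, Odd.neg_pow (by decide), k, k, ← h.1, ← h.2, Unitary.coe_neg, map_neg, map_neg]

/-! ### Explicit elements -/

/-- A unit of norm one. -/
def un (q : QO) (h : qn q = 1) : unitary QO := ⟨q, mem_unitary_iff.2 h⟩

theorem RR_lift {q : unitary QO} {P : M9 × M9} (h : RR q = P) (h3 : P ^ 3 = 1) :
    ∃ γ ∈ Gam0, RR γ = P :=
  ⟨q ^ ee, pow_ee_mem q, by rw [map_pow, h, ee, pow_succ, pow_mul, h3, one_pow, one_mul]⟩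

/-- The image of the lattice. -/
def Im : Submonoid (M9 × M9) := Gam0.toSubmonoid.map RR

theorem mem_Im {P : M9 × M9} : P ∈ Im ↔ ∃ γ ∈ Gam0, RR γ = P := Iff.rfl

theorem up_left (a : F9) : (el 1 a, 1) ∈ Im := by
  have h1 : (el 1 1, 1) ∈ Im := RR_lift (q := un ⟨⟨-5, 6, -3, 0⟩, ⟨-6, 0, 3, 3⟩, ⟨-4, -4, 0, -1⟩,
    ⟨0, 2, -2, 1⟩⟩ (by decide +kernel)) (by decide +kernel) (by decide +kernel)
  have h2 : (el 1 io, 1) ∈ Im := RR_lift (q := un ⟨⟨-5, 6, -3, 0⟩, ⟨6, 0, -3, -3⟩, ⟨0, -2, 2, -1⟩,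
    ⟨-4, -4, 0, -1⟩⟩ (by decide +kernel)) (by decide +kernel) (by decide +kernel)
  have k : ∀ a : F9, ∃ i j : Fin 3, el 1 a = el 1 1 ^ (i : ℕ) * el 1 io ^ (j : ℕ) := by
    decide +kernel
  obtain ⟨i, j, h⟩ := k a
  simpa [h] using Im.mul_mem (Im.pow_mem h1 i) (Im.pow_mem h2 j)

theorem up_right (a : F9) : (1, el 1 a) ∈ Im := by
  have h1 : (1, el 1 1) ∈ Im := RR_lift (q := un ⟨⟨-2, 6, -6, 0⟩, ⟨-3, 6, -6, 0⟩, ⟨-2, -4, 0, -4⟩,
    ⟨0, 2, -4, -2⟩⟩ (by decide +kernel)) (by decide +kernel) (by decide +kernel)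
  have h2 : (1, el 1 io) ∈ Im := RR_lift (q := un ⟨⟨-2, 6, -6, 0⟩, ⟨3, -6, 6, 0⟩, ⟨0, -2, 4, 2⟩,
    ⟨-2, -4, 0, -4⟩⟩ (by decide +kernel)) (by decide +kernel) (by decide +kernel)
  have k : ∀ a : F9, ∃ i j : Fin 3, el 1 a = el 1 1 ^ (i : ℕ) * el 1 io ^ (j : ℕ) := by
    decide +kernel
  obtain ⟨i, j, h⟩ := k a
  simpa [h] using Im.mul_mem (Im.pow_mem h1 i) (Im.pow_mem h2 j)

/-- The torus element. -/
def dz : M9 := !![ze, 0; 0, ze ^ 7]

theorem torus_mem : (1, dz) ∈ Im := by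
  let y₁ := un ⟨⟨1, -3, 3, 0⟩, ⟨0, 1, 2, -2⟩, ⟨-1, 0, -1, -1⟩, ⟨-1, 0, -1, 1⟩⟩ (by decide +kernel)
  let y₂ := un ⟨⟨-2, 3, -3, 3⟩, ⟨-1, -1, 0, 1⟩, ⟨2, 2, 1, 0⟩, ⟨2, -2, 0, -1⟩⟩ (by decide +kernel)
  have h : RR y₁ * RR y₂ = (1, dz) := by decide +kernel
  rw [← h]
  exact Im.mul_mem (RR_lift rfl (by decide +kernel)) (RR_lift rfl (by decide +kernel))

theorem RR_g0_sq : RR (g0u ^ 2) = (el (-io) 0, el io 0) := by
  rw [map_pow]
  decide +kernel

theorem hh_mem (b : Bool) (a : F9) : ∃ γ ∈ Gam0 ⊓ Hq b, RR γ = (el 1 a, el 1 (fr b a)) := by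
  obtain ⟨γ, h1, h2⟩ := Im.mul_mem (up_left a) (up_right (fr b a))
  rw [Prod.mk_mul_mk, mul_one, one_mul] at h2
  exact ⟨γ, ⟨h1, 1, a, one_pow _, by rw [h2, hh, one_pow]⟩, h2⟩

theorem g0_sq_mem (b : Bool) : g0u ^ 2 ∈ Gam0 ⊓ Hq b :=
  ⟨Gam0.pow_mem g0u_mem 2, -io, 0, by decide +kernel, by
    rw [RR_g0_sq]
    revert b
    decide +kernel⟩

theorem deep (X : QO) (h : qn (1 + (3 : R4) • X) = 1) : ∃ γ ∈ Gam0 ⊓ Hq false, ∃ X' : QO,
    γ = un _ h ^ ee ∧ (γ : QO) = 1 + (3 : R4) • X' ∧ rho r1 X' = rho r1 X ∧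
      rho r2 X' = rho r2 X := by
  obtain ⟨Y, hY⟩ := one_add_pow3 X ee
  have k : ∀ τ : R4 →+* F9, τ 3 = 0 ∧ τ (ee : R4) = 1 := fun τ =>
    ⟨by rw [map_ofNat, three], by rw [map_natCast]; decide +kernel⟩
  refine ⟨un _ h ^ ee, ⟨pow_ee_mem _, 1, 0, one_pow _, ?_⟩, _, rfl, hY, ?_, ?_⟩
  · rw [hh_one, map_pow, RR_apply]
    simp [un, rho_smul, (k _).1, Prod.one_eq_mk]
  · simp [rho_smul, k]
  · simp [rho_smul, k]

end Pool.Agent.Lib.MP_96637b_nt.NI
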