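import Pool.Agent.Lib.MP_96637b_nt.Glue

/-!
Finite covers and transplantation.
-/

open MeasureTheory Set
open scoped NNReal InnerProductSpace

noncomputable section

namespace Pool.Agent.Lib.MP_96637b_nt.NI

section Maps

variable {G : Type} [Group G] {Γ Γ' Γ'' : Subgroup G}

/-- The equivariant map `x Γ ↦ x d Γ'`. -/
def qm (d : G) (h : ∀ γ ∈ Γ, d⁻¹ * γ * d ∈ Γ') : G ⧸ Γ → G ⧸ Γ' :=
  Quotient.map' (fun x => x * d) fun a b hab => by
    rw [QuotientGroup.leftRel_apply] at hab ⊢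
    simpa [mul_assoc] using h _ hab

theorem qm_mk (d : G) (h : ∀ γ ∈ Γ, d⁻¹ * γ * d ∈ Γ') (x : G) :
    qm d h (x : G ⧸ Γ) = ((x * d : G) : G ⧸ Γ') := rfl

theorem qm_smul (d : G) (h : ∀ γ ∈ Γ, d⁻¹ * γ * d ∈ Γ') (g : G) (x : G ⧸ Γ) :
    qm d h (g • x) = g • qm d h x := by
  obtain ⟨a, rfl⟩ := QuotientGroup.mk_surjective x
  change ((g * a * d : G) : G ⧸ Γ') = ((g * (a * d) : G) : G ⧸ Γ')
  rw [mul_assoc]

variable [TopologicalSpace G] [IsTopologicalGroup G]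

theorem qm_cont (d : G) (h : ∀ γ ∈ Γ, d⁻¹ * γ * d ∈ Γ') : Continuous (qm d h) :=
  (continuous_mul_const d).quotient_map' _

/-- Uniqueness of the invariant measure. -/
def Uq (Γ : Subgroup G) : Prop := ∀ m m' : LInv Γ, m.μ = m'.μ

theorem qm_mp (m : LInv Γ) (m' : LInv Γ') (u : Uq Γ') (d : G)
    (h : ∀ γ ∈ Γ, d⁻¹ * γ * d ∈ Γ') :
    @MeasurePreserving _ _ (borel (G ⧸ Γ)) (borel (G ⧸ Γ')) (qm d h) m.μ m'.μ := by
  let : MeasurableSpace (G ⧸ Γ) := borel _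
  have : BorelSpace (G ⧸ Γ) := ⟨rfl⟩
  let : MeasurableSpace (G ⧸ Γ') := borel _
  have : BorelSpace (G ⧸ Γ') := ⟨rfl⟩
  have hq := (qm_cont d h).measurable
  refine ⟨hq, u ⟨m.μ.map (qm d h), ?_, fun g => ?_⟩ m'⟩
  · rw [Measure.map_apply hq MeasurableSet.univ]
    simpa using m.prob
  · have hg : Measurable fun x : G ⧸ Γ' => g • x := (continuous_const_smul g).measurable
    refine ⟨hg, ?_⟩
    have : (fun x : G ⧸ Γ' => g • x) ∘ qm d h = qm d h ∘ fun x => g • x :=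
      funext fun x => (qm_smul d h g x).symm
    rw [Measure.map_map hg hq, this, ← Measure.map_map hq (m.inv _).measurable, (m.inv _).map_eq]

/-- Pull-back along the equivariant map. -/
def cm (m : LInv Γ) (m' : LInv Γ') (u : Uq Γ') (d : G) (h : ∀ γ ∈ Γ, d⁻¹ * γ * d ∈ Γ') :
    m'.L2 →ₗᵢ[ℂ] m.L2 :=
  @Lp.compMeasurePreservingₗᵢ (G ⧸ Γ) ℂ (borel _) 2 m.μ _ (G ⧸ Γ') (borel _) m'.μ ℂ _ _ _ _
    (qm d h) (qm_mp m m' u d h)

variable (m : LInv Γ) (m' : LInv Γ') (m'' : LInv Γ'') (u : Uq Γ') (u' : Uq Γ'')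

theorem cm_pull (d : G) (h : ∀ γ ∈ Γ, d⁻¹ * γ * d ∈ Γ') (g : G) (v : m'.L2) :
    cm m m' u d h (m'.pull g v) = m.pull g (cm m m' u d h v) := by
  let : MeasurableSpace (G ⧸ Γ) := borel _
  let : MeasurableSpace (G ⧸ Γ') := borel _
  change Lp.compMeasurePreserving _ (qm_mp m m' u d h) (Lp.compMeasurePreserving _ (m'.inv g) v) =
    Lp.compMeasurePreserving _ (m.inv g) (Lp.compMeasurePreserving _ (qm_mp m m' u d h) v)
  rw [← Lp.compMeasurePreserving_comp_apply, ← Lp.compMeasurePreserving_comp_apply]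
  exact compMP_congr _ _ (funext fun x => (qm_smul d h g x).symm) v

theorem cm_cm (d e f : G) (h : ∀ γ ∈ Γ, d⁻¹ * γ * d ∈ Γ') (h' : ∀ γ ∈ Γ', e⁻¹ * γ * e ∈ Γ'')
    (h'' : ∀ γ ∈ Γ, f⁻¹ * γ * f ∈ Γ'') (hf : (d * e)⁻¹ * f ∈ Γ'') (v : m''.L2) :
    cm m m' u d h (cm m' m'' u' e h' v) = cm m m'' u' f h'' v := by
  let : MeasurableSpace (G ⧸ Γ) := borel _
  let : MeasurableSpace (G ⧸ Γ') := borel _
  let : MeasurableSpace (G ⧸ Γ'') := borel _
  change Lp.compMeasurePreserving _ (qm_mp m m' u d h)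
    (Lp.compMeasurePreserving _ (qm_mp m' m'' u' e h') v) =
      Lp.compMeasurePreserving _ (qm_mp m m'' u' f h'') v
  rw [← Lp.compMeasurePreserving_comp_apply]
  refine compMP_congr _ _ (funext fun x => ?_) v
  obtain ⟨a, rfl⟩ := QuotientGroup.mk_surjective x
  change ((a * d * e : G) : G ⧸ Γ'') = ((a * f : G) : G ⧸ Γ'')
  rw [QuotientGroup.eq]
  simpa [mul_assoc] using hf

theorem cm_id (d : G) (h : ∀ γ ∈ Γ', d⁻¹ * γ * d ∈ Γ') (hd : d ∈ Γ') (v : m'.L2) :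
    cm m' m' u d h v = v := by
  let : MeasurableSpace (G ⧸ Γ') := borel _
  change Lp.compMeasurePreserving _ (qm_mp m' m' u d h) v = v
  rw [compMP_congr _ (MeasurePreserving.id _) (funext fun x => ?_)]
  · exact Lp.compMeasurePreserving_id_apply v
  · obtain ⟨a, rfl⟩ := QuotientGroup.mk_surjective x
    exact QuotientGroup.mk_mul_of_mem a hd

/-- Continuous functions as square integrable functions. -/
def tl [CompactSpace (G ⧸ Γ)] : C(G ⧸ Γ, ℂ) →L[ℂ] m.L2 :=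
  letI : MeasurableSpace (G ⧸ Γ) := borel _
  haveI : BorelSpace (G ⧸ Γ) := ⟨rfl⟩
  haveI : IsProbabilityMeasure m.μ := ⟨m.prob⟩
  ContinuousMap.toLp 2 m.μ ℂ

theorem cm_tl [CompactSpace (G ⧸ Γ)] [CompactSpace (G ⧸ Γ')] (d : G)
    (h : ∀ γ ∈ Γ, d⁻¹ * γ * d ∈ Γ') (f : C(G ⧸ Γ', ℂ)) :
    cm m m' u d h (tl m' f) = tl m (f.comp ⟨qm d h, qm_cont d h⟩) := by
  let : MeasurableSpace (G ⧸ Γ) := borel _
  have : BorelSpace (G ⧸ Γ) := ⟨rfl⟩
  have : IsProbabilityMeasure m.μ := ⟨m.prob⟩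
  let : MeasurableSpace (G ⧸ Γ') := borel _
  have : BorelSpace (G ⧸ Γ') := ⟨rfl⟩
  have : IsProbabilityMeasure m'.μ := ⟨m'.prob⟩
  apply Lp.ext
  exact (Lp.coeFn_compMeasurePreserving _ (qm_mp m m' u d h)).trans
    (((qm_mp m m' u d h).quasiMeasurePreserving.ae_eq_comp
      (ContinuousMap.coeFn_toLp (p := 2) (𝕜 := ℂ) m'.μ f)).trans
      (ContinuousMap.coeFn_toLp (p := 2) (𝕜 := ℂ) m.μ (f.comp ⟨qm d h, qm_cont d h⟩)).symm)

end Maps

theorem equiv_of {G : Type} [Group G] {π₁ π₂ π : URep G} (J₁ : π₁.H →ₗᵢ[ℂ] π.H)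
    (J₂ : π₂.H →ₗᵢ[ℂ] π.H) (h₁ : Intertwines π₁ π J₁) (h₂ : Intertwines π₂ π J₂)
    (T : π.H →L[ℂ] π.H) (hT : Intertwines π π T) (hn : ∀ x, ‖T x‖ = ‖x‖)
    (h12 : ∀ x, ∃ y, J₂ y = T (J₁ x)) (h21 : ∀ y, ∃ x, J₂ y = T (J₁ x)) : π₁.Equivalent π₂ := by
  choose U hU using h12
  let V : π₁.H →ₗᵢ[ℂ] π₂.H :=
    { toFun := U
      map_add' := fun x y => J₂.injective (by simp only [map_add, hU])
      map_smul' := fun c x => J₂.injective (by simp only [map_smul, hU, RingHom.id_apply])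
      norm_map' := fun x => by
        change ‖U x‖ = ‖x‖
        rw [← J₂.norm_map, hU, hn, J₁.norm_map] }
  refine ⟨LinearIsometryEquiv.ofSurjective V fun y => ?_, fun g v => J₂.injective ?_⟩
  · obtain ⟨x, hx⟩ := h21 y
    exact ⟨x, J₂.injective ((hU x).trans hx.symm)⟩
  · change J₂ (U _) = J₂ (π₂.act g (U v))
    rw [hU, h₂, hU, h₁, hT]

section Cover

variable {G D : Type} [Group G] [Group D] (Φ : D →* G) (K : Subgroup D) [hK : K.Normal]

theorem norm_map (d : D) : ∀ γ ∈ K.map Φ, (Φ d)⁻¹ * γ * Φ d ∈ K.map Φ := by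
  rintro _ ⟨k, hk, rfl⟩
  exact ⟨_, hK.conj_mem' k hk d, by simp⟩

variable [TopologicalSpace G] [IsTopologicalGroup G] {Φ K} (m : LInv (K.map Φ))
  (u : Uq (K.map Φ))

/-- The action of the deck group. -/
def lam : D →* (m.L2 →L[ℂ] m.L2) where
  toFun d := (cm m m u (Φ d) (norm_map Φ K d)).toContinuousLinearMap
  map_one' := ContinuousLinearMap.ext (cm_id m u _ _ (by simp))
  map_mul' d e := ContinuousLinearMap.ext fun v =>
    (cm_cm m m m u u _ _ _ _ _ _ (by simp) v).symm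

theorem lam_apply (d : D) (v : m.L2) : lam m u d v = cm m m u (Φ d) (norm_map Φ K d) v := rfl

theorem lam_ker {d : D} (hd : d ∈ K) : lam m u d = 1 :=
  ContinuousLinearMap.ext (cm_id m u _ _ ⟨d, hd, rfl⟩)

theorem lam_star (d : D) : star (lam m u d) = lam m u d⁻¹ := by
  rw [ContinuousLinearMap.star_eq_adjoint, eq_comm, ContinuousLinearMap.eq_adjoint_iff]
  intro x y
  rw [← (cm m m u (Φ d) (norm_map Φ K d)).inner_map_map, ← lam_apply, ← lam_apply,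
    ← mul_apply_eq_comp, ← map_mul, mul_inv_cancel, map_one]
  rfl

omit hK in
theorem le_map {S : Subgroup D} (hS : K ≤ S) : ∀ γ ∈ K.map Φ, (1 : G)⁻¹ * γ * 1 ∈ S.map Φ :=
  fun γ hγ => by simpa using Subgroup.map_mono hS hγ

variable {S : Subgroup D} (hS : K ≤ S) (m' : LInv (S.map Φ)) (u' : Uq (S.map Φ))

theorem lam_cm {d : D} (hd : d ∈ S) (v : m'.L2) :
    lam m u d (cm m m' u' 1 (le_map hS) v) = cm m m' u' 1 (le_map hS) v :=
  cm_cm m m m' u u' _ _ _ _ _ _ ⟨d⁻¹, S.inv_mem hd, by simp⟩ v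

theorem range_cm [K.FiniteIndex] [LocallyCompactSpace G] [T2Space G] [SecondCountableTopology G]
    (hN : IsUniformL (K.map Φ)) (hΓ : IsUniformL (S.map Φ)) (x : m.L2)
    (hx : ∀ d ∈ S, lam m u d x = x) : ∃ y, cm m m' u' 1 (le_map hS) y = x := by
  obtain ⟨_, _⟩ := hN
  obtain ⟨_, _⟩ := hΓ
  let : MeasurableSpace (G ⧸ K.map Φ) := borel _
  have : BorelSpace (G ⧸ K.map Φ) := ⟨rfl⟩
  let : MeasurableSpace (G ⧸ S.map Φ) := borel _
  have : BorelSpace (G ⧸ S.map Φ) := ⟨rfl⟩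
  have : IsProbabilityMeasure m.μ := ⟨m.prob⟩
  have : IsProbabilityMeasure m'.μ := ⟨m'.prob⟩
  have : Fintype (S ⧸ K.subgroupOf S) := Fintype.ofFinite _
  let J := cm m m' u' 1 (le_map hS)
  let P : m.L2 →L[ℂ] m.L2 := ∑ q : S ⧸ K.subgroupOf S, lam m u (q.out : S)
  have key : ∀ z, P z ∈ range J := fun z => by
    refine (ContinuousMap.toLp_denseRange ℂ m.μ ℂ (p := 2) (by simp)).induction_on
      (p := fun z => P z ∈ range J) z
      (J.isometry.isClosedEmbedding.isClosed_range.preimage P.continuous) fun w => ?_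
    let F : G → ℂ := fun g => ∑ q : S ⧸ K.subgroupOf S, w ((g * Φ (q.out : S) : G) : G ⧸ K.map Φ)
    have hF : ∀ a b : G, QuotientGroup.leftRel (S.map Φ) a b → F a = F b := fun a b hab => by
      rw [QuotientGroup.leftRel_apply] at hab
      obtain ⟨s, hs, e⟩ := hab
      rw [← mul_inv_cancel_left a b, ← e]
      refine (Equiv.sum_comp (MulAction.toPerm (⟨s, hs⟩ : S)) _).symm.trans
        (Finset.sum_congr rfl fun q _ => congrArg w (QuotientGroup.eq.2 ?_))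
      have := QuotientGroup.eq.1 ((QuotientGroup.out_eq' _).trans
        (MulAction.Quotient.mk_smul_out (K.subgroupOf S) (⟨s, hs⟩ : S) q).symm)
      exact ⟨_, this, by simp [mul_assoc]⟩
    have hc : Continuous F := continuous_finsetSum _ fun q _ =>
      w.continuous.comp (QuotientGroup.continuous_mk.comp (continuous_mul_const _))
    refine ⟨tl m' ⟨Quotient.lift F hF, hc.quotient_lift hF⟩, ?_⟩
    change _ = P (tl m w)
    refine (cm_tl m m' u' _ _ _).trans ?_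
    simp only [P, sum_apply, lam_apply]
    rw [Finset.sum_congr rfl fun q _ => cm_tl m m u _ _ w, ← map_sum]
    congr 1
    ext y
    obtain ⟨a, rfl⟩ := QuotientGroup.mk_surjective y
    simp only [ContinuousMap.comp_apply, ContinuousMap.coe_mk, qm_mk, mul_one,
      ContinuousMap.coe_sum, Finset.sum_apply]
    rfl
  obtain ⟨y, hy⟩ := key x
  have hP : P x = (Fintype.card (S ⧸ K.subgroupOf S) : ℂ) • x := by
    simp only [P, sum_apply]
    rw [Finset.sum_congr rfl fun q _ => hx _ (q.out : S).2]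
    simp [Nat.cast_smul_eq_nsmul]
  refine ⟨(Fintype.card (S ⧸ K.subgroupOf S) : ℂ)⁻¹ • y, ?_⟩
  rw [map_smul, hy, hP, inv_smul_smul₀ (Nat.cast_ne_zero.2 Fintype.card_ne_zero)]

end Cover

section Lattice

variable {G D : Type} [Group G] [Group D] [TopologicalSpace G] [IsTopologicalGroup G]
  [LocallyCompactSpace G] [T2Space G] [SecondCountableTopology G]

theorem linv_unique (hchar : ∀ (f : G →* ℝ≥0) (g : G), f g = 1) {Γ : Subgroup G}
    (hΓ : IsUniformL Γ) : Nonempty (LInv Γ) ∧ Uq Γ := by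
  obtain ⟨hd, hcpt⟩ := hΓ
  let : MeasurableSpace (G ⧸ Γ) := borel _
  have : BorelSpace (G ⧸ Γ) := ⟨rfl⟩
  borelize G
  obtain ⟨ν, F, hν, hνr, hF, hF1⟩ := exists_haar_fund Γ hchar
  have hμ1 : Measure.map (QuotientGroup.mk : G → G ⧸ Γ) (ν.restrict F) univ = 1 := by
    rw [Measure.map_apply QuotientGroup.continuous_mk.measurable MeasurableSet.univ]
    simpa using hF1
  have : IsProbabilityMeasure _ := ⟨hμ1⟩
  have := fund_openPos Γ ν hF
  have hinv := fund_invariant Γ ν hF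
  have huniq : ∀ m' : LInv Γ, m'.μ = _ := fun m' =>
    have : IsProbabilityMeasure m'.μ := ⟨m'.prob⟩
    invariant_unique ν _ m'.μ hinv m'.inv fun f hc hf u a => unfold_ker Γ ν hF hc hf u a
  exact ⟨⟨⟨_, hμ1, hinv⟩⟩, fun m m' => (huniq m).trans (huniq m').symm⟩

theorem uniform_of_finiteIndex (Φ : D →* G) (h : IsUniformL Φ.range) (S : Subgroup D)
    [S.FiniteIndex] : IsUniformL (S.map Φ) := by
  obtain ⟨h1, h2⟩ := h
  refine ⟨DiscreteTopology.of_subset h1 (Subgroup.map_le_range Φ S), ⟨?_⟩⟩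
  borelize G
  obtain ⟨F, -, ⟨C, hC, hFC⟩, hF⟩ := exists_fund Φ.range
  have : (univ : Set (G ⧸ S.map Φ)) =
      ⋃ q : D ⧸ S, (fun g : G => ((g * Φ q.out : G) : G ⧸ S.map Φ)) '' C := by
    refine (eq_univ_of_forall fun x => ?_).symm
    obtain ⟨a, rfl⟩ := QuotientGroup.mk_surjective x
    obtain ⟨⟨γ, d, hd⟩, hγ, -⟩ := hF a
    refine mem_iUnion.2 ⟨(d⁻¹ : D), _, hFC hγ, QuotientGroup.eq.2 ?_⟩
    obtain ⟨s, hs⟩ := QuotientGroup.mk_out_eq_mul S d⁻¹
    refine ⟨s⁻¹, S.inv_mem s.2, ?_⟩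
    change _ = (a * γ.unop * _)⁻¹ * a
    rw [hs, ← hd]
    simp [mul_assoc]
  rw [this]
  exact isCompact_iUnion fun q =>
    hC.image (QuotientGroup.continuous_mk.comp (continuous_mul_const _))

end Lattice

end Pool.Agent.Lib.MP_96637b_nt.NI
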