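import Pool.Agent.Lib.MP_96637b_nt.NSun
import Pool.Agent.Lib.MP_96637b_nt.NMod
import Pool.Agent.Lib.MP_96637b_nt.Final

/-!
The transplantation operator.
-/

noncomputable section

namespace Pool.Agent.Lib.MP_96637b_nt.NI

section Ring

variable {A : Type} [Ring A] (N : F9 → A)

/-- An element of the group ring. -/
def ga (f : F9 → ℤ) : A := ∑ a, f a • N a

variable {N}

theorem mul_ga (hN : ∀ a b, N (a + b) = N a * N b) (a : F9) (f : F9 → ℤ) :
    N a * ga N f = ga N fun c => f (c - a) := by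
  rw [ga, ga, Finset.mul_sum]
  exact Fintype.sum_equiv (Equiv.addLeft a) _ _ fun b => by
    rw [Equiv.coe_addLeft, add_sub_cancel_left, hN, mul_smul_comm]

theorem ga_mul (hN : ∀ a b, N (a + b) = N a * N b) (f f' : F9 → ℤ) :
    ga N f * ga N f' = ga N fun c => ∑ a, f a * f' (c - a) := by
  rw [ga, Finset.sum_mul]
  simp only [smul_mul_assoc, mul_ga hN]
  simp only [ga, Finset.smul_sum, Finset.sum_smul, smul_smul]
  exact Finset.sum_comm

theorem ga_neg {f : F9 → ℤ} (hf : ∀ a, f (-a) = f a) : ∑ a, f a • N (-a) = ga N f := by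
  exact Fintype.sum_equiv (Equiv.neg F9) _ _ fun b => by rw [Equiv.neg_apply, hf]

theorem comm_ga {x : A} (h : ∀ a, Commute x (N a)) (f : F9 → ℤ) : Commute x (ga N f) :=
  Commute.sum_right _ _ _ fun a _ => (h a).smul_right _

end Ring

/-- Generators of the four lines. -/
def vv : Fin 4 → F9 := ![io, ⟨2, 1⟩, 1, ze]

/-- The coefficients of the idempotents. -/
def ce (m : Fin 4) (a : F9) : ℤ :=
  (if a = 0 ∨ a = vv m ∨ a = -vv m then 3 else 0) - if m = 0 then 0 else 1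

theorem ce_conv : ∀ m m' c, ∑ a, ce m a * ce m' (c - a) = if m = m' then 9 * ce m c else 0 := by
  decide +kernel

theorem ce_sum : ∀ c, ∑ m, ce m c = if c = 0 then 9 else 0 := by decide +kernel

theorem ce_neg : ∀ m a, ce m (-a) = ce m a := by decide +kernel

theorem ce_shift : ∀ (m : Fin 4) a c, ce m (c - (a - io ^ (3 * m : ℕ) * a ^ 3)) = ce m c := by
  decide +kernel

theorem io_pow : ∀ (m : Fin 4) (a : F9), io ^ (m : ℕ) * (io ^ (3 * m : ℕ) * a ^ 3) = a ^ 3 ∧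
    (io ^ (3 * m : ℕ) * a ^ 3) ^ 3 = io ^ (m : ℕ) * a := by decide +kernel

section Op

variable {H : Type} [NormedAddCommGroup H] [InnerProductSpace ℂ H] [CompleteSpace H]

/-- The relations of the finite group. -/
structure Rel (N₁ N₂ : F9 → H →L[ℂ] H) (U g : H →L[ℂ] H) : Prop where
  add : ∀ a b, N₁ (a + b) = N₁ a * N₁ b
  zero : N₁ 0 = 1
  st : ∀ a, star (N₁ a) = N₁ (-a)
  c12 : ∀ a b, Commute (N₂ b) (N₁ a)
  uni : U ∈ unitary (H →L[ℂ] H)
  c1 : ∀ a, Commute U (N₁ a)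
  c2 : ∀ b, U * N₂ b = N₂ (io * b) * U
  g1 : ∀ a, g * N₁ a = N₁ (-a) * g
  gu : Commute g U

theorem Rel.exists_op {N₁ N₂ : F9 → H →L[ℂ] H} {U g : H →L[ℂ] H} (h : Rel N₁ N₂ U g) :
    ∃ T ∈ unitary (H →L[ℂ] H), Commute g T ∧ Commute g (star T) ∧
      (∀ x, Commute x U → (∀ a, Commute x (N₁ a)) → Commute x T) ∧
      (∀ x, (∀ a, (N₁ a * N₂ a) x = x) → ∀ a, (N₁ a * N₂ (a ^ 3)) (T x) = T x) ∧
      ∀ x, (∀ a, (N₁ a * N₂ (a ^ 3)) x = x) → ∀ a, (N₁ a * N₂ a) (star T x) = star T x := by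
  let E : Fin 4 → H →L[ℂ] H := fun m => (9 : ℂ)⁻¹ • ga N₁ (ce m)
  have hE : ∀ x, (∀ a, Commute x (N₁ a)) → ∀ m, Commute x (E m) := fun x hx m =>
    (comm_ga hx _).smul_right _
  have E_mul : ∀ m m', E m * E m' = if m = m' then E m else 0 := fun m m' => by
    simp only [E, smul_mul_smul_comm, ga_mul h.add, ce_conv]
    split_ifs
    · have : ga N₁ (fun c => 9 * ce m c) = (9 : ℂ) • ga N₁ (ce m) := by
        simp only [ga, Finset.smul_sum, mul_smul]
        exact Finset.sum_congr rfl fun a _ => by module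
      rw [this, smul_smul]
      norm_num
    · simp [ga]
  have E_sum : ∑ m, E m = 1 := by
    simp only [E, ga, ← Finset.smul_sum]
    rw [Finset.sum_comm]
    simp only [← Finset.sum_smul, ce_sum, ite_smul, zero_smul, Finset.sum_ite_eq',
      Finset.mem_univ, if_true, h.zero]
    module
  have E_star : ∀ m, star (E m) = E m := fun m => by
    simp only [E, star_smul, ga, star_sum, star_trivial (ce _ _), h.st]
    rw [ga_neg (ce_neg m), star_inv₀, star_ofNat, ga]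
  have E_g : ∀ m, Commute g (E m) := fun m => by
    refine Commute.smul_right ?_ _
    change g * _ = _ * g
    conv_rhs => rw [← ga_neg (ce_neg m)]
    simp only [ga, Finset.mul_sum, Finset.sum_mul, mul_smul_comm, smul_mul_assoc, h.g1]
  have E_sh : ∀ (m : Fin 4) a, N₁ a * E m = E m * N₁ (io ^ (3 * m : ℕ) * a ^ 3) := fun m a => by
    have h1 : N₁ (a - io ^ (3 * m : ℕ) * a ^ 3) * E m = E m := by
      simp only [E, mul_smul_comm, mul_ga h.add, ce_shift]
    have h2 : ∀ b c, Commute (N₁ b) (N₁ c) := fun b c => by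
      change _ * _ = _ * _
      rw [← h.add, ← h.add, add_comm]
    rw [← (hE _ (h2 _) m).eq]
    conv_rhs => rw [← h1, ← mul_assoc, ← h.add, add_sub_cancel]
  have hU := Unitary.mem_iff.1 h.uni
  have hc : Commute U (star U) := hU.2.trans hU.1.symm
  have hs : ∀ x, Commute x U → Commute x (star U) := fun x hx => by
    change _ * _ = _ * _
    rw [← one_mul (x * _), ← hU.1, mul_assoc, ← mul_assoc U, ← hx.eq, mul_assoc x, hU.2, mul_one]
  have hp : ∀ m : ℕ, U ^ m * star U ^ m = 1 := fun m => by rw [← hc.mul_pow, hU.2, one_pow]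
  have hp' : ∀ m : ℕ, star U ^ m * U ^ m = 1 := fun m => by
    rw [← hc.symm.mul_pow, hU.1, one_pow]
  have hUE : ∀ m (k : ℕ), Commute (E m) (U ^ k) := fun m k => (hE U h.c1 m).symm.pow_right k
  have hUE' : ∀ m (k : ℕ), Commute (E m) (star U ^ k) := fun m k =>
    (hs _ (hE U h.c1 m).symm).pow_right k
  have h2 : ∀ (k : ℕ) b, U ^ k * N₂ b = N₂ (io ^ k * b) * U ^ k := fun k b => by
    induction k with
    | zero => simp
    | succ k ih => rw [pow_succ', mul_assoc, ih, ← mul_assoc, h.c2, pow_succ' io, mul_assoc io,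
        mul_assoc]
  have h2' : ∀ (k : ℕ) b, N₂ b * star U ^ k = star U ^ k * N₂ (io ^ k * b) := fun k b => by
    rw [← one_mul (N₂ b * _), ← hp' k, mul_assoc, ← mul_assoc (U ^ k), h2, mul_assoc, hp, mul_one]
  have hT : star (∑ m : Fin 4, U ^ (m : ℕ) * E m) = ∑ m : Fin 4, star U ^ (m : ℕ) * E m := by
    simp only [star_sum, star_mul, star_pow, E_star, (hUE' _ _).eq]
  have key : ∀ V W : H →L[ℂ] H, (∀ m : ℕ, V ^ m * W ^ m = 1) → (∀ m (k : ℕ), Commute (E m) (W ^ k)) →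
      (∑ m : Fin 4, V ^ (m : ℕ) * E m) * ∑ m : Fin 4, W ^ (m : ℕ) * E m = 1 := fun V W h1 h2 => by
    rw [Finset.sum_mul_sum, ← E_sum]
    refine Finset.sum_congr rfl fun m _ => ?_
    have : ∀ k : Fin 4, V ^ (m : ℕ) * E m * (W ^ (k : ℕ) * E k) =
        if m = k then V ^ (m : ℕ) * W ^ (k : ℕ) * E m else 0 := fun k => by
      rw [mul_assoc, ← mul_assoc (E m), (h2 m k).eq, mul_assoc, E_mul]
      split_ifs <;> simp [mul_assoc]
    simp [this, h1]
  refine ⟨∑ m : Fin 4, U ^ (m : ℕ) * E m, Unitary.mem_iff.2 ⟨?_, ?_⟩, ?_, ?_, fun x h1 h2 => ?_,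
    fun x hx a => ?_, fun x hx a => ?_⟩
  · rw [hT]; exact key _ _ hp' hUE
  · rw [hT]; exact key _ _ hp hUE'
  · exact Commute.sum_right _ _ _ fun m _ => (h.gu.pow_right _).mul_right (E_g m)
  · rw [hT]
    exact Commute.sum_right _ _ _ fun m _ => ((hs _ h.gu).pow_right _).mul_right (E_g m)
  · exact Commute.sum_right _ _ _ fun m _ => (h1.pow_right _).mul_right (hE x h2 m)
  · rw [← mul_apply_eq_comp, Finset.mul_sum, sum_apply, sum_apply]
    refine Finset.sum_congr rfl fun m _ => ?_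
    conv_rhs => rw [← hx (io ^ (3 * m : ℕ) * a ^ 3), ← mul_apply_eq_comp]
    congr 1
    rw [mul_assoc, ← mul_assoc (N₂ _), ← (io_pow m a).1, ← h2, (io_pow m a).1, mul_assoc,
      (hE _ (fun c => h.c12 c _) m).eq, ← mul_assoc, ((h.c1 a).symm.pow_right _).eq, mul_assoc,
      ← mul_assoc (N₁ a), E_sh]
    simp only [mul_assoc]
  · rw [hT, ← mul_apply_eq_comp, Finset.mul_sum, sum_apply, sum_apply]
    refine Finset.sum_congr rfl fun m _ => ?_
    conv_rhs => rw [← hx (io ^ (3 * m : ℕ) * a ^ 3), ← mul_apply_eq_comp]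
    congr 1
    rw [mul_assoc, ← mul_assoc (N₂ _), h2', (io_pow m a).2, mul_assoc,
      (hE _ (fun c => h.c12 c _) m).eq, ← mul_assoc, ((hs _ (h.c1 a).symm).pow_right _).eq,
      mul_assoc, ← mul_assoc (N₁ a), E_sh]
    simp only [mul_assoc]

end Op

/-- The embedding of the lattice. -/
def Ph : Gam0 →* GG := Phi.comp Gam0.subtype

/-- The reduction of the lattice. -/
def rr : Gam0 →* M9 × M9 := RR.comp Gam0.subtype

/-- The principal congruence subgroup. -/
def KK : Subgroup Gam0 := rr.toHomUnits.ker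

instance instNormalKK : KK.Normal := MonoidHom.normal_ker _

instance instIndexKK : KK.FiniteIndex := Subgroup.finiteIndex_ker _

theorem mem_KK {d : Gam0} : d ∈ KK ↔ rr d = 1 := Units.ext_iff

/-- The two subgroups. -/
def SS (b : Bool) : Subgroup Gam0 := (Hq b).subgroupOf Gam0

theorem KK_le (b : Bool) : KK ≤ SS b := fun _ h =>
  ⟨1, 0, one_pow _, (mem_KK.1 h).trans (hh_one b).symm⟩

/-- The two lattices. -/
def Lt (b : Bool) : Subgroup GG := (SS b).map Ph

theorem mem_Lt {b : Bool} {γ : GG} : γ ∈ Lt b ↔ ∃ q ∈ Gam0 ⊓ Hq b, Phi q = γ :=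
  ⟨fun ⟨d, h, e⟩ => ⟨d, ⟨d.2, h⟩, e⟩, fun ⟨q, h, e⟩ => ⟨⟨q, h.1⟩, h.2, e⟩⟩

theorem uniform_map (S : Subgroup Gam0) [S.FiniteIndex] : IsUniformL (S.map Ph) := by
  refine uniform_of_finiteIndex Ph ?_ S
  rw [Ph, MonoidHom.range_comp, Subgroup.range_subtype]
  exact ⟨Gam_discrete, Gam_cocompact⟩

theorem Lt_uniform (b : Bool) : IsUniformL (Lt b) :=
  have := Subgroup.finiteIndex_of_le (KK_le b)
  uniform_map _

theorem hh_eq : ∀ (b : Bool) (s a : F9), s ^ 4 = 1 → ∃ j : Fin 4,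
    hh b s a = (el (-io) 0, el io 0) ^ (j : ℕ) * (el 1 a, el 1 (fr b a)) := by decide +kernel

theorem exists_T {H : Type} [NormedAddCommGroup H] [InnerProductSpace ℂ H] [CompleteSpace H]
    (L : Gam0 →* H →L[ℂ] H) (hk : ∀ d ∈ KK, L d = 1) (hs : ∀ d, star (L d) = L d⁻¹) :
    ∃ T ∈ unitary (H →L[ℂ] H), (∀ x, (∀ d, Commute x (L d)) → Commute x T) ∧
      (∀ x, (∀ d ∈ SS false, L d x = x) → ∀ d ∈ SS true, L d (T x) = T x) ∧
      ∀ x, (∀ d ∈ SS true, L d x = x) → ∀ d ∈ SS false, L d (star T x) = star T x := by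
  have hl : ∀ d e, rr d = rr e → L d = L e := fun d e h => by
    have : d⁻¹ * e ∈ KK := mem_KK.2 (by rw [map_mul, ← h, ← map_mul, inv_mul_cancel, map_one])
    rw [← mul_inv_cancel_left d e, map_mul L, hk _ this, mul_one]
  have hm : ∀ d e d' e', rr d * rr e = rr d' * rr e' → L d * L e = L d' * L e' :=
    fun d e d' e' h => by
      rw [← map_mul, ← map_mul]
      exact hl _ _ (by rw [map_mul, map_mul, h])
  have lift : ∀ P ∈ Im, ∃ d, rr d = P := fun P ⟨γ, h, e⟩ => ⟨⟨γ, h⟩, e⟩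
  choose ν₁ h₁ using fun a => lift _ (up_left a)
  choose ν₂ h₂ using fun a => lift _ (up_right a)
  obtain ⟨t, ht⟩ := lift _ torus_mem
  obtain ⟨g, hg, hg'⟩ : ∃ g, rr g = (el (-io) 0, el io 0) ∧ ∀ b, g ∈ SS b :=
    ⟨⟨g0u ^ 2, (g0_sq_mem false).1⟩, RR_g0_sq, fun b => (g0_sq_mem b).2⟩
  have hadd : ∀ a b, L (ν₁ (a + b)) = L (ν₁ a) * L (ν₁ b) := fun a b => by
    rw [← map_mul]
    exact hl _ _ (by simp [h₁, el_mul])
  have hR : Rel (fun a => L (ν₁ a)) (fun a => L (ν₂ a)) (L t) (L g) := by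
    refine ⟨hadd, hk _ (mem_KK.2 (by rw [h₁, el_one, Prod.one_eq_mk])), fun a => ?_,
      fun a b => hm _ _ _ _ (by simp [h₁, h₂]), ?_, fun a => hm _ _ _ _ (by simp [h₁, ht]),
      fun b => hm _ _ _ _ ?_, fun a => hm _ _ _ _ ?_, hm _ _ _ _ ?_⟩
    · rw [hs]
      refine hl _ _ ?_
      have : rr (ν₁ a) * rr (ν₁ (-a)) = 1 := by simp [h₁, el_mul, el_one, Prod.one_eq_mk]
      rw [← mul_one (rr _), ← this, ← mul_assoc, ← map_mul, inv_mul_cancel, map_one, one_mul]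
    · rw [Unitary.mem_iff, hs, ← map_mul, ← map_mul]
      simp
    · rw [h₂, h₂, ht]
      revert b
      decide +kernel
    · rw [h₁, h₁, hg]
      revert a
      decide +kernel
    · rw [hg, ht]
      decide +kernel
  have hW : ∀ b a x, (∀ d ∈ SS b, L d x = x) → (L (ν₁ a) * L (ν₂ (fr b a))) x = x :=
    fun b a x hx => by
      rw [← map_mul]
      exact hx _ ⟨1, a, one_pow _, (map_mul rr _ _).trans (by simp [h₁, h₂, hh])⟩
  have fix : ∀ b x, L g x = x → (∀ a, (L (ν₁ a) * L (ν₂ (fr b a))) x = x) →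
      ∀ d ∈ SS b, L d x = x := fun b x k₁ k₂ d ⟨s, a, hs, e⟩ => by
    obtain ⟨j, hj⟩ := hh_eq b s a hs
    rw [hl d (g ^ (j : ℕ) * (ν₁ a * ν₂ (fr b a))) (e.trans (hj.trans (by simp [h₁, h₂, hg]))),
      map_mul, map_mul, mul_apply_eq_comp, k₂, map_pow, FunLike.coe_pow_eq_iterate]
    exact Function.IsFixedPt.iterate k₁ j
  obtain ⟨T, hT, c₁, c₂, c₃, f₁, f₂⟩ := hR.exists_op
  refine ⟨T, hT, fun x h => c₃ x (h _) fun a => h _,
    fun x hx => fix true _ ?_ (f₁ _ fun a => hW false a x hx),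
    fun x hx => fix false _ ?_ (f₂ _ fun a => hW true a x hx)⟩
  · rw [← mul_apply_eq_comp, c₁.eq, mul_apply_eq_comp, hx g (hg' _)]
  · rw [← mul_apply_eq_comp, c₂.eq, mul_apply_eq_comp, hx g (hg' _)]

theorem sunada (m₁ : LInv (Lt false)) (m₂ : LInv (Lt true)) :
    m₁.regular.Equivalent m₂.regular := by
  have hc : ∀ (f : GG →* NNReal) (g : GG), f g = 1 := fun f g => GG_hom_trivial f g
  obtain ⟨⟨m⟩, u⟩ := linv_unique hc (uniform_map KK)
  have uq := fun b => (linv_unique hc (Lt_uniform b)).2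
  obtain ⟨T, hT, c, f₁, f₂⟩ := exists_T (lam m u) (fun d => lam_ker m u) (lam_star m u)
  refine equiv_of (π₁ := m₁.regular) (π₂ := m₂.regular) (π := m.regular)
    (cm m m₁ (uq false) 1 (le_map (KK_le false)))
    (cm m m₂ (uq true) 1 (le_map (KK_le true))) (fun γ => cm_pull m m₁ _ _ _ γ⁻¹)
    (fun γ => cm_pull m m₂ _ _ _ γ⁻¹) T (fun γ v => ?_)
    (ContinuousLinearMap.norm_map_of_mem_unitary hT) (fun x => ?_) fun y => ?_
  · exact (congrArg (fun L : m.L2 →L[ℂ] m.L2 => L v)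
      (c (m.pull γ⁻¹).toContinuousLinearMap fun d =>
        ContinuousLinearMap.ext fun v => (cm_pull m m u _ _ γ⁻¹ v).symm).eq).symm
  · exact range_cm m u (KK_le true) m₂ (uq true) (uniform_map KK) (Lt_uniform true) _
      (f₁ _ fun d hd => lam_cm m u (KK_le false) m₁ (uq false) hd x)
  · obtain ⟨x, hx⟩ := range_cm m u (KK_le false) m₁ (uq false) (uniform_map KK) (Lt_uniform false) _
      (f₂ _ fun d hd => lam_cm m u (KK_le true) m₂ (uq true) hd y)
    exact ⟨x, ((congrArg T hx).trans (ContinuousLinearMap.ext_iff.1 (Unitary.mem_iff.1 hT).2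
      (cm m m₂ (uq true) 1 (le_map (KK_le true)) y))).symm⟩

end Pool.Agent.Lib.MP_96637b_nt.NI
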