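import Pool.Agent.Lib.MP_96637b_nt.Sign

/-!
The quaternion order `ℤ[θ]⟨i, j⟩`, `i² = -1`, `j² = π`, and a congruence subgroup of its
norm one group.
-/

open scoped Quaternion

noncomputable section

namespace Pool.Agent.Lib.MP_96637b_nt

open R4

/-- The quaternion order. -/
abbrev QO : Type := ℍ[R4, -1, 0, pi7]

/-- The reduced norm. -/
def qn (q : QO) : R4 := q.re ^ 2 + q.imI ^ 2 - pi7 * (q.imJ ^ 2 + q.imK ^ 2)

theorem mul_star_qn (q : QO) : q * star q = (qn q : QO) := by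
  ext1 <;> simp [qn, pow_two] <;> ring

theorem star_mul_qn (q : QO) : star q * q = (qn q : QO) := by
  ext1 <;> simp [qn, pow_two] <;> ring

theorem qn_mul (p q : QO) : qn (p * q) = qn p * qn q := by
  simp only [qn, QuaternionAlgebra.re_mul, QuaternionAlgebra.imI_mul, QuaternionAlgebra.imJ_mul,
    QuaternionAlgebra.imK_mul]
  ring

theorem qn_smul (m : R4) (q : QO) : qn (m • q) = m ^ 2 * qn q := by
  simp only [qn, QuaternionAlgebra.re_smul, QuaternionAlgebra.imI_smul, QuaternionAlgebra.imJ_smul,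
    QuaternionAlgebra.imK_smul, smul_eq_mul]
  ring

theorem zmod7_sq_add_sq : ∀ x y : ZMod 7, x ^ 2 + y ^ 2 = 0 → x = 0 ∧ y = 0 := by decide

theorem pi7_dvd_of_sq_add_sq {x y z : R4} (h : x ^ 2 + y ^ 2 = pi7 * z) : pi7 ∣ x ∧ pi7 ∣ y := by
  have := congrArg red7 h
  rw [map_add, map_pow, map_pow, map_mul, red7_pi7, zero_mul] at this
  obtain ⟨h1, h2⟩ := zmod7_sq_add_sq _ _ this
  exact ⟨pi7_dvd_of_red7 h1, pi7_dvd_of_red7 h2⟩

theorem eq_zero_of_qn {q : QO} (hq : qn q = 0) : q = 0 := by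
  have h := descent (A := QO) pi7 (fun q => qn q = 0) (by
    intro q hq
    obtain ⟨⟨w, hw⟩, ⟨x, hx⟩⟩ := pi7_dvd_of_sq_add_sq (sub_eq_zero.1 hq)
    have h2 : q.imJ ^ 2 + q.imK ^ 2 = pi7 * (w ^ 2 + x ^ 2) := by
      apply mul_left_cancel₀ pi7_ne_zero
      unfold qn at hq
      rw [hw, hx] at hq
      linear_combination -hq
    obtain ⟨⟨y, hy⟩, ⟨z, hz⟩⟩ := pi7_dvd_of_sq_add_sq h2
    have hq' : q = pi7 • (⟨w, x, y, z⟩ : QO) := by
      ext1 <;> simp [hw, hx, hy, hz]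
    refine ⟨⟨w, x, y, z⟩, ?_, hq'⟩
    rw [hq', qn_smul] at hq
    exact (mul_eq_zero.1 hq).resolve_left (pow_ne_zero _ pi7_ne_zero)) q hq
  ext1
  · exact eq_zero_of_pi7_pow_dvd fun n => by
      obtain ⟨y, -, hy⟩ := h n
      exact ⟨y.re, by rw [hy]; rfl⟩
  · exact eq_zero_of_pi7_pow_dvd fun n => by
      obtain ⟨y, -, hy⟩ := h n
      exact ⟨y.imI, by rw [hy]; rfl⟩
  · exact eq_zero_of_pi7_pow_dvd fun n => by
      obtain ⟨y, -, hy⟩ := h n
      exact ⟨y.imJ, by rw [hy]; rfl⟩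
  · exact eq_zero_of_pi7_pow_dvd fun n => by
      obtain ⟨y, -, hy⟩ := h n
      exact ⟨y.imK, by rw [hy]; rfl⟩

instance : NoZeroDivisors QO := ⟨fun {x y} h => by
  have := qn_mul x y
  rw [h] at this
  have h0 : qn 0 = 0 := by simp [qn]
  rw [h0] at this
  rcases mul_eq_zero.1 this.symm with h | h
  · exact Or.inl (eq_zero_of_qn h)
  · exact Or.inr (eq_zero_of_qn h)⟩

theorem mem_unitary_iff {q : QO} : q ∈ unitary QO ↔ qn q = 1 := by
  rw [Unitary.mem_iff, star_mul_qn, mul_star_qn, and_self, ← QuaternionAlgebra.coe_one,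
    QuaternionAlgebra.coe_inj]

/-- Congruence modulo a central element. -/
def cong (m : R4) : RingCon QO where
  r p q := ∃ u : QO, p = q + m • u
  iseqv := ⟨fun p => ⟨0, by simp⟩, fun ⟨u, hu⟩ => ⟨-u, by rw [hu]; simp⟩,
    fun ⟨u, hu⟩ ⟨v, hv⟩ => ⟨u + v, by rw [hu, hv, smul_add]; abel⟩⟩
  add' := fun ⟨u, hu⟩ ⟨v, hv⟩ => ⟨u + v, by rw [hu, hv, smul_add]; abel⟩
  mul' := fun {a b c d} ⟨u, hu⟩ ⟨v, hv⟩ => ⟨b * v + u * d + m • (u * v), by
    rw [hu, hv]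
    simp only [mul_add, add_mul, smul_add, mul_smul_comm, smul_mul_assoc]
    abel⟩

theorem cong_iff {m : R4} {p q : QO} : cong m p q ↔ ∃ u : QO, p = q + m • u := Iff.rfl

theorem cong_of_dvd {m m' : R4} (h : m ∣ m') {p q : QO} (hpq : cong m' p q) : cong m p q := by
  obtain ⟨c, rfl⟩ := h
  obtain ⟨u, hu⟩ := hpq
  exact ⟨c • u, by rw [hu, mul_smul]⟩

/-- Real part of the distinguished element. -/
def w0 : R4 := ⟨-3, 0, 2, 0⟩

/-- Imaginary part of the distinguished element. -/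
def x0 : R4 := ⟨0, 2, 0, -2⟩

/-- The distinguished element. -/
def g0 : QO := ⟨w0, x0, 0, 0⟩

/-- The level. -/
def lev : R4 := ⟨-32, 48, -16, 0⟩

theorem qn_g0 : qn g0 = 1 := by decide +kernel

theorem g0_2 : g0 ^ 2 = ⟨⟨33, 0, -24, 0⟩, ⟨0, -28, 0, 20⟩, 0, 0⟩ := by
  rw [pow_two]; ext1 <;> decide +kernel

theorem g0_3 : g0 ^ 3 = ⟨⟨-387, 0, 274, 0⟩, ⟨0, 326, 0, -230⟩, 0, 0⟩ := by
  rw [pow_succ, g0_2]; ext1 <;> decide +kernel

theorem g0_4 : g0 ^ 4 = ⟨⟨4481, 0, -3168, 0⟩, ⟨0, -3768, 0, 2664⟩, 0, 0⟩ := by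
  rw [pow_succ, g0_3]; ext1 <;> decide +kernel

theorem g0_5 : g0 ^ 5 = ⟨⟨-51843, 0, 36658, 0⟩, ⟨0, 43594, 0, -30826⟩, 0, 0⟩ := by
  rw [pow_succ, g0_4]; ext1 <;> decide +kernel

theorem g0_6 : g0 ^ 6 = ⟨⟨599841, 0, -424152, 0⟩, ⟨0, -504404, 0, 356668⟩, 0, 0⟩ := by
  rw [pow_succ, g0_5]; ext1 <;> decide +kernel

theorem g0_7 : g0 ^ 7 = ⟨⟨-6940419, 0, 4907618, 0⟩, ⟨0, 5836174, 0, -4126798⟩, 0, 0⟩ := by
  rw [pow_succ, g0_6]; ext1 <;> decide +kernel

theorem g0_8 : g0 ^ 8 = ⟨⟨80303617, 0, -56783232, 0⟩, ⟨0, -67527024, 0, 47748816⟩, 0, 0⟩ := by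
  rw [pow_succ, g0_7]; ext1 <;> decide +kernel

theorem cong_g0_8 : cong lev (g0 ^ 8) 1 :=
  ⟨⟨⟨-224928, -1151928, 159048, 814536⟩, ⟨-1369881, 189141, 968652, -133743⟩, 0, 0⟩, by
    rw [g0_8]; ext1 <;> decide +kernel⟩

theorem cong_g0_7 : cong lev (g0 ^ 7) (star g0) :=
  ⟨⟨⟨19440, 99558, -13746, -70398⟩, ⟨118395, -16347, -83718, 11559⟩, 0, 0⟩, by
    rw [g0_7]; ext1 <;> decide +kernel⟩

theorem cong_g0_mod (k : ℕ) : cong lev (g0 ^ k) (g0 ^ (k % 8)) := by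
  have h := (cong lev).mul ((cong lev).pow (k / 8) cong_g0_8) ((cong lev).refl (g0 ^ (k % 8)))
  rwa [← pow_mul, ← pow_add, Nat.div_add_mod, one_pow, one_mul] at h

/-- The congruence subgroup generated by the distinguished element and the principal
congruence subgroup. -/
def Gam0 : Subgroup (unitary QO) where
  carrier := {q | ∃ k : ℕ, cong lev q (g0 ^ k)}
  one_mem' := ⟨0, by simpa using (cong lev).refl 1⟩
  mul_mem' := fun ⟨k, hk⟩ ⟨l, hl⟩ => ⟨k + l, by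
    rw [pow_add]
    exact (cong lev).mul hk hl⟩
  inv_mem' := fun {q} ⟨k, hk⟩ => ⟨7 * k, by
    have h1 := (cong lev).mul hk ((cong lev).refl (g0 ^ (7 * k)))
    have h2 := (cong lev).pow k cong_g0_8
    rw [← pow_add, show k + 7 * k = 8 * k by ring] at h1
    rw [one_pow, ← pow_mul] at h2
    have h3 := (cong lev).mul ((cong lev).refl (star (q : QO))) ((cong lev).trans h1 h2)
    rw [← mul_assoc, Unitary.star_mul_self_of_mem q.2, one_mul, mul_one] at h3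
    exact (cong lev).symm h3⟩

/-- The distinguished element as a unitary. -/
def g0u : unitary QO := ⟨g0, mem_unitary_iff.2 qn_g0⟩

theorem g0u_mem : g0u ∈ Gam0 := ⟨1, by simpa [g0u] using (cong lev).refl g0⟩

theorem cong_one_of_mem {q : unitary QO} (hq : q ∈ Gam0) : cong (2 * th) q 1 := by
  obtain ⟨k, hk⟩ := hq
  have h1 : 2 * th ∣ lev := ⟨8 * pi7, by decide +kernel⟩
  have h2 : cong (2 * th) g0 1 :=
    ⟨⟨⟨0, 1, 0, -1⟩, ⟨1, 0, -1, 0⟩, 0, 0⟩, by ext1 <;> decide +kernel⟩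
  have h3 := (cong (2 * th)).pow k h2
  rw [one_pow] at h3
  exact (cong _).trans (cong_of_dvd h1 hk) h3

theorem four_dvd_of_pow_eq_one {q : QO} (hq : cong (2 * th) q 1) (h1 : q ≠ 1) {n : ℕ}
    (hn : q ^ n = 1) : 4 ∣ n := by
  have h2 : (∑ i ∈ Finset.range n, q ^ i) = 0 := by
    have := geom_sum_mul q n
    rw [hn, sub_self] at this
    exact (mul_eq_zero.1 this).resolve_right (sub_ne_zero.2 h1)
  have h3 : ∀ m : ℕ, cong (2 * th) (∑ i ∈ Finset.range m, q ^ i) (m : QO) := by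
    intro m
    induction m with
    | zero => simpa using (cong _).refl 0
    | succ m ih =>
      rw [Finset.sum_range_succ, Nat.cast_succ]
      have := (cong (2 * th)).pow m hq
      rw [one_pow] at this
      exact (cong _).add ih this
  obtain ⟨u, hu⟩ := h3 n
  rw [h2] at hu
  have h4 := congrArg (fun x : QO => x.re.a) hu
  simp [th] at h4
  omega

theorem Gam0_torsionFree {q : unitary QO} (hq : q ∈ Gam0) (hf : IsOfFinOrder q) : q = 1 := by
  by_contra h1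
  have hpos := hf.orderOf_pos
  have h4 : 4 ∣ orderOf q := four_dvd_of_pow_eq_one (cong_one_of_mem hq)
    (fun h => h1 (Subtype.ext h)) (congrArg Subtype.val (pow_orderOf_eq_one q))
  obtain ⟨k, hk⟩ := h4
  have hne : q ^ (2 * k) ≠ 1 := pow_ne_one_of_lt_orderOf (by omega) (by omega)
  have h2 : (q ^ (2 * k)) ^ 2 = 1 := by
    rw [← pow_mul, show 2 * k * 2 = orderOf q by omega, pow_orderOf_eq_one]
  have := four_dvd_of_pow_eq_one (cong_one_of_mem (Gam0.pow_mem hq (2 * k)))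
    (fun h => hne (Subtype.ext h)) (congrArg Subtype.val h2)
  omega

theorem red7_lev : red7 lev = 0 := by
  rw [red7, ev_apply]
  decide

theorem cong_cases {q : unitary QO} (hq : q ∈ Gam0) (hw : (q : QO).re = w0) :
    cong lev q g0 ∨ cong lev q (star g0) := by
  obtain ⟨k, hk⟩ := hq
  have h1 := (cong lev).trans hk (cong_g0_mod k)
  have h2 : red7 w0 = red7 (g0 ^ (k % 8)).re := by
    obtain ⟨u, hu⟩ := h1
    rw [← hw, hu]
    simp [red7_lev]
  have h3 : k % 8 < 8 := Nat.mod_lt _ (by norm_num)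
  generalize k % 8 = j at h1 h2 h3
  interval_cases j
  · exact absurd h2 (by rw [pow_zero, red7, ev_apply, ev_apply]; decide)
  · exact Or.inl (by simpa using h1)
  · exact absurd h2 (by rw [g0_2, red7, ev_apply, ev_apply]; decide)
  · exact absurd h2 (by rw [g0_3, red7, ev_apply, ev_apply]; decide)
  · exact absurd h2 (by rw [g0_4, red7, ev_apply, ev_apply]; decide)
  · exact absurd h2 (by rw [g0_5, red7, ev_apply, ev_apply]; decide)
  · exact absurd h2 (by rw [g0_6, red7, ev_apply, ev_apply]; decide)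
  · exact Or.inr ((cong lev).trans h1 cong_g0_7)

theorem sign_data {q : unitary QO} (hq : q ∈ Gam0) (hw : (q : QO).re = w0) :
    ∃ a Y Z : R4, ((q : QO).imI = x0 * (2 * a - 1) ∨ (q : QO).imI = -(x0 * (2 * a - 1))) ∧
      0 < nrm a ∧ (2 * a - 1) ^ 2 = 1 + 64 * pi7 ^ 3 * (Y ^ 2 + Z ^ 2) := by
  have hn := mem_unitary_iff.1 q.2
  let e : R4 := ⟨-1, 0, -1, 0⟩
  have hlev : lev = x0 * (8 * pi7 * e) := by decide +kernel
  have hx0 : x0 ≠ 0 := by decide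
  have hwx : w0 ^ 2 + x0 ^ 2 = 1 := by decide +kernel
  have key : ∀ t Y Z : R4, (q : QO).imI ^ 2 = (x0 * (1 + 8 * pi7 * t)) ^ 2 →
      (q : QO).imJ = x0 * (8 * pi7 * Y) → (q : QO).imK = x0 * (8 * pi7 * Z) →
      0 < nrm (1 + 4 * pi7 * t) ∧
        (2 * (1 + 4 * pi7 * t) - 1) ^ 2 = 1 + 64 * pi7 ^ 3 * (Y ^ 2 + Z ^ 2) := by
    intro t Y Z hI hJ hK
    unfold qn at hn
    rw [hw, hI, hJ, hK] at hn
    have h1 : (2 * (1 + 4 * pi7 * t) - 1) ^ 2 = 1 + 64 * pi7 ^ 3 * (Y ^ 2 + Z ^ 2) := by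
      apply mul_left_cancel₀ (pow_ne_zero 2 hx0)
      linear_combination hn - hwx
    refine ⟨nrm_pos_of_sum_sq _ t pi7 (2 * pi7 * Y) (2 * pi7 * Z) rfl ?_, h1⟩
    have h16 : (16 : R4) * pi7 ≠ 0 := by decide
    apply mul_left_cancel₀ h16
    linear_combination h1
  rcases cong_cases hq hw with ⟨u, hu⟩ | ⟨u, hu⟩
  · have hI : (q : QO).imI = x0 * (1 + 8 * pi7 * (e * u.imI)) := by
      rw [hu, hlev]
      simp [g0]
      ring
    obtain ⟨h1, h2⟩ := key (e * u.imI) (e * u.imJ) (e * u.imK) (by rw [hI])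
      (by rw [hu, hlev]; simp [g0]; ring) (by rw [hu, hlev]; simp [g0]; ring)
    exact ⟨_, _, _, Or.inl (by rw [hI]; ring), h1, h2⟩
  · have hI : (q : QO).imI = -(x0 * (1 + 8 * pi7 * (-(e * u.imI)))) := by
      rw [hu, hlev]
      simp [g0]
      ring
    obtain ⟨h1, h2⟩ := key (-(e * u.imI)) (e * u.imJ) (e * u.imK) (by rw [hI]; ring)
      (by rw [hu, hlev]; simp [g0]; ring) (by rw [hu, hlev]; simp [g0]; ring)
    exact ⟨_, _, _, Or.inr (by rw [hI]; ring), h1, h2⟩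

end Pool.Agent.Lib.MP_96637b_nt
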