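import Mathlib

/-!
The ring `ℤ[θ]` with `θ ^ 4 = 2`.
-/

noncomputable section

namespace Pool.Agent.Lib.MP_96637b_nt

/-- Elements `a + b θ + c θ² + d θ³` of `ℤ[θ]`, `θ ^ 4 = 2`. -/
@[ext]
structure R4 where
  a : ℤ
  b : ℤ
  c : ℤ
  d : ℤ
  deriving DecidableEq

namespace R4

instance : Zero R4 := ⟨⟨0, 0, 0, 0⟩⟩
instance : One R4 := ⟨⟨1, 0, 0, 0⟩⟩
instance : Add R4 := ⟨fun x y => ⟨x.a + y.a, x.b + y.b, x.c + y.c, x.d + y.d⟩⟩
instance : Neg R4 := ⟨fun x => ⟨-x.a, -x.b, -x.c, -x.d⟩⟩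
instance : Mul R4 := ⟨fun x y =>
  ⟨x.a * y.a + 2 * (x.b * y.d + x.c * y.c + x.d * y.b),
   x.a * y.b + x.b * y.a + 2 * (x.c * y.d + x.d * y.c),
   x.a * y.c + x.b * y.b + x.c * y.a + 2 * (x.d * y.d),
   x.a * y.d + x.b * y.c + x.c * y.b + x.d * y.a⟩⟩

@[simp] theorem zero_a : (0 : R4).a = 0 := rfl
@[simp] theorem zero_b : (0 : R4).b = 0 := rfl
@[simp] theorem zero_c : (0 : R4).c = 0 := rfl
@[simp] theorem zero_d : (0 : R4).d = 0 := rfl
@[simp] theorem one_a : (1 : R4).a = 1 := rfl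
@[simp] theorem one_b : (1 : R4).b = 0 := rfl
@[simp] theorem one_c : (1 : R4).c = 0 := rfl
@[simp] theorem one_d : (1 : R4).d = 0 := rfl
@[simp] theorem add_a (x y : R4) : (x + y).a = x.a + y.a := rfl
@[simp] theorem add_b (x y : R4) : (x + y).b = x.b + y.b := rfl
@[simp] theorem add_c (x y : R4) : (x + y).c = x.c + y.c := rfl
@[simp] theorem add_d (x y : R4) : (x + y).d = x.d + y.d := rfl
@[simp] theorem neg_a (x : R4) : (-x).a = -x.a := rfl
@[simp] theorem neg_b (x : R4) : (-x).b = -x.b := rfl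
@[simp] theorem neg_c (x : R4) : (-x).c = -x.c := rfl
@[simp] theorem neg_d (x : R4) : (-x).d = -x.d := rfl
@[simp] theorem mul_a (x y : R4) :
    (x * y).a = x.a * y.a + 2 * (x.b * y.d + x.c * y.c + x.d * y.b) := rfl
@[simp] theorem mul_b (x y : R4) :
    (x * y).b = x.a * y.b + x.b * y.a + 2 * (x.c * y.d + x.d * y.c) := rfl
@[simp] theorem mul_c (x y : R4) :
    (x * y).c = x.a * y.c + x.b * y.b + x.c * y.a + 2 * (x.d * y.d) := rfl
@[simp] theorem mul_d (x y : R4) :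
    (x * y).d = x.a * y.d + x.b * y.c + x.c * y.b + x.d * y.a := rfl

instance addCommGroup : AddCommGroup R4 := by
  refine
  { sub := fun a b => a + -b
    nsmul := @nsmulRec R4 ⟨0⟩ ⟨(· + ·)⟩
    zsmul := @zsmulRec R4 ⟨0⟩ ⟨(· + ·)⟩ ⟨Neg.neg⟩ (@nsmulRec R4 ⟨0⟩ ⟨(· + ·)⟩)
    add_assoc := ?_
    zero_add := ?_
    add_zero := ?_
    neg_add_cancel := ?_
    add_comm := ?_ } <;>
  intros <;>
  ext <;>
  simp [add_comm, add_left_comm]

@[simp] theorem sub_a (x y : R4) : (x - y).a = x.a - y.a := rfl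
@[simp] theorem sub_b (x y : R4) : (x - y).b = x.b - y.b := rfl
@[simp] theorem sub_c (x y : R4) : (x - y).c = x.c - y.c := rfl
@[simp] theorem sub_d (x y : R4) : (x - y).d = x.d - y.d := rfl

instance addGroupWithOne : AddGroupWithOne R4 :=
  { R4.addCommGroup with
    natCast := fun n => ⟨n, 0, 0, 0⟩
    intCast := fun n => ⟨n, 0, 0, 0⟩ }

instance commRing : CommRing R4 := by
  refine
  { R4.addGroupWithOne with
    npow := @npowRec R4 ⟨1⟩ ⟨(· * ·)⟩,
    add_comm := ?_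
    left_distrib := ?_
    right_distrib := ?_
    zero_mul := ?_
    mul_zero := ?_
    mul_assoc := ?_
    one_mul := ?_
    mul_one := ?_
    mul_comm := ?_ } <;>
  intros <;>
  ext <;>
  simp <;>
  ring

@[simp] theorem intCast_a (n : ℤ) : (n : R4).a = n := rfl
@[simp] theorem intCast_b (n : ℤ) : (n : R4).b = 0 := rfl
@[simp] theorem intCast_c (n : ℤ) : (n : R4).c = 0 := rfl
@[simp] theorem intCast_d (n : ℤ) : (n : R4).d = 0 := rfl
@[simp] theorem natCast_a (n : ℕ) : (n : R4).a = n := rfl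
@[simp] theorem natCast_b (n : ℕ) : (n : R4).b = 0 := rfl
@[simp] theorem natCast_c (n : ℕ) : (n : R4).c = 0 := rfl
@[simp] theorem natCast_d (n : ℕ) : (n : R4).d = 0 := rfl
@[simp] theorem ofNat_a (n : ℕ) [n.AtLeastTwo] : (ofNat(n) : R4).a = ofNat(n) := rfl
@[simp] theorem ofNat_b (n : ℕ) [n.AtLeastTwo] : (ofNat(n) : R4).b = 0 := rfl
@[simp] theorem ofNat_c (n : ℕ) [n.AtLeastTwo] : (ofNat(n) : R4).c = 0 := rfl
@[simp] theorem ofNat_d (n : ℕ) [n.AtLeastTwo] : (ofNat(n) : R4).d = 0 := rfl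

/-- Evaluation at a root of `X ^ 4 - 2`. -/
def ev {K : Type} [CommRing K] (t : K) (ht : t ^ 4 = 2) : R4 →+* K where
  toFun x := x.a + x.b * t + x.c * t ^ 2 + x.d * t ^ 3
  map_one' := by simp
  map_zero' := by simp
  map_add' x y := by simp; ring
  map_mul' x y := by
    simp only [mul_a, mul_b, mul_c, mul_d]
    push_cast
    linear_combination (-(x.b * y.d + x.c * y.c + x.d * y.b : K) -
      (x.c * y.d + x.d * y.c) * t - (x.d * y.d) * t ^ 2) * ht

theorem ev_apply {K : Type} [CommRing K] (t : K) (ht : t ^ 4 = 2) (x : R4) :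
    ev t ht x = x.a + x.b * t + x.c * t ^ 2 + x.d * t ^ 3 := rfl

/-- The norm to `ℤ`. -/
def nrm (x : R4) : ℤ :=
  (x.a ^ 2 + 2 * x.c ^ 2 - 4 * x.b * x.d) ^ 2 - 2 * (2 * x.a * x.c - x.b ^ 2 - 2 * x.d ^ 2) ^ 2

/-- The adjugate. -/
def adj (x : R4) : R4 :=
  ⟨x.a, -x.b, x.c, -x.d⟩ *
    ⟨x.a ^ 2 + 2 * x.c ^ 2 - 4 * x.b * x.d, 0, -(2 * x.a * x.c - x.b ^ 2 - 2 * x.d ^ 2), 0⟩

theorem mul_adj (x : R4) : x * adj x = (nrm x : R4) := by
  ext <;> simp only [adj, mul_a, mul_b, mul_c, mul_d, intCast_a, intCast_b, intCast_c, intCast_d,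
    nrm] <;> ring

theorem nrm_mul (x y : R4) : nrm (x * y) = nrm x * nrm y := by
  simp only [nrm, mul_a, mul_b, mul_c, mul_d]
  ring

@[simp] theorem nrm_one : nrm 1 = 1 := by simp [nrm]

theorem nrm_pow (x : R4) (n : ℕ) : nrm (x ^ n) = nrm x ^ n := by
  induction n with
  | zero => simp
  | succ n ih => rw [pow_succ, nrm_mul, ih, pow_succ]

/-- The generator. -/
def th : R4 := ⟨0, 1, 0, 0⟩

/-- The prime of norm seven. -/
def pi7 : R4 := ⟨3, -1, 0, -1⟩

theorem intCast_mul_eq (n : ℤ) (y : R4) :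
    (n : R4) * y = ⟨n * y.a, n * y.b, n * y.c, n * y.d⟩ := by
  ext <;> simp

theorem descent {A : Type} [AddCommGroup A] [Module R4 A] (m : R4) (P : A → Prop)
    (h : ∀ x, P x → ∃ y, P y ∧ x = m • y) (x : A) (hx : P x) (n : ℕ) :
    ∃ y, P y ∧ x = m ^ n • y := by
  induction n with
  | zero => exact ⟨x, hx, by simp⟩
  | succ n ih =>
    obtain ⟨y, hy, rfl⟩ := ih
    obtain ⟨z, hz, rfl⟩ := h y hy
    exact ⟨z, hz, by rw [pow_succ, mul_smul]⟩

theorem int_eq_zero_of_pow_dvd {p : ℤ} (hp : 1 < p) {z : ℤ} (h : ∀ n : ℕ, p ^ n ∣ z) : z = 0 := by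
  by_contra hz
  have h1 := Int.le_of_dvd (abs_pos.2 hz) ((dvd_abs _ _).2 (h z.natAbs))
  have h2 : (z.natAbs : ℤ) < p ^ z.natAbs := by
    have := Nat.lt_pow_self (n := z.natAbs) (show 1 < p.toNat by omega)
    have h3 : (p.toNat : ℤ) = p := Int.toNat_of_nonneg (by omega)
    rw [← h3]
    exact_mod_cast this
  rw [Int.natCast_natAbs] at h2
  omega

theorem th_pow_four : th ^ 4 = 2 := by
  ext <;> simp [th, pow_succ]

theorem eq_zero_of_nrm {x : R4} (hx : nrm x = 0) : x = 0 := by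
  have h := descent (A := R4) th (fun x => nrm x = 0) (by
    intro x hx
    have h2 : (2 : ℤ) ∣ x.a := by
      have : (2 : ℤ) ∣ x.a ^ 4 := by
        refine ⟨-(2 * x.a ^ 2 * x.c ^ 2 - 4 * x.a ^ 2 * x.b * x.d +
          2 * (x.c ^ 2 - 2 * x.b * x.d) ^ 2) + (2 * x.a * x.c - x.b ^ 2 - 2 * x.d ^ 2) ^ 2, ?_⟩
        unfold nrm at hx
        linear_combination hx
      exact Int.prime_two.dvd_of_dvd_pow this
    obtain ⟨k, hk⟩ := h2
    have hxy : x = th * ⟨x.b, x.c, x.d, k⟩ := by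
      ext <;> simp [th, hk]
    refine ⟨⟨x.b, x.c, x.d, k⟩, ?_, hxy⟩
    rw [hxy, nrm_mul] at hx
    have : nrm th = -2 := by simp [nrm, th]
    rw [this] at hx
    omega) x hx
  have key : ∀ n : ℕ, ∃ y : R4, x = ((2 ^ n : ℤ) : R4) * y := by
    intro n
    obtain ⟨y, -, hy⟩ := h (4 * n)
    refine ⟨y, ?_⟩
    rw [hy, pow_mul, th_pow_four]
    simp
  ext
  · exact int_eq_zero_of_pow_dvd one_lt_two fun n => by
      obtain ⟨y, hy⟩ := key n
      exact ⟨y.a, by rw [hy, intCast_mul_eq]⟩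
  · exact int_eq_zero_of_pow_dvd one_lt_two fun n => by
      obtain ⟨y, hy⟩ := key n
      exact ⟨y.b, by rw [hy, intCast_mul_eq]⟩
  · exact int_eq_zero_of_pow_dvd one_lt_two fun n => by
      obtain ⟨y, hy⟩ := key n
      exact ⟨y.c, by rw [hy, intCast_mul_eq]⟩
  · exact int_eq_zero_of_pow_dvd one_lt_two fun n => by
      obtain ⟨y, hy⟩ := key n
      exact ⟨y.d, by rw [hy, intCast_mul_eq]⟩

instance : Nontrivial R4 := ⟨⟨0, 1, by decide⟩⟩

instance : NoZeroDivisors R4 := ⟨fun {x y} h => by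
  have := nrm_mul x y
  rw [h] at this
  have h0 : nrm 0 = 0 := by simp [nrm]
  rw [h0] at this
  rcases mul_eq_zero.1 this.symm with h | h
  · exact Or.inl (eq_zero_of_nrm h)
  · exact Or.inr (eq_zero_of_nrm h)⟩

instance : IsDomain R4 := NoZeroDivisors.to_isDomain _

theorem ev_eq_zero {K : Type} [CommRing K] [CharZero K] {t : K} {ht : t ^ 4 = 2} {x : R4}
    (h : ev t ht x = 0) : x = 0 := by
  apply eq_zero_of_nrm
  have := congrArg (ev t ht) (mul_adj x)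
  rw [map_mul, h, zero_mul, map_intCast] at this
  exact_mod_cast this.symm

theorem nrm_pi7 : nrm pi7 = 7 := by simp [nrm, pi7]

theorem pi7_ne_zero : pi7 ≠ 0 := by decide

theorem eq_zero_of_pi7_pow_dvd {x : R4} (h : ∀ n : ℕ, pi7 ^ n ∣ x) : x = 0 := by
  apply eq_zero_of_nrm
  refine int_eq_zero_of_pow_dvd (p := 7) (by norm_num) fun n => ?_
  obtain ⟨y, rfl⟩ := h n
  rw [nrm_mul, nrm_pow, nrm_pi7]
  exact dvd_mul_right _ _

theorem two_pow_four_zmod : (2 : ZMod 7) ^ 4 = 2 := by decide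

/-- Reduction modulo the prime of norm seven. -/
def red7 : R4 →+* ZMod 7 := ev 2 two_pow_four_zmod

theorem red7_pi7 : red7 pi7 = 0 := by
  rw [red7, ev_apply]
  decide

theorem pi7_dvd_of_red7 {x : R4} (h : red7 x = 0) : pi7 ∣ x := by
  rw [red7, ev_apply] at h
  have h1 : ((x.a + 2 * x.b + 4 * x.c + 8 * x.d : ℤ) : ZMod 7) = 0 := by
    push_cast
    linear_combination h
  obtain ⟨k, hk⟩ := (ZMod.intCast_zmod_eq_zero_iff_dvd _ 7).1 h1
  have h2 : x = ((7 * k : ℤ) : R4) + (th - 2) * ⟨x.b + 2 * x.c + 4 * x.d, x.c + 2 * x.d, x.d, 0⟩ := by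
    push_cast at hk
    ext <;> simp [th, -Int.cast_mul] <;> linarith
  have h3 : th - 2 = pi7 * ⟨-2, -1, -1, -1⟩ := by decide
  have h4 : ((7 : ℤ) : R4) = pi7 * ⟨15, 11, 9, 8⟩ := by decide
  rw [h2, h3, Int.cast_mul, h4, mul_assoc, mul_assoc]
  exact dvd_add (dvd_mul_right _ _) (dvd_mul_right _ _)

/-- Coordinates. -/
def equivFun : R4 ≃+ (Fin 4 → ℤ) where
  toFun x := ![x.a, x.b, x.c, x.d]
  invFun v := ⟨v 0, v 1, v 2, v 3⟩
  left_inv x := by ext <;> simp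
  right_inv v := by
    ext i
    fin_cases i <;> simp
  map_add' x y := by
    ext i
    fin_cases i <;> simp

/-- The standard basis. -/
def basis : Module.Basis (Fin 4) ℤ R4 := Module.Basis.ofEquivFun equivFun.toIntLinearEquiv

instance : Module.Free ℤ R4 := .of_basis basis
instance : Module.Finite ℤ R4 := .of_basis basis

theorem det_mulLeft (x : R4) : LinearMap.det (LinearMap.mulLeft ℤ x) = nrm x := by
  rw [← LinearMap.det_toMatrix basis]
  have : LinearMap.toMatrix basis basis (LinearMap.mulLeft ℤ x) =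
      !![x.a, 2 * x.d, 2 * x.c, 2 * x.b; x.b, x.a, 2 * x.d, 2 * x.c;
        x.c, x.b, x.a, 2 * x.d; x.d, x.c, x.b, x.a] := by
    ext i j
    rw [LinearMap.toMatrix_apply]
    fin_cases i <;> fin_cases j <;>
      simp [basis, equivFun, Module.Basis.coe_ofEquivFun, Module.Basis.ofEquivFun_repr_apply]
  rw [this]
  simp [Matrix.det_succ_row_zero, Fin.sum_univ_succ, Fin.succAbove, nrm]
  ring

theorem card_quot {x : R4} (hx : x ≠ 0) :
    Nat.card (R4 ⧸ Ideal.span {x}) = (nrm x).natAbs := by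
  have hinj : Function.Injective (LinearMap.mulLeft ℤ x) := fun u v h => mul_left_cancel₀ hx h
  have h := Submodule.natAbs_det_equiv (LinearMap.range (LinearMap.mulLeft ℤ x))
    (LinearEquiv.ofInjective _ hinj)
  rw [← det_mulLeft]
  have h2 : (LinearMap.range (LinearMap.mulLeft ℤ x)) =
      (Ideal.span {x} : Ideal R4).restrictScalars ℤ := by
    ext y
    simp only [LinearMap.mem_range, LinearMap.mulLeft_apply, Submodule.restrictScalars_mem,
      Ideal.mem_span_singleton]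
    exact ⟨fun ⟨z, hz⟩ => ⟨z, hz.symm⟩, fun ⟨z, hz⟩ => ⟨z, hz.symm⟩⟩
  have h3 : Nat.card (R4 ⧸ (LinearMap.range (LinearMap.mulLeft ℤ x))) =
      Nat.card (R4 ⧸ Ideal.span {x}) := by
    rw [h2]
    rfl
  rw [← h3, ← h]
  congr 2

end R4

end Pool.Agent.Lib.MP_96637b_nt
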