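import Pool.Agent.Lib.MP_96637b_nt.Ring

/-!
The sign lemma: a coprime factor of a sum of two squares which is `1 mod 4` has positive norm.
-/

noncomputable section

namespace Pool.Agent.Lib.MP_96637b_nt

theorem card_mod_four {H : Type} [AddCommGroup H] [Finite H] (J : Equiv.Perm H)
    (hJ : ∀ x, J (J x) = -x) (h2 : ∀ x : H, -x = x → x = 0) : Nat.card H % 4 = 1 := by
  classical
  have := Fintype.ofFinite H
  have hsq : (J * J) ^ 2 = 1 := by
    ext x
    simp [pow_two, hJ]
  have hs := Equiv.Perm.sign_of_pow_two_eq_one hsq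
  have hfix : Fintype.card (Function.fixedPoints (J * J)) = 1 := by
    rw [Fintype.card_eq_one_iff]
    refine ⟨⟨0, by simp [Function.IsFixedPt, hJ]⟩, fun y => Subtype.ext (h2 _ ?_)⟩
    have h3 : J (J y.1) = y.1 := y.2
    rwa [hJ] at h3
  have hev := Equiv.Perm.two_dvd_card_support hsq
  have hsupp : (J * J).support = Finset.univ.erase 0 := by
    ext x
    simp only [Equiv.Perm.mem_support, Equiv.Perm.coe_mul, Function.comp_apply, hJ,
      Finset.mem_erase, Finset.mem_univ, and_true]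
    exact ⟨fun h h0 => h (by simp [h0]), fun h h0 => h (h2 x h0)⟩
  rw [hsupp, Finset.card_erase_of_mem (Finset.mem_univ _), Finset.card_univ] at hev
  rw [hfix, map_mul, Int.units_mul_self] at hs
  have hpos : 0 < Fintype.card H := Fintype.card_pos
  rw [Nat.card_eq_fintype_card]
  have : Even ((Fintype.card H - 1) / 2) := by
    by_contra hne
    rw [Nat.not_even_iff_odd] at hne
    rw [hne.neg_one_pow] at hs
    exact absurd hs (by decide)
  obtain ⟨k, hk⟩ := this
  omega

theorem card_quot_mod_four {R : Type} [CommRing R] [IsDomain R] (a t c A B : R) (ha : a ≠ 0)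
    (h1 : a = 1 + 2 * c * t) (h2 : t * a = A ^ 2 + B ^ 2) [Finite (R ⧸ Ideal.span {a})] :
    Nat.card (R ⧸ Ideal.span {a}) % 4 = 1 := by
  set I : Ideal R := Ideal.span {a} with hI
  let p : R →+* R ⧸ I := Ideal.Quotient.mk I
  have hpa : p a = 0 := Ideal.Quotient.eq_zero_iff_mem.2 (Ideal.mem_span_singleton_self a)
  have hp1 : 1 + 2 * p c * p t = 0 := by
    rw [← hpa, h1]
    simp [map_ofNat]
  have hp2 : p A ^ 2 + p B ^ 2 = 0 := by
    rw [← map_pow, ← map_pow, ← map_add, ← h2, map_mul, hpa, mul_zero]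
  let M : (R ⧸ I) × (R ⧸ I) →+ (R ⧸ I) × (R ⧸ I) :=
    { toFun := fun v => (p A * v.1 - p B * v.2, p B * v.1 + p A * v.2)
      map_zero' := by simp
      map_add' := fun v w => by
        ext <;> simp <;> ring }
  let M' : (R ⧸ I) × (R ⧸ I) →+ (R ⧸ I) × (R ⧸ I) :=
    { toFun := fun v => (p A * v.1 + p B * v.2, -(p B * v.1) + p A * v.2)
      map_zero' := by simp
      map_add' := fun v w => by
        ext <;> simp <;> ring }
  have hM : ∀ v, v ∈ M.ker ↔ p A * v.1 - p B * v.2 = 0 ∧ p B * v.1 + p A * v.2 = 0 := by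
    intro v
    rw [AddMonoidHom.mem_ker, Prod.ext_iff]
    rfl
  have hM' : ∀ v, v ∈ M'.ker ↔ p A * v.1 + p B * v.2 = 0 ∧ -(p B * v.1) + p A * v.2 = 0 := by
    intro v
    rw [AddMonoidHom.mem_ker, Prod.ext_iff]
    rfl
  have hker : M'.range = M.ker := by
    ext ⟨v₁, v₂⟩
    rw [hM]
    constructor
    · rintro ⟨⟨w₁, w₂⟩, hw⟩
      obtain ⟨rfl, rfl⟩ := Prod.ext_iff.1 hw
      constructor
      · change p A * (p A * w₁ + p B * w₂) - p B * (-(p B * w₁) + p A * w₂) = 0
        linear_combination w₁ * hp2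
      · change p B * (p A * w₁ + p B * w₂) + p A * (-(p B * w₁) + p A * w₂) = 0
        linear_combination w₂ * hp2
    · obtain ⟨v₁, rfl⟩ := Ideal.Quotient.mk_surjective v₁
      obtain ⟨v₂, rfl⟩ := Ideal.Quotient.mk_surjective v₂
      rintro ⟨e₁, e₂⟩
      change p A * p v₁ - p B * p v₂ = 0 at e₁
      change p B * p v₁ + p A * p v₂ = 0 at e₂
      rw [← map_mul, ← map_mul, ← map_sub] at e₁
      rw [← map_mul, ← map_mul, ← map_add] at e₂
      obtain ⟨u₁, hu₁⟩ := Ideal.mem_span_singleton.1 (Ideal.Quotient.eq_zero_iff_mem.1 e₁)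
      obtain ⟨u₂, hu₂⟩ := Ideal.mem_span_singleton.1 (Ideal.Quotient.eq_zero_iff_mem.1 e₂)
      have f₁ : A * u₁ + B * u₂ = t * v₁ := by
        apply mul_left_cancel₀ ha
        linear_combination (-A) * hu₁ - B * hu₂ - v₁ * h2
      have f₂ : -(B * u₁) + A * u₂ = t * v₂ := by
        apply mul_left_cancel₀ ha
        linear_combination B * hu₁ - A * hu₂ - v₂ * h2
      have g₁ := congrArg p f₁
      have g₂ := congrArg p f₂
      simp only [map_add, map_mul, map_neg] at g₁ g₂
      refine ⟨(-(2 * p c) * p u₁, -(2 * p c) * p u₂), Prod.ext ?_ ?_⟩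
      · change p A * (-(2 * p c) * p u₁) + p B * (-(2 * p c) * p u₂) = p v₁
        linear_combination (-(2 * p c)) * g₁ - p v₁ * hp1
      · change -(p B * (-(2 * p c) * p u₁)) + p A * (-(2 * p c) * p u₂) = p v₂
        linear_combination (-(2 * p c)) * g₂ - p v₂ * hp1
  have hcard : Nat.card M'.ker = Nat.card M.ker := by
    refine Nat.card_congr
      { toFun := fun v => ⟨(v.1.1, -v.1.2), ?_⟩
        invFun := fun v => ⟨(v.1.1, -v.1.2), ?_⟩
        left_inv := fun v => by simp
        right_inv := fun v => by simp }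
    · obtain ⟨e₁, e₂⟩ := (hM' _).1 v.2
      rw [hM]
      exact ⟨by linear_combination e₁, by linear_combination -e₂⟩
    · obtain ⟨e₁, e₂⟩ := (hM _).1 v.2
      rw [hM']
      exact ⟨by linear_combination e₁, by linear_combination -e₂⟩
  have hmul := M'.ker.card_mul_index
  rw [AddSubgroup.index_ker, hker, hcard, Nat.card_prod] at hmul
  have heq : Nat.card M.ker = Nat.card (R ⧸ I) := Nat.mul_self_inj.1 hmul
  rw [← heq]
  let J : Equiv.Perm M.ker :=
    { toFun := fun v => ⟨(-v.1.2, v.1.1), by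
        obtain ⟨e₁, e₂⟩ := (hM _).1 v.2
        rw [hM]
        exact ⟨by linear_combination -e₂, by linear_combination e₁⟩⟩
      invFun := fun v => ⟨(v.1.2, -v.1.1), by
        obtain ⟨e₁, e₂⟩ := (hM _).1 v.2
        rw [hM]
        exact ⟨by linear_combination e₂, by linear_combination -e₁⟩⟩
      left_inv := fun v => by simp
      right_inv := fun v => by simp }
  refine card_mod_four J (fun x => rfl) fun x hx => ?_
  have hx' : -x.1 = x.1 := congrArg Subtype.val hx
  obtain ⟨e₁, e₂⟩ := Prod.ext_iff.1 hx'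
  simp only [Prod.fst_neg, Prod.snd_neg] at e₁ e₂
  apply Subtype.ext
  apply Prod.ext
  · change x.1.1 = 0
    linear_combination x.1.1 * hp1 + p c * p t * e₁
  · change x.1.2 = 0
    linear_combination x.1.2 * hp1 + p c * p t * e₂

namespace R4

theorem nrm_pos_of_sum_sq (a t c A B : R4) (h1 : a = 1 + 4 * c * t)
    (h2 : t * a = A ^ 2 + B ^ 2) : 0 < nrm a := by
  have hmod : nrm a % 4 = 1 := by
    rw [h1, mul_assoc]
    generalize c * t = u
    have : nrm (1 + 4 * u) = 1 + 4 * ((2 * u.a + 4 * u.a ^ 2 + 8 * u.c ^ 2 - 16 * u.b * u.d) * 2 +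
        4 * (2 * u.a + 4 * u.a ^ 2 + 8 * u.c ^ 2 - 16 * u.b * u.d) ^ 2 -
        8 * (2 * (1 + 4 * u.a) * u.c - 4 * u.b ^ 2 - 8 * u.d ^ 2) ^ 2) := by
      simp [nrm]
      ring
    rw [this]
    omega
  have hn : nrm a ≠ 0 := by omega
  have ha : a ≠ 0 := by
    rintro rfl
    exact hn (by simp [nrm])
  have hc := card_quot ha
  have : Finite (R4 ⧸ Ideal.span {a}) := Nat.finite_of_card_ne_zero (by rw [hc]; omega)
  have h4 := card_quot_mod_four a t (2 * c) A B ha (by rw [h1]; ring) h2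
  rw [hc] at h4
  omega

end R4

end Pool.Agent.Lib.MP_96637b_nt
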